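import Pool.Agent.Lib.MP_aad418_lc.ClA

/-! Extendible strings of the derived sets of a family of effectively closed sets. -/

namespace Pool.Agent.Lib.MP_aad418_lc

open Set PiNat

variable {α : Type} [Primcodable α]

/-- All strings of a given length. -/
def clbStr (L : ℕ) : List (List Bool) :=
  (fun l : List (List Bool) => l.flatMap fun t => [false :: t, true :: t])^[L] [[]]

theorem clb_mem {L : ℕ} {t : List Bool} : t ∈ clbStr L ↔ t.length = L := by
  induction L generalizing t with
  | zero => simp [clbStr]
  | succ L ih =>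
    rw [clbStr, Function.iterate_succ_apply', List.mem_flatMap]
    constructor
    · rintro ⟨u, hu, h⟩
      have := ih.1 hu
      simp only [List.mem_cons, List.not_mem_nil, or_false] at h
      rcases h with rfl | rfl <;> simp [this]
    · intro h
      cases t with
      | nil => simp at h
      | cons b u => exact ⟨u, ih.2 (by simpa using h), by cases b <;> simp⟩

theorem clb_prim : Primrec clbStr := by
  refine Primrec.nat_iterate (h := fun (_ : ℕ) (l : List (List Bool)) =>
    l.flatMap fun t => [false :: t, true :: t]) Primrec.id (Primrec.const [[]]) ?_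
  refine Primrec.list_flatMap Primrec.snd ?_
  exact Primrec.list_cons.comp (Primrec.list_cons.comp (Primrec.const false) Primrec.snd)
    (Primrec.list_cons.comp (Primrec.list_cons.comp (Primrec.const true) Primrec.snd)
      (Primrec.const []))

theorem clb_split (x : X) (k l : ℕ) : (res x (k + l)).take k ++ res x l = res x (k + l) := by
  have := List.take_append_drop k (res x (k + l))
  rwa [res_drop, Nat.add_sub_cancel_left] at this

theorem clb_iff {B : List Bool → Prop} (hB : ∀ t s, B (t ++ s) → B s) (s : List Bool) :
    ({x : X | ∀ k, B (res x k)} ∩ cyl s).Nonempty ↔ ∀ L, ∃ t ∈ clbStr L, B (t ++ s) := by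
  constructor
  · rintro ⟨x, h1, h2⟩ L
    refine ⟨(res x (L + s.length)).take L, clb_mem.2 (by simp), ?_⟩
    have := clb_split x L s.length
    rw [show res x s.length = s from h2] at this
    exact this.symm ▸ h1 _
  · intro h
    let K : ℕ → Set X := fun L => cyl s ∩ {x | B (res x (L + s.length))}
    have hc : ∀ L, IsClosed (K L) := fun L => (isClopen_cyl s).isClosed.inter
      ⟨res_lc (L + s.length) {u | B u}ᶜ⟩
    obtain ⟨x, hx⟩ := IsCompact.nonempty_iInter_of_sequence_nonempty_isCompact_isClosed K
      (fun L x hx => ⟨hx.1, hB _ _ (by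
        have := clb_split x 1 (L + s.length)
        rw [this, show 1 + (L + s.length) = L + 1 + s.length by omega]
        exact hx.2)⟩)
      (fun L => by
        obtain ⟨t, ht, hb⟩ := h L
        have e : app (t ++ s) (fun _ => false) ∈ cyl (t ++ s) := range_app _ ▸ ⟨_, rfl⟩
        refine ⟨_, cyl_append t s e, ?_⟩
        have e' : res (app (t ++ s) fun _ => false) (t ++ s).length = t ++ s := e
        rw [List.length_append, clb_mem.1 ht] at e'
        show B _
        rwa [e'])
      (hc 0).isCompact hc
    rw [mem_iInter] at hx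
    refine ⟨x, fun k => hB ((res x (s.length + k)).take s.length) _ ?_, (hx 0).1⟩
    rw [clb_split x s.length k, add_comm]
    exact (hx k).2

theorem Cl.ext0 {C : α → Set X} (h : Cl 1 C) :
    Ar 1 fun p : α × List Bool => (C p.1 ∩ cyl p.2).Nonempty := by
  obtain ⟨B, h1, h2, h3⟩ := h.nf
  have a1 : Ar 1 fun x : ((α × List Bool) × ℕ) × List Bool => B (x.1.1.1, x.2 ++ x.1.1.2) :=
    Ar.prim (h1.comp ((Primrec.fst.comp (Primrec.fst.comp Primrec.fst)).pair
      (Primrec.list_append.comp Primrec.snd (Primrec.snd.comp (Primrec.fst.comp Primrec.fst)))))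
  refine (Ar.all (n := 0) (a1.bex (clb_prim.comp Primrec.snd))).of_eq fun p => ?_
  rw [show C p.1 = {x | ∀ k, B (p.1, res x k)} from Set.ext (h3 p.1)]
  exact (clb_iff (B := fun u => B (p.1, u)) (h2 p.1) p.2).symm

theorem Cl.ext {C : α → Set X} (h : Cl 1 C) (n : ℕ) :
    Ar (2 * n + 1) fun p : α × List Bool => (D n (C p.1) ∩ cyl p.2).Nonempty := by
  induction n with
  | zero => exact h.ext0
  | succ n ih =>
    have a0 : ∀ b : Bool, Ar (2 * n + 1) fun x : ((α × List Bool) × ℕ) × List Bool =>
        (D n (C x.1.1.1) ∩ cyl (b :: (x.2 ++ x.1.1.2))).Nonempty := fun b =>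
      ih.comp (f := fun x : ((α × List Bool) × ℕ) × List Bool =>
        (x.1.1.1, b :: (x.2 ++ x.1.1.2))) ((Primrec.fst.comp (Primrec.fst.comp Primrec.fst)).pair
        (Primrec.list_cons.comp (Primrec.const b) (Primrec.list_append.comp Primrec.snd
          (Primrec.snd.comp (Primrec.fst.comp Primrec.fst)))))
    have a1 : Ar (2 * n + 1) fun x : ((α × List Bool) × ℕ) × List Bool => x.1.2 ≤ x.2.length :=
      Ar.prim (Primrec.nat_le.comp (Primrec.snd.comp Primrec.fst)
        (Primrec.list_length.comp Primrec.snd))
    refine (a1.and ((a0 false).and (a0 true))).not.all.not.all.of_eq fun p => ?_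
    rw [D_succ, derived_cyl]
    simp only [br, not_forall, not_not]

end Pool.Agent.Lib.MP_aad418_lc
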