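import Mathlib

/-! The arithmetical hierarchy: `Ar n p` says that `p` is a `Π_n` predicate. -/

namespace Pool.Agent.Lib.MP_aad418_lc

open Nat.Partrec (Code)

/-- The `Π_n` predicates over the primitive recursive ones. -/
def Ar : ℕ → ∀ {α : Type} [Primcodable α], (α → Prop) → Prop
  | 0, _, _, p => PrimrecPred p
  | n + 1, α, _, p => ∃ q : α × ℕ → Prop, Ar n q ∧ ∀ a, p a ↔ ∀ k, ¬ q (a, k)

variable {α β : Type} [Primcodable α] [Primcodable β] {n : ℕ}

theorem Ar.of_eq {p q : α → Prop} (h : Ar n p) (e : ∀ a, p a ↔ q a) : Ar n q :=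
  (funext fun a => propext (e a) : p = q) ▸ h

theorem Ar.comp {p : α → Prop} (h : Ar n p) {f : β → α} (hf : Primrec f) :
    Ar n fun b => p (f b) := by
  induction n generalizing α β with
  | zero => exact PrimrecPred.comp h hf
  | succ n ih =>
    obtain ⟨q, hq, e⟩ := h
    exact ⟨fun c => q (f c.1, c.2), ih hq ((hf.comp .fst).pair .snd), fun b => e _⟩

theorem Ar.prim {p : α → Prop} (h : PrimrecPred p) : Ar n p := by
  induction n generalizing α with
  | zero => exact h
  | succ n ih => exact ⟨fun c => ¬ p c.1, ih (h.comp .fst).not, fun a => by simp⟩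

theorem hier_and_or {p q : α → Prop} (hp : Ar n p) (hq : Ar n q) :
    (Ar n fun a => p a ∧ q a) ∧ Ar n fun a => p a ∨ q a := by
  induction n generalizing α with
  | zero => exact ⟨PrimrecPred.and hp hq, PrimrecPred.or hp hq⟩
  | succ n ih =>
    obtain ⟨s, hs, e⟩ := hp
    obtain ⟨t, ht, e'⟩ := hq
    refine ⟨⟨_, (ih hs ht).2, fun a => by simp only [e, e', not_or, forall_and]⟩,
      ⟨_, (ih (hs.comp (Primrec.fst.pair (Primrec.fst.comp (Primrec.unpair.comp .snd))))
        (ht.comp (Primrec.fst.pair (Primrec.snd.comp (Primrec.unpair.comp .snd))))).1,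
        fun a => ?_⟩⟩
    simp only [e, e']
    refine ⟨fun g k g' => g.elim (fun g => g _ g'.1) fun g => g _ g'.2, fun g => ?_⟩
    by_contra g'
    simp only [not_or, not_forall, not_not] at g'
    obtain ⟨⟨i, hi⟩, j, hj⟩ := g'
    exact g (Nat.pair i j) (by simpa only [Nat.unpair_pair] using ⟨hi, hj⟩)

theorem Ar.and {p q : α → Prop} (hp : Ar n p) (hq : Ar n q) : Ar n fun a => p a ∧ q a := by
  exact (hier_and_or hp hq).1

theorem Ar.or {p q : α → Prop} (hp : Ar n p) (hq : Ar n q) : Ar n fun a => p a ∨ q a := by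
  exact (hier_and_or hp hq).2

theorem Ar.not {p : α → Prop} (h : Ar n p) : Ar (n + 1) fun a => ¬ p a := by
  exact ⟨fun c => p c.1, h.comp .fst, fun a => by simp⟩

theorem hier_succ {p : α → Prop} (h : Ar n p) : Ar (n + 1) p := by
  induction n generalizing α with
  | zero => exact Ar.prim h
  | succ n ih =>
    obtain ⟨q, hq, e⟩ := h
    exact ⟨q, ih hq, e⟩

theorem Ar.mono {p : α → Prop} (h : Ar n p) {m : ℕ} (hm : n ≤ m) : Ar m p := by
  induction hm with
  | refl => exact h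
  | step _ ih => exact hier_succ ih

theorem Ar.imp {c p : α → Prop} (hc : PrimrecPred c) (h : Ar n p) : Ar n fun a => c a → p a := by
  exact ((Ar.prim hc.not).or h).of_eq fun a => imp_iff_not_or.symm

theorem hier_mk {q : α × β → Prop} (h : Ar n q) : Ar (n + 1) fun a => ∀ b, ¬ q (a, b) := by
  rcases isEmpty_or_nonempty β with g | ⟨⟨b₀⟩⟩
  · exact (Ar.prim (Primrec.eq.comp (.const 0) (.const 0))).of_eq fun a => by simp
  · refine ⟨fun c => q (c.1, (Encodable.decode c.2).getD b₀), h.comp (Primrec.fst.pair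
      (Primrec.option_getD.comp (Primrec.decode.comp .snd) (.const b₀))),
      fun a => ⟨fun g k => g _, fun g b => ?_⟩⟩
    simpa using g (Encodable.encode b)

theorem Ar.all {p : α × β → Prop} (h : Ar (n + 1) p) : Ar (n + 1) fun a => ∀ b, p (a, b) := by
  obtain ⟨q, hq, e⟩ := h
  exact (hier_mk (q := fun c : α × β × ℕ => q ((c.1, c.2.1), c.2.2)) (hq.comp
    ((Primrec.fst.pair (Primrec.fst.comp .snd)).pair (Primrec.snd.comp .snd)))).of_eq fun a => by
      simp only [e, Prod.forall]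

theorem Ar.ball {p : α × β → Prop} (h : Ar n p) {l : α → List β} (hl : Primrec l) :
    Ar n fun a => ∀ b ∈ l a, p (a, b) := by
  cases n with
  | zero =>
    exact (PrimrecRel.forall_mem_list (R := fun b a => p (a, b))
      (PrimrecPred.comp h (Primrec.snd.pair .fst))).comp hl .id
  | succ n =>
    exact Ar.all (p := fun c : α × β => c.2 ∈ l c.1 → p c) (h.imp
      ((Primrec.eq.exists_mem_list.comp (hl.comp .fst) .snd).of_eq fun c => by simp))

theorem hier_coll {γ : Type} (l : List γ) (P : γ → ℕ → Prop) :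
    (∀ b ∈ l, ∃ k, P b k) ↔ ∃ N, ∀ b ∈ l, ∃ k ∈ List.range N, P b k := by
  refine ⟨fun h => ?_, fun ⟨N, h⟩ b hb => (h b hb).imp fun k g => g.2⟩
  induction l with
  | nil => simp
  | cons c l ih =>
    obtain ⟨N, g⟩ := ih fun b hb => h b (List.mem_cons_of_mem _ hb)
    obtain ⟨k, hk⟩ := h c List.mem_cons_self
    simp only [List.mem_range, List.forall_mem_cons] at g ⊢
    exact ⟨N + k + 1, ⟨k, by omega, hk⟩, fun b hb => (g b hb).imp fun j e => ⟨by omega, e.2⟩⟩

theorem Ar.bex {p : α × β → Prop} (h : Ar n p) {l : α → List β} (hl : Primrec l) :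
    Ar n fun a => ∃ b ∈ l a, p (a, b) := by
  induction n generalizing α β with
  | zero =>
    exact (PrimrecRel.exists_mem_list (R := fun b a => p (a, b))
      (PrimrecPred.comp h (Primrec.snd.pair .fst))).comp hl .id
  | succ n ih =>
    obtain ⟨q, hq, e⟩ := h
    refine ⟨fun c => ∀ b ∈ l c.1, ∃ k ∈ List.range c.2, q ((c.1, b), k),
      Ar.ball (p := fun d : (α × ℕ) × β => ∃ k ∈ List.range d.1.2, q ((d.1.1, d.2), k))
        (ih (p := fun d : ((α × ℕ) × β) × ℕ => q ((d.1.1.1, d.1.2), d.2)) (hq.comp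
          (((Primrec.fst.comp (Primrec.fst.comp .fst)).pair (Primrec.snd.comp .fst)).pair .snd))
          (Primrec.list_range.comp (Primrec.snd.comp .fst))) (hl.comp .fst), fun a => ?_⟩
    rw [← not_exists, ← hier_coll (l a) fun b k => q ((a, b), k)]
    simp [e]

/-- Unique witnesses. -/
theorem Ar.uniq {q : α × ℕ → Prop} (h : Ar (n + 1) q) : ∃ r : α × ℕ → Prop, Ar (n + 1) r ∧
    (∀ a, (∃ j, q (a, j)) ↔ ∃ j, r (a, j)) ∧ ∀ a j j', r (a, j) → r (a, j') → j = j' := by
  obtain ⟨t, ht, e⟩ := id h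
  obtain ⟨s, hs⟩ : ∃ s : (α × ℕ) × ℕ → Prop, s = fun c =>
    ∀ i ∈ List.range c.1.2, ∃ k ∈ List.range c.2, t ((c.1.1, i), k) := ⟨_, rfl⟩
  have h1 : Ar n s := hs ▸ Ar.ball
    (p := fun d : ((α × ℕ) × ℕ) × ℕ => ∃ k ∈ List.range d.1.2, t ((d.1.1.1, d.2), k))
    (Ar.bex (p := fun d : (((α × ℕ) × ℕ) × ℕ) × ℕ => t ((d.1.1.1.1, d.1.2), d.2)) (ht.comp
      (((Primrec.fst.comp (Primrec.fst.comp (Primrec.fst.comp .fst))).pair
        (Primrec.snd.comp .fst)).pair .snd)) (Primrec.list_range.comp (Primrec.snd.comp .fst)))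
    (Primrec.list_range.comp (Primrec.snd.comp .fst))
  have h2 : ∀ a j, (∀ i < j, ¬ q (a, i)) ↔ ∃ N, s ((a, j), N) := fun a j => by
    rw [hs, ← hier_coll (List.range j) fun i k => t ((a, i), k)]
    simp [e]
  have u1 : Primrec fun c : α × ℕ => (c.1, c.2.unpair.1) :=
    Primrec.fst.pair (Primrec.fst.comp (Primrec.unpair.comp .snd))
  have u2 : Primrec fun c : α × ℕ => c.2.unpair.2 := Primrec.snd.comp (Primrec.unpair.comp .snd)
  refine ⟨fun c => q (c.1, c.2.unpair.1) ∧ s ((c.1, c.2.unpair.1), c.2.unpair.2) ∧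
    ∀ N ∈ List.range c.2.unpair.2, ¬ s ((c.1, c.2.unpair.1), N), (h.comp u1).and
      (((h1.mono n.le_succ).comp (u1.pair u2)).and
        (Ar.ball (p := fun d : (α × ℕ) × ℕ => ¬ s ((d.1.1, d.1.2.unpair.1), d.2))
          (h1.not.comp ((u1.comp .fst).pair .snd)) (Primrec.list_range.comp u2))),
    fun a => ⟨fun g => ?_, fun ⟨_, g⟩ => ⟨_, g.1⟩⟩, fun a j j' g g' => ?_⟩
  · classical
    have g2 := (h2 a (Nat.find g)).1 fun i => Nat.find_min g
    refine ⟨Nat.pair (Nat.find g) (Nat.find g2), ?_⟩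
    simp only [Nat.unpair_pair, List.mem_range]
    exact ⟨Nat.find_spec g, Nat.find_spec g2, fun N => Nat.find_min g2⟩
  · simp only [List.mem_range] at g g'
    have e1 : j.unpair.1 = j'.unpair.1 := le_antisymm
      (not_lt.1 fun k => (h2 _ _).2 ⟨_, g.2.1⟩ _ k g'.1)
      (not_lt.1 fun k => (h2 _ _).2 ⟨_, g'.2.1⟩ _ k g.1)
    rw [e1] at g
    have e2 : j.unpair.2 = j'.unpair.2 := le_antisymm
      (not_lt.1 fun k => g.2.2 _ k g'.2.1) (not_lt.1 fun k => g'.2.2 _ k g.2.1)
    rw [← Nat.pair_unpair j, e1, e2, Nat.pair_unpair]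

theorem ar_not_dom : Ar 1 fun a : Code × ℕ => ¬ (a.1.eval a.2).Dom := by
  refine ⟨fun c => (Code.evaln c.2 c.1.1 c.1.2).isSome = true,
    Primrec.eq.comp (Primrec.option_isSome.comp (Code.primrec_evaln.comp
      ((Primrec.snd.pair (Primrec.fst.comp .fst)).pair (Primrec.snd.comp .fst)))) (.const true),
    fun a => ?_⟩
  simp only [Part.dom_iff_mem, Code.evaln_complete, Option.isSome_iff_exists, Option.mem_def,
    not_exists]
  exact forall_comm

theorem ar_of_computable {p : α → Prop} (h : ComputablePred p) : Ar 1 p := by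
  obtain ⟨c, hc⟩ := Code.exists_code.1 h.not.to_re
  refine (ar_not_dom.comp ((Primrec.const c).pair Primrec.encode)).of_eq fun a => ?_
  simp [hc, Part.assert]

end Pool.Agent.Lib.MP_aad418_lc
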