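import Mathlib

/-! Derived sets in the Cantor space. Strings are read backwards: the head is the last letter. -/

namespace Pool.Agent.Lib.MP_aad418_lc

open Set PiNat

/-- The Cantor space. -/
abbrev X : Type := ℕ → Bool

/-- The derived set, `n` times. -/
def D (n : ℕ) (A : Set X) : Set X := derivedSet^[n] A

/-- The points above a string. -/
def cyl (s : List Bool) : Set X := {x | res x s.length = s}

/-- Both successors of the string meet `A`. -/
def br (A : Set X) (s : List Bool) : Prop :=
  (A ∩ cyl (false :: s)).Nonempty ∧ (A ∩ cyl (true :: s)).Nonempty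

/-- The string `s` followed by `y`. -/
def app (s : List Bool) (y : X) : X := fun i =>
  if i < s.length then s.reverse.getD i false else y (i - s.length)

theorem D_zero (A : Set X) : D 0 A = A := rfl

theorem D_succ (n : ℕ) (A : Set X) : D (n + 1) A = derivedSet (D n A) :=
  Function.iterate_succ_apply' _ _ _

theorem D_succ' (n : ℕ) (A : Set X) : D (n + 1) A = D n (derivedSet A) := rfl

theorem top_res_reverse (x : X) (k : ℕ) : (res x k).reverse = (List.range k).map x := by
  induction k with
  | zero => rfl
  | succ k ih => rw [res_succ, List.reverse_cons, ih, List.range_succ, List.map_append]; rfl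

theorem res_getD (x : X) {k c : ℕ} (h : c < k) : (res x k).reverse.getD c false = x c := by
  rw [top_res_reverse, List.getD_eq_getElem?_getD]
  simp [h]

theorem res_drop (x : X) (k l : ℕ) : (res x k).drop l = res x (k - l) := by
  induction l generalizing k with
  | zero => simp
  | succ l ih =>
    cases k with
    | zero => simp
    | succ k =>
      rw [res_succ, List.drop_succ_cons, ih, Nat.succ_sub_succ]

theorem res_reverse (x : X) (k : ℕ) : (res x k).reverse = (List.range k).map x := by
  exact top_res_reverse x k

theorem res_lc (k : ℕ) : IsLocallyConstant fun x : X => res x k := by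
  refine (IsLocallyConstant.iff_exists_open _).2 fun x => ?_
  refine ⟨cylinder x k, isOpen_cylinder _ x k, self_mem_cylinder x k, fun y hy => ?_⟩
  rw [cylinder_eq_res] at hy
  exact hy

theorem self_mem_cyl (x : X) (k : ℕ) : x ∈ cyl (res x k) := by
  simp [cyl]

theorem cyl_append (t s : List Bool) : cyl (t ++ s) ⊆ cyl s := by
  intro x hx
  have h1 : res x (t ++ s).length = t ++ s := hx
  have h2 := res_drop x (t ++ s).length t.length
  rw [h1] at h2
  have h3 : (t ++ s).length - t.length = s.length := by simp
  rw [h3] at h2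
  show res x s.length = s
  rw [← h2]
  simp

theorem isClopen_cyl (s : List Bool) : IsClopen (cyl s) := by
  exact (res_lc s.length).isClopen_fiber s

theorem exists_cyl {U : Set X} (hU : IsOpen U) {x : X} (hx : x ∈ U) : ∃ k, cyl (res x k) ⊆ U := by
  obtain ⟨V, ⟨y, n, rfl⟩, hxV, hVU⟩ :=
    (isTopologicalBasis_cylinders (fun _ : ℕ => Bool)).exists_subset_of_mem_open hx hU
  refine ⟨n, fun z hz => hVU ?_⟩
  rw [cylinder_eq_res] at hxV ⊢
  have h1 : res z (res x n).length = res x n := hz
  rw [res_length] at h1
  exact h1.trans hxV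

theorem mem_derived {A : Set X} {x : X} :
    x ∈ derivedSet A ↔ ∀ k, ∃ y ∈ A, y ≠ x ∧ res y k = res x k := by
  rw [mem_derivedSet, accPt_iff_nhds]
  constructor
  · intro h k
    obtain ⟨y, ⟨hy1, hy2⟩, hy3⟩ :=
      h (cyl (res x k)) ((isClopen_cyl _).isOpen.mem_nhds (self_mem_cyl x k))
    refine ⟨y, hy2, hy3, ?_⟩
    have h1 : res y (res x k).length = res x k := hy1
    rwa [res_length] at h1
  · intro h U hU
    obtain ⟨V, hVU, hV, hxV⟩ := mem_nhds_iff.1 hU
    obtain ⟨k, hk⟩ := exists_cyl hV hxV
    obtain ⟨y, hy1, hy2, hy3⟩ := h k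
    refine ⟨y, ⟨hVU (hk ?_), hy1⟩, hy2⟩
    show res y (res x k).length = res x k
    rw [res_length]
    exact hy3

theorem D_mono (n : ℕ) {A B : Set X} (h : A ⊆ B) : D n A ⊆ D n B := by
  induction n with
  | zero => exact h
  | succ n ih =>
    rw [D_succ, D_succ]
    exact derivedSet_mono _ _ ih

theorem D_empty (n : ℕ) : D n ∅ = ∅ := by
  induction n with
  | zero => rfl
  | succ n ih =>
    rw [D_succ, ih]
    exact subset_empty_iff.1 ((isClosed_iff_derivedSet_subset _).1 isClosed_empty)

theorem D_closed (n : ℕ) {A : Set X} (h : IsClosed A) : IsClosed (D n A) := by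
  cases n with
  | zero => exact h
  | succ n =>
    rw [D_succ]
    exact isClosed_derivedSet _

theorem D_anti {n m : ℕ} (hm : n ≤ m) {A : Set X} (h : IsClosed A) : D m A ⊆ D n A := by
  induction hm with
  | refl => exact Subset.rfl
  | step _ ih =>
    rw [D_succ]
    exact ((isClosed_iff_derivedSet_subset _).1 (D_closed _ h)).trans ih

theorem top_derived_inter (A : Set X) {V : Set X} (hV : IsClopen V) :
    derivedSet (A ∩ V) = derivedSet A ∩ V := by
  refine Subset.antisymm (subset_inter (derivedSet_mono _ _ inter_subset_left) ?_) ?_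
  · exact (derivedSet_mono _ _ inter_subset_right).trans
      ((isClosed_iff_derivedSet_subset _).1 hV.isClosed)
  · rintro x ⟨hx, hxV⟩
    rw [inter_comm]
    exact AccPt.nhds_inter hx (hV.isOpen.mem_nhds hxV)

theorem D_inter (n : ℕ) (A : Set X) {V : Set X} (hV : IsClopen V) : D n (A ∩ V) = D n A ∩ V := by
  induction n with
  | zero => rfl
  | succ n ih =>
    rw [D_succ, D_succ, ih, top_derived_inter _ hV]

theorem top_derived_image (A : Set X) {h : X → X} (hc : Continuous h)
    (hi : Function.Injective h) : derivedSet (h '' A) = h '' derivedSet A := by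
  refine Subset.antisymm ?_ (hc.image_derivedSet hi)
  have he : Topology.IsClosedEmbedding h := hc.isClosedEmbedding hi
  intro y hy
  have hr : y ∈ range h :=
    (isClosed_iff_derivedSet_subset _).1 he.isClosed_range
      (derivedSet_mono _ _ (image_subset_range _ _) hy)
  obtain ⟨x, rfl⟩ := hr
  refine ⟨x, ?_, rfl⟩
  rw [mem_derivedSet, accPt_iff_nhds] at hy ⊢
  intro U hU
  rw [he.isInducing.nhds_eq_comap] at hU
  obtain ⟨V, hV, hVU⟩ := hU
  obtain ⟨z, ⟨hz1, a, ha, rfl⟩, hz2⟩ := hy V hV
  exact ⟨a, ⟨hVU hz1, ha⟩, fun e => hz2 (by rw [e])⟩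

theorem D_image (n : ℕ) (A : Set X) {h : X → X} (hc : Continuous h) (hi : Function.Injective h) :
    D n (h '' A) = h '' D n A := by
  induction n with
  | zero => rfl
  | succ n ih =>
    rw [D_succ, D_succ, ih, top_derived_image _ hc hi]

theorem subset_D (n : ℕ) {A B : Set X} (h : A ⊆ derivedSet A) (hB : A ⊆ B) : A ⊆ D n B := by
  induction n with
  | zero => exact hB
  | succ n ih =>
    rw [D_succ]
    exact h.trans (derivedSet_mono _ _ ih)

theorem open_subset_derived {U : Set X} (hU : IsOpen U) : U ⊆ derivedSet U := by
  intro x hx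
  obtain ⟨k, hk⟩ := exists_cyl hU hx
  refine mem_derived.2 fun l => ?_
  have key : ∀ j, j ≤ k + l → res (Function.update x (k + l) (!x (k + l))) j = res x j := by
    intro j hj
    refine res_eq_res.2 fun m hm => ?_
    exact Function.update_of_ne (by omega) _ _
  refine ⟨Function.update x (k + l) (!x (k + l)), hk ?_, ?_, key l (by omega)⟩
  · show res _ (res x k).length = res x k
    rw [res_length]
    exact key k (by omega)
  · intro h
    have h1 := congrFun h (k + l)
    simp at h1

theorem derived_eq_empty {A : Set X} : derivedSet A = ∅ ↔ A.Finite := by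
  constructor
  · intro h
    by_contra hA
    obtain ⟨x, hx⟩ := Set.Infinite.exists_accPt_principal hA
    have h1 : x ∈ derivedSet A := hx
    rw [h] at h1
    exact h1
  · intro h
    refine eq_empty_of_forall_notMem fun x hx => ?_
    exact Set.Infinite.of_accPt hx h

theorem br_of_mem {A : Set X} {x : X} (hx : x ∈ derivedSet A) (k : ℕ) :
    ∃ t, br A (t ++ res x k) := by
  obtain ⟨y, hyA, hyx, hy⟩ := mem_derived.1 hx k
  have hk : k ≤ firstDiff y x := by
    refine (mem_cylinder_iff_le_firstDiff hyx k).1 ?_
    rw [cylinder_eq_res]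
    exact hy
  have hne := apply_firstDiff_ne hyx
  have hym : res y (firstDiff y x) = res x (firstDiff y x) :=
    res_eq_res.2 fun m hm => apply_eq_of_lt_firstDiff hm
  generalize firstDiff y x = m at hk hne hym
  obtain ⟨z, hzA, -, hz⟩ := mem_derived.1 hx (m + 1)
  have h1 : y ∈ cyl (y m :: res x m) := by
    have h0 := self_mem_cyl y (m + 1)
    rwa [res_succ, hym] at h0
  have h2 : z ∈ cyl (x m :: res x m) := by
    have h0 := self_mem_cyl z (m + 1)
    rwa [hz, res_succ] at h0
  refine ⟨(res x m).take (m - k), ?_⟩
  have h3 : (res x m).take (m - k) ++ res x k = res x m := by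
    have h4 := res_drop x m (m - k)
    have h5 : m - (m - k) = k := by omega
    rw [h5] at h4
    rw [← h4, List.take_append_drop]
  rw [h3]
  cases hxm : x m with
  | false =>
    have hy' : y m = true := by
      rw [hxm] at hne
      simpa using hne
    rw [hxm] at h2
    rw [hy'] at h1
    exact ⟨⟨z, hzA, h2⟩, ⟨y, hyA, h1⟩⟩
  | true =>
    have hy' : y m = false := by
      rw [hxm] at hne
      simpa using hne
    rw [hxm] at h2
    rw [hy'] at h1
    exact ⟨⟨y, hyA, h1⟩, ⟨z, hzA, h2⟩⟩

theorem derived_cyl {A : Set X} (s : List Bool) :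
    (derivedSet A ∩ cyl s).Nonempty ↔ ∀ k, ∃ t : List Bool, k ≤ t.length ∧ br A (t ++ s) := by
  constructor
  · rintro ⟨x, hx, hs⟩ k
    obtain ⟨t, ht⟩ := br_of_mem hx (k + s.length)
    have h1 : res x s.length = s := hs
    have h2 := res_drop x (k + s.length) k
    rw [Nat.add_sub_cancel_left, h1] at h2
    refine ⟨t ++ (res x (k + s.length)).take k, by simp, ?_⟩
    have h3 : (res x (k + s.length)).take k ++ s = res x (k + s.length) := by
      conv_rhs => rw [← List.take_append_drop k (res x (k + s.length)), h2]
    rw [List.append_assoc, h3]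
    exact ht
  · intro h
    by_contra hne
    rw [not_nonempty_iff_eq_empty, ← top_derived_inter _ (isClopen_cyl s), derived_eq_empty] at hne
    obtain ⟨N, hN⟩ := ((hne.prod hne).image fun p : X × X => firstDiff p.1 p.2).bddAbove
    obtain ⟨t, ht, ⟨y, hyA, hy⟩, ⟨z, hzA, hz⟩⟩ := h (N + 1)
    have hys : y ∈ cyl s := cyl_append (false :: t) s hy
    have hzs : z ∈ cyl s := cyl_append (true :: t) s hz
    have hle : firstDiff y z ≤ N :=
      hN ⟨(y, z), ⟨⟨hyA, hys⟩, ⟨hzA, hzs⟩⟩, rfl⟩
    have hy1 : res y ((t ++ s).length + 1) = false :: (t ++ s) := hy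
    have hz1 : res z ((t ++ s).length + 1) = true :: (t ++ s) := hz
    rw [res_succ, List.cons.injEq] at hy1 hz1
    have hyz : y ≠ z := by
      intro e
      have h1 := hy1.1
      rw [e, hz1.1] at h1
      exact Bool.noConfusion h1
    have hge : (t ++ s).length ≤ firstDiff y z := by
      refine (mem_cylinder_iff_le_firstDiff hyz _).1 ?_
      rw [cylinder_eq_res]
      exact hy1.2.trans hz1.2.symm
    rw [List.length_append] at hge
    omega

theorem app_cont (s : List Bool) : Continuous (app s) := by
  refine continuous_pi fun i => ?_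
  unfold app
  split_ifs
  · exact continuous_const
  · exact continuous_apply _

theorem app_inj (s : List Bool) : Function.Injective (app s) := by
  intro y z h
  funext i
  have h1 := congrFun h (i + s.length)
  simpa [app] using h1

theorem top_res_app (s : List Bool) (y : X) : res (app s y) s.length = s := by
  apply List.reverse_injective
  rw [res_reverse]
  refine List.ext_getElem (by simp) fun i h1 h2 => ?_
  have h3 : i < s.length := by simpa using h2
  rw [List.getElem_map, List.getElem_range]
  unfold app
  rw [if_pos h3, List.getD_eq_getElem _ _ h2]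

theorem range_app (s : List Bool) : range (app s) = cyl s := by
  ext x
  constructor
  · rintro ⟨y, rfl⟩
    exact top_res_app s y
  · intro hx
    have h1 : res x s.length = s := hx
    refine ⟨fun i => x (i + s.length), funext fun i => ?_⟩
    unfold app
    split_ifs with hi
    · have h2 := res_getD x hi
      rwa [h1] at h2
    · show x (i - s.length + s.length) = x i
      rw [Nat.sub_add_cancel (not_lt.1 hi)]

theorem res_app (s : List Bool) (y : X) (l : ℕ) : res (app s y) (l + s.length) = res y l ++ s := by
  induction l with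
  | zero => simpa using top_res_app s y
  | succ l ih =>
    have h1 : l + 1 + s.length = (l + s.length) + 1 := by omega
    rw [h1, res_succ, res_succ, ih]
    simp [app]

end Pool.Agent.Lib.MP_aad418_lc
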