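import Pool.Agent.Lib.MP_aad418_lc.Defs
import Pool.Agent.Lib.MP_aad418_lc.Hier
import Pool.Agent.Lib.MP_aad418_lc.Top

/-! Families of closed sets given by `Π_m` conditions on strings. -/

namespace Pool.Agent.Lib.MP_aad418_lc

open Set PiNat

variable {α : Type} [Primcodable α]

/-- A family of closed sets given by a `Π_m` condition on the restrictions of the points. -/
def Cl (m : ℕ) (C : α → Set X) : Prop :=
  ∃ q : α × List Bool → Prop, Ar m q ∧ ∀ a x, x ∈ C a ↔ ∀ k, q (a, res x k)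

theorem Cl.isClosed {m : ℕ} {C : α → Set X} (h : Cl m C) (a : α) : IsClosed (C a) := by
  obtain ⟨q, -, hq⟩ := h
  have e : C a = ⋂ k, ((fun x : X => res x k) ⁻¹' {s | ¬ q (a, s)})ᶜ := by
    ext x
    simp [hq]
  rw [e]
  exact isClosed_iInter fun k => (res_lc k _).isClosed_compl

/-- Normal form: a primitive recursive family of trees. -/
theorem Cl.nf {C : α → Set X} (h : Cl 1 C) : ∃ B : α × List Bool → Prop, PrimrecPred B ∧
    (∀ a t s, B (a, t ++ s) → B (a, s)) ∧ ∀ a x, x ∈ C a ↔ ∀ k, B (a, res x k) := by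
  obtain ⟨q, ⟨t, ht, hq⟩, hC⟩ := h
  have ht' : PrimrecPred t := ht
  have h1 : Ar 0 fun p : ((α × List Bool) × ℕ) × ℕ =>
      ¬ t ((p.1.1.1, p.1.1.2.drop p.1.2), p.2) :=
    Ar.prim (ht'.comp (f := fun p : ((α × List Bool) × ℕ) × ℕ =>
      ((p.1.1.1, p.1.1.2.drop p.1.2), p.2))
      (((Primrec.fst.comp (Primrec.fst.comp Primrec.fst)).pair
        (Primrec.list_drop.comp (Primrec.snd.comp Primrec.fst)
          (Primrec.snd.comp (Primrec.fst.comp Primrec.fst)))).pair Primrec.snd)).not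
  have hl : Primrec fun p : α × List Bool => List.range (p.2.length + 1) :=
    Primrec.list_range.comp (Primrec.succ.comp (Primrec.list_length.comp Primrec.snd))
  have h2 := (h1.ball (hl.comp Primrec.fst)).ball hl
  refine ⟨_, h2, fun a u s hB i hi j hj => ?_, fun a x => ?_⟩
  · simp only [List.mem_range, List.length_append] at hB hi hj
    have := hB (u.length + i) (by omega) j (by omega)
    rwa [List.drop_length_add_append] at this
  · simp only [hC, hq, List.mem_range, res_length, res_drop]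
    refine ⟨fun hx k i _ j _ => hx _ _, fun hx k j => ?_⟩
    have := hx (k + j) j (by omega) j (by omega)
    rwa [Nat.add_sub_cancel] at this

theorem Cl.isPi01 {C : α → Set X} (h : Cl 1 C) (a : α) : IsPi01 (C a) := by
  obtain ⟨B, hB, hm, hC⟩ := h.nf
  refine ⟨{s | B (a, s.reverse)}, (hB.comp (f := fun s : List Bool => (a, s.reverse))
    ((Primrec.const a).pair Primrec.list_reverse)).computablePred, fun s t hs => ?_, ?_⟩
  · simp only [mem_ofPred_eq, List.reverse_append] at hs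
    exact hm _ _ _ hs
  · ext x
    simp only [hC, mem_ofPred_eq, ← res_reverse, List.reverse_reverse]

theorem IsPi01.cl {P : Set X} (h : IsPi01 P) : Cl 1 fun _ : α => P := by
  obtain ⟨T, hT, -, rfl⟩ := h
  refine ⟨fun p => p.2.reverse ∈ T,
    (ar_of_computable hT).comp (Primrec.list_reverse.comp Primrec.snd), fun a x => ?_⟩
  simp only [mem_ofPred_eq, res_reverse]

theorem IsPi01.isClosed {P : Set X} (h : IsPi01 P) : IsClosed P :=
  (h.cl (α := ℕ)).isClosed 0

theorem IsPi01.inter {P Q : Set X} (hP : IsPi01 P) (hQ : IsPi01 Q) : IsPi01 (P ∩ Q) := by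
  obtain ⟨p, hp, ep⟩ := hP.cl (α := ℕ)
  obtain ⟨q, hq, eq⟩ := hQ.cl (α := ℕ)
  refine Cl.isPi01 (C := fun _ : ℕ => P ∩ Q) ⟨_, hp.and hq, fun a x => ?_⟩ 0
  rw [mem_inter_iff, ep a x, eq a x, forall_and]

theorem IsPi01.union {P Q : Set X} (hP : IsPi01 P) (hQ : IsPi01 Q) : IsPi01 (P ∪ Q) := by
  obtain ⟨p, hp, mp, ep⟩ := (hP.cl (α := ℕ)).nf
  obtain ⟨q, hq, mq, eq⟩ := (hQ.cl (α := ℕ)).nf
  refine Cl.isPi01 (C := fun _ : ℕ => P ∪ Q) ⟨_, Ar.prim (hp.or hq), fun a x => ?_⟩ 0
  rw [mem_union, ep a x, eq a x]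
  refine ⟨fun h k => h.imp (fun h => h k) fun h => h k, fun h => ?_⟩
  by_contra! c
  obtain ⟨⟨k, hk⟩, l, hl⟩ := c
  rcases h (k + l) with h | h
  · rw [← List.take_append_drop l (res x (k + l)), res_drop, Nat.add_sub_cancel] at h
    exact hk (mp _ _ _ h)
  · rw [← List.take_append_drop k (res x (k + l)), res_drop, Nat.add_sub_cancel_left] at h
    exact hl (mq _ _ _ h)

theorem clA_cyl (s : List Bool) : IsPi01 (cyl s) := by
  have hl : Primrec fun p : ℕ × List Bool => p.2.length := Primrec.list_length.comp Primrec.snd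
  have h1 : PrimrecPred fun p : ℕ × List Bool => s.length ≤ p.2.length :=
    Primrec.nat_le.comp (Primrec.const _) hl
  have h2 : PrimrecPred fun p : ℕ × List Bool => p.2.drop (p.2.length - s.length) = s :=
    Primrec.eq.comp (Primrec.list_drop.comp (Primrec.nat_sub.comp hl (Primrec.const _))
      Primrec.snd) (Primrec.const _)
  refine Cl.isPi01 (C := fun _ : ℕ => cyl s) ⟨_, Ar.imp h1 (Ar.prim h2), fun a x => ?_⟩ 0
  simp only [cyl, mem_ofPred_eq, res_length, res_drop]
  refine ⟨fun h k hk => ?_, fun h => ?_⟩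
  · rwa [Nat.sub_sub_self hk]
  · simpa using h s.length le_rfl

theorem clA_empty : IsPi01 (∅ : Set X) := by
  have e : (∅ : Set X) = cyl [false] ∩ cyl [true] := by
    ext x
    simp only [cyl, mem_empty_iff_false, mem_inter_iff, mem_ofPred_eq, List.length_singleton,
      false_iff, not_and]
    intro h1 h2
    simpa using h1.symm.trans h2
  rw [e]
  exact (clA_cyl _).inter (clA_cyl _)

theorem isPi01_of_isClopen {U : Set X} (h : IsClopen U) : IsPi01 U := by
  have key : ∃ V, IsPi01 V ∧ U ⊆ V ∧ V ⊆ U := by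
    refine h.isClosed.isCompact.induction_on (p := fun S => ∃ V, IsPi01 V ∧ S ⊆ V ∧ V ⊆ U)
      ⟨∅, clA_empty, Subset.rfl, empty_subset _⟩ ?_ ?_ ?_
    · rintro s t hst ⟨V, h1, h2, h3⟩
      exact ⟨V, h1, hst.trans h2, h3⟩
    · rintro s t ⟨V, h1, h2, h3⟩ ⟨W, k1, k2, k3⟩
      exact ⟨V ∪ W, h1.union k1, union_subset_union h2 k2, union_subset h3 k3⟩
    · intro x hx
      obtain ⟨k, hk⟩ := exists_cyl h.isOpen hx
      exact ⟨cyl (res x k), mem_nhdsWithin_of_mem_nhds
        ((isClopen_cyl _).isOpen.mem_nhds (self_mem_cyl x k)), _, clA_cyl _, Subset.rfl, hk⟩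
  obtain ⟨V, h1, h2, h3⟩ := key
  rwa [Subset.antisymm h2 h3]

end Pool.Agent.Lib.MP_aad418_lc
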