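import Pool.Agent.Lib.MP_aad418_lc.Form

/-! Finite and cofinite sets of cardinalities are definable. -/

namespace Pool.Agent.Lib.MP_aad418_lc

open Set

theorem cnt_split (A : Set X) (j : ℕ) :
    (∃ V, IsClopen V ∧ ∃ W, IsClopen W ∧ V ∩ W = ∅ ∧ ¬ A ∩ V = ∅ ∧ (j : ℕ∞) ≤ (A ∩ W).encard) ↔
      ((j + 1 : ℕ) : ℕ∞) ≤ A.encard := by
  constructor
  · rintro ⟨V, -, W, -, e, h1, h2⟩
    obtain ⟨x, hx⟩ := nonempty_iff_ne_empty.2 h1
    have h3 : x ∉ A ∩ W := fun a => (e ▸ ⟨hx.2, a.2⟩ : x ∈ (∅ : Set X))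
    calc ((j + 1 : ℕ) : ℕ∞) = j + 1 := Nat.cast_succ j
      _ ≤ (A ∩ W).encard + 1 := by gcongr
      _ = (insert x (A ∩ W)).encard := (encard_insert_of_notMem h3).symm
      _ ≤ _ := encard_le_encard (insert_subset hx.1 inter_subset_left)
  · intro h
    obtain ⟨t, ht, e⟩ := exists_subset_encard_eq h
    rw [Nat.cast_succ] at e
    obtain ⟨x, t', hx, rfl, e'⟩ := encard_eq_add_one_iff.1 e
    have h1 : t'.Finite := finite_of_encard_eq_coe e'
    obtain ⟨k, hk⟩ := exists_cyl h1.isClosed.isOpen_compl (show x ∈ t'ᶜ from hx)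
    have hc := isClopen_cyl (PiNat.res x k)
    refine ⟨_, hc, _, hc.compl, inter_compl_self _, nonempty_iff_ne_empty.1
      ⟨x, ht (mem_insert _ _), self_mem_cyl x k⟩, ?_⟩
    rw [← e']
    exact encard_le_encard fun y hy => ⟨ht (mem_insert_of_mem _ hy), fun a => hk a hy⟩

theorem cnt_ge (n j : ℕ) :
    ∀ {ι : Type} (i : ι), FD fun v : ι → EPi => (j : ℕ∞) ≤ (D n (v i).1).encard := by
  induction j with
  | zero => exact fun i => (fd_le i i).of_eq fun v => by simp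
  | succ j ih =>
    intro ι i
    have h := @fd_meet (fun A => D n A = ∅) (fd_rank n)
    have h' := @fd_meet (fun A => (j : ℕ∞) ≤ (D n A).encard) ih
    refine (fd_exc (r := fun v V => ∃ W, IsClopen W ∧ V ∩ W = ∅ ∧ ¬ D n ((v i).1 ∩ V) = ∅ ∧
      (j : ℕ∞) ≤ (D n ((v i).1 ∩ W)).encard)
      (fd_exc ((fd_disj _ _).and ((h _ _).not.and (h' _ _))))).of_eq fun v => ?_
    rw [← cnt_split]
    refine exists_congr fun V => and_congr_right fun hV => exists_congr fun W =>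
      and_congr_right fun hW => ?_
    rw [D_inter n _ hV, D_inter n _ hW]

theorem cnt_eq (n k : ℕ) {ι : Type} (i : ι) :
    FD fun v : ι → EPi => (D n (v i).1).encard = (k : ℕ) :=
  ((cnt_ge n k i).and (cnt_ge n (k + 1) i).not).of_eq fun v => by
    rw [Nat.cast_succ, ENat.add_one_le_iff (ENat.natCast_ne_top k), not_lt]
    exact ⟨fun h => le_antisymm h.2 h.1, fun h => ⟨h.ge, h.le⟩⟩

theorem cnt_fin (n : ℕ) {S : Set ℕ} (h : S.Finite) {ι : Type} (i : ι) :
    FD fun v : ι → EPi => ∃ k ∈ S, (D n (v i).1).encard = (k : ℕ) := by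
  induction S, h using Set.Finite.induction_on with
  | empty => exact (fd_le i i).not.of_eq fun v => by simp
  | @insert a _ _ _ ih => exact ((cnt_eq n a i).or ih).of_eq fun v => by simp

theorem df_card (n : ℕ) (S : Set ℕ) (h : S.Finite ∨ Sᶜ.Finite) :
    Df fun P => ∃ k ∈ S, (D n P).encard = (k : ℕ) := by
  have key : FD fun v : Fin 1 → EPi => ∃ k ∈ S, (D n (v 0).1).encard = (k : ℕ) := by
    rcases h with h | h
    · exact cnt_fin n h 0
    · refine ((fd_rank (n + 1) 0).and (cnt_fin n h 0).not).of_eq fun v => ?_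
      rw [D_succ, derived_eq_empty]
      constructor
      · rintro ⟨h1, h2⟩
        obtain ⟨k, hk⟩ := h1.exists_encard_eq_coe
        exact ⟨k, by_contra fun a => h2 ⟨k, a, hk⟩, hk⟩
      · rintro ⟨k, hk, e⟩
        refine ⟨finite_of_encard_eq_coe e, fun ⟨l, hl, e'⟩ => hl ?_⟩
        rwa [← Nat.cast_inj.1 (e.symm.trans e')]
  obtain ⟨φ, h⟩ := key
  exact ⟨φ, fun P => h ![P]⟩

end Pool.Agent.Lib.MP_aad418_lc
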