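import Mathlib

/-! Effectively closed subsets of the Cantor space. -/

namespace Pool.Agent.Lib.MP_aad418_lc

/-- `P` is the set of infinite paths through a computable binary tree. -/
def IsPi01 (P : Set (ℕ → Bool)) : Prop :=
  ∃ T : Set (List Bool), ComputablePred (fun s => s ∈ T) ∧ (∀ s t, s ++ t ∈ T → s ∈ T) ∧
    P = {x | ∀ n, (List.range n).map x ∈ T}

/-- The classes, ordered by inclusion. -/
abbrev EPi : Type := {P : Set (ℕ → Bool) // IsPi01 P}

end Pool.Agent.Lib.MP_aad418_lc
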