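import Pool.Agent.Lib.MP_aad418_lc.FQa

/-! Classes with finitely many subclasses modulo an ideal: the lattice part. -/

set_option autoImplicit false

namespace Pool.Agent.Lib.MP_aad418_lc.FQ

open Set Topology Pool.Agent.Lib.MP_6cbb02_lc

/-- An ideal of nowhere dense classes. -/
structure Idl (J : Set EPi) : Prop where
  un : ∀ P ∈ J, ∀ Q ∈ J, ∀ R : EPi, R.1 ⊆ P.1 ∪ Q.1 → R ∈ J
  emp_mem : emp ∈ J
  nd : ∀ P ∈ J, interior P.1 = ∅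

/-- Inclusion modulo the ideal. -/
def SJ (J : Set EPi) (A B : Set (ℕ → Bool)) : Prop := ∃ F ∈ J, A ⊆ F.1 ∪ B

/-- Finitely many subclasses modulo the ideal. -/
def FJ (J : Set EPi) (P : EPi) : Prop :=
  ∃ S : Set EPi, S.Finite ∧ ∀ Q : EPi, Q ≤ P → ∃ R ∈ S, SJ J Q.1 R.1 ∧ SJ J R.1 Q.1

/-- The points near which `A` is not covered by a member of the ideal. -/
def ZJ (J : Set EPi) (A : Set (ℕ → Bool)) : Set (ℕ → Bool) := ⋂ Q : J, closure (A \ Q.1.1)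

variable {J : Set EPi} {A B C : Set (ℕ → Bool)}

namespace Idl

theorem sub (hJ : Idl J) (h : A ⊆ B) : SJ J A B :=
  ⟨emp, hJ.emp_mem, h.trans subset_union_right⟩

theorem trans (hJ : Idl J) (h : SJ J A B) (h' : SJ J B C) : SJ J A C := by
  obtain ⟨F, h1, h2⟩ := h
  obtain ⟨G, h3, h4⟩ := h'
  exact ⟨F.union G, hJ.un F h1 G h3 _ subset_rfl, fun x hx => (h2 hx).elim (fun e => .inl (.inl e))
    fun e => (h4 e).imp_left .inr⟩

theorem union (hJ : Idl J) (h : SJ J A C) (h' : SJ J B C) : SJ J (A ∪ B) C := by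
  obtain ⟨F, h1, h2⟩ := h
  obtain ⟨G, h3, h4⟩ := h'
  exact ⟨F.union G, hJ.un F h1 G h3 _ subset_rfl, fun x hx =>
    hx.elim (fun e => (h2 e).imp_left .inl) fun e => (h4 e).imp_left .inr⟩

theorem inter (hJ : Idl J) (h : SJ J A B) (h' : SJ J A C) : SJ J A (B ∩ C) := by
  obtain ⟨F, h1, h2⟩ := h
  obtain ⟨G, h3, h4⟩ := h'
  exact ⟨F.union G, hJ.un F h1 G h3 _ subset_rfl, fun x hx => (h2 hx).elim (fun e => .inl (.inl e))
    fun e => (h4 hx).imp .inr fun e' => ⟨e, e'⟩⟩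

theorem of_mem (hJ : Idl J) {P : EPi} (h : P ∈ J) : FJ J P :=
  ⟨{emp}, finite_singleton _, fun _ hQ => ⟨emp, rfl, ⟨P, h, subset_union_of_subset_left hQ _⟩,
    hJ.sub (empty_subset _)⟩⟩

theorem fj_sub (hJ : Idl J) {a c : EPi} (h : FJ J a) (hc : SJ J c.1 a.1) : FJ J c := by
  obtain ⟨S, h1, h2⟩ := h
  refine ⟨S, h1, fun Q hQ => ?_⟩
  obtain ⟨R, e1, e2, e3⟩ := h2 (Q.inter a) inter_subset_right
  exact ⟨R, e1, hJ.trans (hJ.inter (hJ.sub subset_rfl) (hJ.trans (hJ.sub hQ) hc)) e2,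
    hJ.trans e3 (hJ.sub inter_subset_left)⟩

theorem fj_union (hJ : Idl J) {a b : EPi} (h : FJ J a) (h' : FJ J b) : FJ J (a.union b) := by
  obtain ⟨S, h1, h2⟩ := h
  obtain ⟨T, h3, h4⟩ := h'
  refine ⟨image2 EPi.union S T, h1.image2 _ h3, fun Q hQ => ?_⟩
  obtain ⟨R, e1, e2, e3⟩ := h2 (Q.inter a) inter_subset_right
  obtain ⟨R', f1, f2, f3⟩ := h4 (Q.inter b) inter_subset_right
  refine ⟨_, mem_image2_of_mem e1 f1, hJ.trans (hJ.sub (B := Q.1 ∩ a.1 ∪ Q.1 ∩ b.1) fun x hx =>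
    (hQ hx).imp (fun e => ⟨hx, e⟩) fun e => ⟨hx, e⟩)
      (hJ.union (hJ.trans e2 (hJ.sub subset_union_left)) (hJ.trans f2 (hJ.sub subset_union_right))),
    hJ.union (hJ.trans e3 (hJ.sub inter_subset_left)) (hJ.trans f3 (hJ.sub inter_subset_left))⟩

theorem fj_cover (hJ : Idl J) {a c : EPi} (h : FJ J a) (hac : a ≤ c)
    (hc : ∀ y : EPi, a ≤ y → y ≤ c → SJ J y.1 a.1 ∨ SJ J c.1 y.1) : FJ J c := by
  obtain ⟨S, h1, h2⟩ := h
  let T : EPi → EPi → Prop := fun y r =>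
    y ≤ c ∧ SJ J c.1 (a.1 ∪ y.1) ∧ SJ J (y.1 ∩ a.1) r.1 ∧ SJ J r.1 (y.1 ∩ a.1)
  have hT : ∀ y y' r, T y r → T y' r → SJ J y.1 y'.1 := fun y y' r e e' =>
    hJ.trans (hJ.trans (hJ.inter (hJ.sub subset_rfl) (hJ.trans (hJ.sub e.1) e'.2.1))
      (hJ.sub (B := y.1 ∩ a.1 ∪ y'.1) fun x hx => hx.2.imp_left fun f => ⟨hx.1, f⟩))
      (hJ.union (hJ.trans (hJ.trans e.2.2.1 e'.2.2.2) (hJ.sub inter_subset_left))
        (hJ.sub subset_rfl))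
  have hg : ∀ r, ∃ y, (∃ y', T y' r) → T y r := fun r => by
    by_cases e : ∃ y', T y' r
    · exact ⟨e.choose, fun _ => e.choose_spec⟩
    · exact ⟨c, fun e' => absurd e' e⟩
  choose g hg using hg
  refine ⟨S ∪ g '' S, h1.union (h1.image g), fun y hy => ?_⟩
  obtain ⟨r, e1, e2, e3⟩ := h2 (y.inter a) inter_subset_right
  rcases hc (a.union y) subset_union_left (union_subset hac hy) with e | e
  · exact ⟨r, .inl e1, hJ.trans (hJ.inter (hJ.sub subset_rfl)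
      (hJ.trans (hJ.sub subset_union_right) e)) e2, hJ.trans e3 (hJ.sub inter_subset_left)⟩
  · have t : T y r := ⟨hy, e, e2, e3⟩
    exact ⟨g r, .inr (mem_image_of_mem g e1), hT _ _ r t (hg r ⟨y, t⟩), hT _ _ r (hg r ⟨y, t⟩) t⟩

theorem exists_cover (hJ : Idl J) {P : EPi} (h : FJ J P) (a : EPi) (ha : a ≤ P)
    (hn : ¬ SJ J P.1 a.1) : ∃ c : EPi, c ≤ P ∧ a ≤ c ∧ ¬ SJ J c.1 a.1 ∧
      ∀ y : EPi, a ≤ y → y ≤ c → SJ J y.1 a.1 ∨ SJ J c.1 y.1 := by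
  obtain ⟨S, h1, h2⟩ := h
  obtain ⟨c, ⟨c1, c2, c3⟩, hc⟩ := exists_min {c | c ≤ P ∧ a ≤ c ∧ ¬ SJ J c.1 a.1}
    ⟨P, le_rfl, ha, hn⟩ fun c => {r ∈ S | SJ J r.1 c.1}.ncard
  refine ⟨c, c1, c2, c3, fun y y1 y2 => ?_⟩
  by_contra e
  obtain ⟨e1, e2⟩ := not_or.1 e
  obtain ⟨r, f1, f2, f3⟩ := h2 c c1
  refine hc y ⟨y2.trans c1, y1, e1⟩ (ncard_lt_ncard ⟨fun s hs =>
    ⟨hs.1, hJ.trans hs.2 (hJ.sub y2)⟩, fun hs => ?_⟩ (h1.subset (sep_subset _ _)))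
  exact e2 (hJ.trans f2 (hs ⟨f1, f3⟩).2)

theorem exists_top (hJ : Idl J) {P : EPi} (h : FJ J P) {K : Set (ℕ → Bool)} (hK : K ⊆ P.1) :
    ∃ Q : EPi, Q.1 ⊆ K ∧ ∀ R : EPi, R.1 ⊆ K → SJ J R.1 Q.1 := by
  obtain ⟨S, h1, h2⟩ := h
  obtain ⟨c, c1, hc⟩ := exists_min {c | c.1 ⊆ K} ⟨emp, empty_subset _⟩
    fun c => {r ∈ S | ¬ SJ J r.1 c.1}.ncard
  refine ⟨c, c1, fun y hy => ?_⟩
  by_contra e
  obtain ⟨r, f1, f2, f3⟩ := h2 y (hy.trans hK)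
  refine hc (c.union y) (union_subset c1 hy) (ncard_lt_ncard ⟨fun s hs =>
    ⟨hs.1, fun f => hs.2 (hJ.trans f (hJ.sub subset_union_left))⟩, fun hs => ?_⟩
      (h1.subset (sep_subset _ _)))
  exact (hs ⟨f1, fun f => e (hJ.trans f2 f)⟩).2 (hJ.trans f3 (hJ.sub subset_union_right))

theorem z_closed : IsClosed (ZJ J A) := isClosed_iInter fun _ => isClosed_closure

theorem z_mono (hJ : Idl J) (h : SJ J A B) : ZJ J A ⊆ ZJ J B := by
  obtain ⟨F, h1, h2⟩ := h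
  refine fun x hx => mem_iInter.2 fun Q => closure_mono (fun y hy => ?_)
    (mem_iInter.1 hx ⟨F.union Q.1, hJ.un F h1 Q.1 Q.2 _ subset_rfl⟩)
  exact ⟨(h2 hy.1).resolve_left fun e => hy.2 (.inl e), fun e => hy.2 (.inr e)⟩

theorem z_sub (hJ : Idl J) (h : IsClosed A) : ZJ J A ⊆ A := fun _ hx =>
  closure_minimal sdiff_subset h (mem_iInter.1 hx ⟨emp, hJ.emp_mem⟩)

theorem z_disj (hJ : Idl J) (h : IsClosed B) :
    Disjoint B (ZJ J A) ↔ ∃ Q : EPi, Q ∈ J ∧ Disjoint B (closure (A \ Q.1)) := by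
  refine ⟨fun e => ?_, fun ⟨Q, h1, h2⟩ => h2.mono_right (iInter_subset _ (⟨Q, h1⟩ : J))⟩
  have : Nonempty J := ⟨⟨emp, hJ.emp_mem⟩⟩
  obtain ⟨Q, hQ⟩ := h.isCompact.elim_directed_family_closed (fun Q : J => closure (A \ Q.1.1))
    (fun _ => isClosed_closure) (disjoint_iff_inter_eq_empty.1 e) fun Q R =>
      ⟨⟨Q.1.union R.1, hJ.un _ Q.2 _ R.2 _ subset_rfl⟩,
        closure_mono (sdiff_subset_sdiff_right subset_union_left),
        closure_mono (sdiff_subset_sdiff_right subset_union_right)⟩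
  exact ⟨Q.1, Q.2, disjoint_iff_inter_eq_empty.2 hQ⟩

theorem z_fin (hJ : Idl J) {P : EPi} (h : FJ J P) : (ZJ J P.1).Finite := by
  obtain ⟨S, h1, h2⟩ := h
  refine Finite.of_finite_image (f := fun x => {R ∈ S | x ∈ ZJ J R.1})
    (h1.finite_subsets.subset ?_) fun x hx y _ e => ?_
  · rintro _ ⟨x, -, rfl⟩
    exact sep_subset _ _
  by_contra hc
  obtain ⟨U, e0, e1, e2⟩ := exists_nhd (isOpen_compl_singleton (x := y)) hc
  obtain ⟨R, f1, f2, f3⟩ := h2 (U.inter P) inter_subset_right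
  have a2 : R ∈ {R ∈ S | y ∈ ZJ J R.1} := by
    have e' : {R ∈ S | x ∈ ZJ J R.1} = {R ∈ S | y ∈ ZJ J R.1} := e
    rw [← e']
    exact ⟨f1, hJ.z_mono f2 (mem_iInter.2 fun Q => closure_mono
      (show U.1 ∩ (P.1 \ Q.1.1) ⊆ (U.inter P).1 \ Q.1.1 from fun z hz => ⟨⟨hz.1, hz.2.1⟩, hz.2.2⟩)
      (e0.2.inter_closure ⟨e1, mem_iInter.1 hx Q⟩))⟩
  exact e2 (hJ.z_sub (U.inter P).2.isClosed (hJ.z_mono f3 a2.2)).1 rfl

theorem fj_nd (hJ : Idl J) {P : EPi} (h : FJ J P) : interior P.1 = ∅ := by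
  have h1 : interior P.1 ⊆ ZJ J P.1 := fun x hx => mem_iInter.2 fun Q =>
    closure_mono (show interior P.1 ∩ Q.1.1ᶜ ⊆ P.1 \ Q.1.1 from
      fun z hz => ⟨interior_subset hz.1, hz.2⟩) (isOpen_interior.inter_closure
      ⟨hx, interior_eq_empty_iff_dense_compl.1 (hJ.nd _ Q.2) x⟩)
  refine subset_empty_iff.1 ((interior_maximal h1 isOpen_interior).trans ?_)
  rw [← derived_fin (hJ.z_fin h), ← D_one z_closed]
  exact interior_subset_D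

theorem next (hJ : Idl J) : Idl {P | FJ J P} :=
  ⟨fun _ h _ h' _ e => hJ.fj_sub (hJ.fj_union h h') (hJ.sub e),
    hJ.of_mem hJ.emp_mem, fun _ h => hJ.fj_nd h⟩

end Idl

theorem sj_iff (P Q : EPi) :
    SJ J P.1 Q.1 ↔ ∃ F : EPi, F ∈ J ∧ ∀ S : EPi, F ≤ S → Q ≤ S → P ≤ S :=
  exists_congr fun F => and_congr_right fun _ => ⟨fun h _ e1 e2 => h.trans (union_subset e1 e2),
    fun h => h (F.union Q) subset_union_left subset_union_right⟩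

theorem dfn_mem (hd : IsDefinable J) {α : Type} (i : α) : Dfn fun v : α → EPi => v i ∈ J :=
  (isDefinable_iff.1 hd).reindex fun _ => i

theorem dfn_sj (hd : IsDefinable J) {α : Type} (i j : α) :
    Dfn fun v : α → EPi => SJ J (v i).1 (v j).1 :=
  (Dfn.ex (p := fun v F => F ∈ J ∧ ∀ S : EPi, F ≤ S → v j ≤ S → v i ≤ S)
    ((dfn_mem hd _).and (Dfn.all ((Dfn.le _ _).imp ((Dfn.le _ _).imp (Dfn.le _ _)))))).of_iff
      fun _ => (sj_iff _ _).symm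

theorem dfn_covJ (hd : IsDefinable J) : Dfn fun v : Unit → EPi => ∀ a : EPi, a ≤ v () →
    ¬ SJ J (v ()).1 a.1 → ∃ c : EPi, c ≤ v () ∧ a ≤ c ∧ ¬ SJ J c.1 a.1 ∧
      ∀ y : EPi, a ≤ y → y ≤ c → SJ J y.1 a.1 ∨ SJ J c.1 y.1 :=
  Dfn.all ((Dfn.le _ _).imp ((dfn_sj hd _ _).not.imp (Dfn.ex ((Dfn.le _ _).and ((Dfn.le _ _).and
    ((dfn_sj hd _ _).not.and (Dfn.all ((Dfn.le _ _).imp ((Dfn.le _ _).imp
      ((dfn_sj hd _ _).or (dfn_sj hd _ _)))))))))))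

theorem dfn_topJ (hd : IsDefinable J) (m : ℕ) : Dfn fun v : Unit → EPi => ∀ u : Par m → EPi,
    Fam m u ⊆ (v ()).1 → ∃ Q : EPi, Q.1 ⊆ Fam m u ∧ ∀ R : EPi, R.1 ⊆ Fam m u → SJ J R.1 Q.1 :=
  Dfn.allFin (β := Par m) (p := fun v u => Fam m u ⊆ (v ()).1 →
    ∃ Q : EPi, Q.1 ⊆ Fam m u ∧ ∀ R : EPi, R.1 ⊆ Fam m u → SJ J R.1 Q.1)
    ((((DSet.fam m).reindex Sum.inr).subset (DSet.var _)).imp (Dfn.ex
      (((DSet.var none).subset ((DSet.fam m).reindex fun a => some (Sum.inr a))).and (Dfn.all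
        (((DSet.var none).subset ((DSet.fam m).reindex fun a => some (some (Sum.inr a)))).imp
          (dfn_sj hd _ _))))))

theorem dset_z (hJ : Idl J) (hd : IsDefinable J) : DSet fun v : Unit → EPi => ZJ J (v ()).1 :=
  ⟨fun _ => Idl.z_closed, (Dfn.ex (p := fun (w : Option Unit → EPi) Q =>
    Q ∈ J ∧ Disjoint (w none).1 (closure ((w (some ())).1 \ Q.1))) ((dfn_mem hd _).and
      (((DSet.var (some (some ()))).closure_diff none).disj id (some none)))).of_iff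
        fun w => (hJ.z_disj (w none).2.isClosed).symm⟩

end Pool.Agent.Lib.MP_aad418_lc.FQ
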