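import Pool.Agent.Lib.MP_aad418_lc.FQa
import Pool.Agent.Lib.MP_6cbb02_lc.NonDef

/-! Classes with finitely many subclasses modulo finite sets: the arithmetical part. -/

set_option autoImplicit false

namespace Pool.Agent.Lib.MP_aad418_lc.FQ

open Set Topology Encodable FirstOrder Pool.Agent.Lib.MP_6cbb02_lc Nat.Partrec.Code
open Nat.Partrec (Code)

theorem lim_fin : ∃ m, Lim m fun c : Code => (cls c).1.Finite := by
  let := Language.orderStructure EPi
  obtain ⟨φ, hφ⟩ := (isDefinable_iff (F := {P | P.1.Finite})).2 (dfn_fin ())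
  obtain ⟨m, hm⟩ := lim_realize φ (β := Code) (fun c => c) Fin.elim0 (by fun_prop) fun i => i.elim0
  refine ⟨m, hm.of_iff fun c => ?_⟩
  change _ ↔ cls c ∈ {P : EPi | P.1.Finite}
  rw [hφ]
  exact iff_of_eq (congrArg _ (Subsingleton.elim _ _))

theorem lim_sb : ∃ m, 4 ≤ m ∧ Lim m fun z : Code × Code => Sb (cls z.1).1 (cls z.2).1 := by
  obtain ⟨m, hm⟩ := lim_fin
  have h1 := lim_le.mono (le_max_right m 4)
  refine ⟨max m 4 + 1 + 1, by omega, (Lim.ex (p := fun (z : Code × Code) (f : Code) =>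
    (cls f).1.Finite ∧ ∀ s : Code, cls f ≤ cls s → cls z.2 ≤ cls s → cls z.1 ≤ cls s)
    (((hm.mono (by omega)).comp (by fun_prop)).and (Lim.all
      ((h1.comp (f := fun y : ((Code × Code) × Code) × Code => (y.1.2, y.2)) (by fun_prop)).imp
      ((h1.comp (f := fun y : ((Code × Code) × Code) × Code => (y.1.1.2, y.2)) (by fun_prop)).imp
      (h1.comp (f := fun y : ((Code × Code) × Code) × Code => (y.1.1.1, y.2))
        (by fun_prop))))))).of_iff fun z => ?_⟩
  rw [sb_iff, cls_surjective.exists]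
  simp only [cls_surjective.forall (p := fun S => _ ≤ S → _)]

theorem lim_finQ : ∃ m, 6 ≤ m ∧ Lim m fun c : Code => FinQ (cls c) := by
  obtain ⟨m, h4, hm⟩ := lim_sb
  have h1 := lim_le.mono h4
  refine ⟨m + 1 + 1, by omega, (Lim.ex (p := fun (c : Code) (l : List Code) =>
    ∀ e : Code, cls e ≤ cls c → ∃ r ∈ l, Sb (cls e).1 (cls r).1 ∧ Sb (cls r).1 (cls e).1)
    (Lim.all ((h1.comp (f := fun y : (Code × List Code) × Code => (y.2, y.1.1))
      (by fun_prop)).imp (Lim.bex_mem (by fun_prop)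
      ((hm.comp (f := fun y : ((Code × List Code) × Code) × Code => (y.1.2, y.2))
        (by fun_prop)).and
      (hm.comp (f := fun y : ((Code × List Code) × Code) × Code => (y.2, y.1.2))
        (by fun_prop))))))).of_iff fun c => ⟨?_, ?_⟩⟩
  · rintro ⟨l, hl⟩
    refine ⟨cls '' {r | r ∈ l}, (List.finite_toSet l).image _, fun Q hQ => ?_⟩
    obtain ⟨e, rfl⟩ := cls_surjective Q
    obtain ⟨r, h2, h3⟩ := hl e hQ
    exact ⟨_, mem_image_of_mem _ h2, h3⟩
  · rintro ⟨S, h2, h3⟩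
    choose g hg using cls_surjective
    refine ⟨h2.toFinset.toList.map g, fun e he => ?_⟩
    obtain ⟨R, e1, e2⟩ := h3 _ he
    exact ⟨g R, List.mem_map_of_mem (by simpa using e1), by rwa [hg]⟩

theorem lim_hit : Lim 3 fun z : Code × List Bool => Hit (cls z.1).1 z.2 :=
  Lim.hit (A := fun (c : Code) σ => ∀ S, evaln S c (encode σ) = none) (Lim.all lim_evaln)

/-- A cylinder that meets the class `e` and misses `Z` and the earlier classes in `J`. -/
def Cand (Z : Set (ℕ → Bool)) (J : Code → Prop) (e : Code) (τ : List Bool) : Prop :=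
  ¬ Hit Z τ ∧ (∀ c, encode c < encode e → J c → ¬ Hit (cls c).1 τ) ∧ Hit (cls e).1 τ

/-- The least such cylinder. -/
def Lst (Z : Set (ℕ → Bool)) (J : Code → Prop) (e : Code) (τ : List Bool) : Prop :=
  Cand Z J e τ ∧ ∀ ρ, encode ρ < encode τ → ¬ Cand Z J e ρ

theorem lim_bad {M : ℕ} {Z : Set (ℕ → Bool)} {J : Code → Prop} (h3 : 3 ≤ M) (hZ : Lim M (Hit Z))
    (hJ : Lim M J) : Lim (M + 3) fun τ => ∃ e, Lst Z J e τ := by
  have h1 := lim_hit.mono h3
  have h2 : Lim (M + 1) fun z : Code × List Bool => Cand Z J z.1 z.2 :=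
    (hZ.succ.comp (by fun_prop)).not.and ((Lim.all (p := fun (z : Code × List Bool) (c : Code) =>
      encode c < encode z.1 → J c → ¬ Hit (cls c).1 z.2)
      ((Lim.lt (by fun_prop) (by fun_prop)).imp ((hJ.comp (by fun_prop)).imp
        (h1.comp (f := fun y : (Code × List Bool) × Code => (y.2, y.1.2))
          (by fun_prop)).not))).and h1.succ)
  exact Lim.ex (p := fun (τ : List Bool) (e : Code) => Lst Z J e τ)
    ((h2.succ.comp (f := fun y : List Bool × Code => (y.2, y.1)) (by fun_prop)).and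
      (Lim.all (p := fun (y : List Bool × Code) (ρ : List Bool) =>
        encode ρ < encode y.1 → ¬ Cand Z J y.2 ρ) ((Lim.lt (by fun_prop) (by fun_prop)).imp
          (h2.comp (f := fun y : (List Bool × Code) × List Bool => (y.1.2, y.2))
            (by fun_prop)).not)))

theorem Lst.unique {Z : Set (ℕ → Bool)} {J : Code → Prop} {e : Code} {τ ρ : List Bool}
    (h : Lst Z J e τ) (h' : Lst Z J e ρ) : τ = ρ := by
  rcases lt_trichotomy (encode τ) (encode ρ) with a | a | a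
  · exact absurd h.1 (h'.2 τ a)
  · exact encode_injective a
  · exact absurd h'.1 (h.2 ρ a)

theorem Cand.lst {Z : Set (ℕ → Bool)} {J : Code → Prop} {e : Code} {τ : List Bool}
    (h : Cand Z J e τ) : ∃ ρ, Lst Z J e ρ := by
  obtain ⟨ρ, h1, h2⟩ := (InvImage.wf (encode : List Bool → ℕ) Nat.lt_wfRel.wf).has_min
    {ρ | Cand Z J e ρ} ⟨τ, h⟩
  exact ⟨ρ, h1, fun σ a b => h2 σ b a⟩

theorem closed_cyl (τ : List Bool) : IsClosed {y : ℕ → Bool | restrict y τ.length = τ} := by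
  have : {y : ℕ → Bool | restrict y τ.length = τ} = {y | ∀ i < τ.length, y i = ext τ i} := by
    ext y
    rw [mem_ofPred_eq, mem_ofPred_eq, ← MP_6cbb02_lc.restrict_eq_iff, restrict_ext]
  rw [this]
  exact (isClopen_agree _ _).1

theorem sb_rest (P : EPi) (J : Code → Prop) {c : Code} (hc : J c) (hP : cls c ≤ P) :
    Sb (cls c).1 (P.1 ∩ paths fun τ => ¬ ∃ e, Lst (derivedSet P.1) J e τ) := by
  have h1 : {e : Code | encode e ≤ encode c}.Finite :=
    (finite_le_nat (encode c)).preimage encode_injective.injOn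
  refine (h1.biUnion (t := fun e => ⋃ τ ∈ {τ | Lst (derivedSet P.1) J e τ},
    {y | restrict y τ.length = τ} ∩ P.1) fun e _ => Finite.biUnion
      (Subsingleton.finite fun _ a _ b => Lst.unique a b) fun τ hτ =>
        fin_of_derived (closed_cyl τ) (disjoint_left.2 fun y a b => hτ.1.1 ⟨y, b, a⟩)).subset
    fun x hx => ?_
  have h2 : ¬ ∀ n, ¬ ∃ e, Lst (derivedSet P.1) J e (restrict x n) := fun a => hx.2 ⟨hP hx.1, a⟩
  push Not at h2
  obtain ⟨n, e, he⟩ := h2
  refine mem_biUnion (show encode e ≤ encode c from not_lt.1 fun a => ?_)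
    (mem_biUnion he ⟨by simp, hP hx.1⟩)
  exact he.1.2.1 c a hc ⟨x, hx.1, by simp⟩

theorem exists_above (P : EPi) (n : ℕ) : ∃ a : EPi, (a ≤ P ∧ FinQ a) ∧
    ∀ c : Code, encode c < n → cls c ≤ P ∧ FinQ (cls c) → cls c ≤ a := by
  induction n with
  | zero => exact ⟨emp, ⟨empty_subset _, finQ_emp⟩, fun _ h => absurd h (Nat.not_lt_zero _)⟩
  | succ n ih =>
    obtain ⟨a, h1, h2⟩ := ih
    by_cases h : ∃ c : Code, encode c = n ∧ cls c ≤ P ∧ FinQ (cls c)
    · obtain ⟨c, e1, e2, e3⟩ := h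
      refine ⟨a.union (cls c), ⟨union_subset h1.1 e2, h1.2.union e3⟩, fun d f1 f2 => ?_⟩
      rcases Nat.lt_succ_iff_lt_or_eq.1 f1 with f | f
      · exact fun _ hx => .inl (h2 d f f2 hx)
      · rw [encode_injective (f.trans e1.symm)]
        exact subset_union_right
    · refine ⟨a, h1, fun d f1 f2 => ?_⟩
      rcases Nat.lt_succ_iff_lt_or_eq.1 f1 with f | f
      · exact h2 d f f2
      · exact absurd ⟨d, f, f2⟩ h

theorem no_top (P : EPi) (hD : (derivedSet P.1).Finite)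
    (h : ∀ a : EPi, a ≤ P → FinQ a → ∃ b : EPi, b ≤ P ∧ FinQ b ∧ ¬ Sb b.1 a.1) (Q : EPi)
    (hQ : Q.1 ⊆ P.1 ∩ paths fun τ =>
      ¬ ∃ e, Lst (derivedSet P.1) (fun c => cls c ≤ P ∧ FinQ (cls c)) e τ) :
    ∃ R : EPi, R.1 ⊆ (P.1 ∩ paths fun τ =>
      ¬ ∃ e, Lst (derivedSet P.1) (fun c => cls c ≤ P ∧ FinQ (cls c)) e τ) ∧ ¬ Sb R.1 Q.1 := by
  obtain ⟨e, rfl⟩ := cls_surjective Q
  obtain ⟨a, a1, a2⟩ := exists_above P (encode e)
  obtain ⟨b, b1, b2, b3⟩ := h a a1.1 a1.2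
  obtain ⟨c, rfl⟩ := cls_surjective b
  obtain ⟨F, R, r1, r2, r3⟩ := Sb.split (cls c) (P.2.isClosed.inter (isClosed_paths _))
    (sb_rest P (fun c => cls c ≤ P ∧ FinQ (cls c)) ⟨b1, b2⟩ b1)
  refine ⟨R, r2, fun hR => ?_⟩
  have h1 : Sb (cls c).1 (cls e).1 :=
    (Sb.of_subset r3).trans (Sb.union (r1.subset sdiff_subset) hR)
  obtain ⟨x, x1, x2⟩ := (Infinite.sdiff b3 (Finite.union h1 hD)).nonempty
  have x3 : x ∈ (cls e).1 := by_contra fun f => x2 (.inl ⟨x1.1, f⟩)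
  obtain ⟨n, hn⟩ := mem_nhds_cantor.1
    ((a.2.isClosed.union (isClosed_derivedSet P.1)).isOpen_compl.mem_nhds
      (show x ∉ a.1 ∪ derivedSet P.1 from fun f => f.elim x1.2 fun g => x2 (.inr g)))
  have key : ∀ Z, Z ⊆ a.1 ∪ derivedSet P.1 → ¬ Hit Z (restrict x n) := by
    rintro Z hZ ⟨y, y1, y2⟩
    rw [length_restrict] at y2
    exact hn y (MP_6cbb02_lc.restrict_eq_iff.1 y2) (hZ y1)
  obtain ⟨ρ, hρ⟩ := Cand.lst (Z := derivedSet P.1) (J := fun c => cls c ≤ P ∧ FinQ (cls c))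
    (e := e) (τ := restrict x n) ⟨key _ subset_union_right,
      fun d d1 d2 => key _ fun _ hy => .inl (a2 d d1 d2 hy), x, x3, by simp⟩
  obtain ⟨y, y1, y2⟩ := hρ.1.2.2
  exact (hQ y1).2 ρ.length ⟨e, y2.symm ▸ hρ⟩

theorem finQ_definable : IsDefinable {P | FinQ P} := by
  obtain ⟨m, h6, hm⟩ := lim_finQ
  rw [isDefinable_iff]
  refine (dfn_dfin.and (dfn_cov.and (dfn_top (m + 3)))).of_iff fun v =>
    ⟨fun ⟨h1, h2, h3⟩ => ?_, fun h => ⟨FinQ.derived h, FinQ.exists_cover h,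
      fun u hu => FinQ.exists_top h hu⟩⟩
  generalize v () = P at h1 h2 h3 ⊢
  by_contra hc
  have hi : interior P.1 = ∅ := subset_empty_iff.1 (by
    rw [← derived_fin h1, ← D_two P.2.isClosed]
    exact interior_subset_D)
  obtain ⟨p, hp⟩ := cls_surjective P
  have hJ : Lim m fun c => cls c ≤ P ∧ FinQ (cls c) :=
    (((lim_le.mono (by omega)).comp (f := fun c : Code => (c, p)) (by fun_prop)).of_iff
      fun c => by rw [← hp]).and hm
  have hZ : Lim m (Hit (derivedSet P.1)) := (isPi01_iff.1 P.2).derivedSet.hit.mono (by omega)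
  obtain ⟨u, hu⟩ := exists_fam (m + 3) (((isPi01_iff.1 P.2).mono (Nat.zero_le _)).inter
    ⟨_, (lim_bad (by omega) hZ hJ).not, rfl⟩) P.2 hi inter_subset_left
  obtain ⟨Q, q1, q2⟩ := h3 u (hu ▸ inter_subset_left)
  rw [hu] at q1 q2
  obtain ⟨R, r1, r2⟩ := no_top P h1 (fun a a1 a2 => by
    obtain ⟨c, c1, c2, c3, c4⟩ := h2 a a1 fun f => hc (a2.of_sb f)
    exact ⟨c, c1, a2.cover c2 c4, c3⟩) Q q1
  exact r2 (q2 R r1)

end Pool.Agent.Lib.MP_aad418_lc.FQ
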