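import Pool.Agent.Lib.MP_aad418_lc.FJa
import Pool.Agent.Lib.MP_aad418_lc.FQb

/-! Classes with finitely many subclasses modulo an ideal: the arithmetical part. -/

set_option autoImplicit false

namespace Pool.Agent.Lib.MP_aad418_lc.FQ

open Set Topology Encodable FirstOrder Pool.Agent.Lib.MP_6cbb02_lc Nat.Partrec.Code
open Nat.Partrec (Code)

variable {J : Set EPi}

theorem lim_J (hd : IsDefinable J) : ∃ m, 4 ≤ m ∧ Lim m fun c : Code => cls c ∈ J := by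
  let := Language.orderStructure EPi
  obtain ⟨φ, hφ⟩ := hd
  obtain ⟨m, hm⟩ := lim_realize φ (β := Code) (fun c => c) Fin.elim0 (by fun_prop) fun i => i.elim0
  refine ⟨max m 4, le_max_right _ _, (hm.mono (le_max_left _ _)).of_iff fun c => ?_⟩
  rw [hφ]
  exact iff_of_eq (congrArg _ (Subsingleton.elim _ _))

theorem lim_sj (hd : IsDefinable J) :
    ∃ m, 4 ≤ m ∧ Lim m fun z : Code × Code => SJ J (cls z.1).1 (cls z.2).1 := by
  obtain ⟨m, h4, hm⟩ := lim_J hd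
  have h1 := lim_le.mono h4
  refine ⟨m + 1 + 1, by omega, (Lim.ex (p := fun (z : Code × Code) (f : Code) =>
    cls f ∈ J ∧ ∀ s : Code, cls f ≤ cls s → cls z.2 ≤ cls s → cls z.1 ≤ cls s)
    ((hm.succ.comp (by fun_prop)).and (Lim.all
      ((h1.comp (f := fun y : ((Code × Code) × Code) × Code => (y.1.2, y.2)) (by fun_prop)).imp
      ((h1.comp (f := fun y : ((Code × Code) × Code) × Code => (y.1.1.2, y.2)) (by fun_prop)).imp
      (h1.comp (f := fun y : ((Code × Code) × Code) × Code => (y.1.1.1, y.2))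
        (by fun_prop))))))).of_iff fun z => ?_⟩
  rw [sj_iff, cls_surjective.exists]
  simp only [cls_surjective.forall (p := fun S => _ ≤ S → _)]

theorem lim_fj (hd : IsDefinable J) : ∃ m, 6 ≤ m ∧ Lim m fun c : Code => FJ J (cls c) := by
  obtain ⟨m, h4, hm⟩ := lim_sj hd
  have h1 := lim_le.mono h4
  refine ⟨m + 1 + 1, by omega, (Lim.ex (p := fun (c : Code) (l : List Code) =>
    ∀ e : Code, cls e ≤ cls c → ∃ r ∈ l, SJ J (cls e).1 (cls r).1 ∧ SJ J (cls r).1 (cls e).1)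
    (Lim.all ((h1.comp (f := fun y : (Code × List Code) × Code => (y.2, y.1.1))
      (by fun_prop)).imp (Lim.bex_mem (by fun_prop)
      ((hm.comp (f := fun y : ((Code × List Code) × Code) × Code => (y.1.2, y.2))
        (by fun_prop)).and
      (hm.comp (f := fun y : ((Code × List Code) × Code) × Code => (y.2, y.1.2))
        (by fun_prop))))))).of_iff fun c => ⟨?_, ?_⟩⟩
  · rintro ⟨l, hl⟩
    refine ⟨cls '' {r | r ∈ l}, (List.finite_toSet l).image _, fun Q hQ => ?_⟩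
    obtain ⟨e, rfl⟩ := cls_surjective Q
    obtain ⟨r, h2, h3⟩ := hl e hQ
    exact ⟨_, mem_image_of_mem _ h2, h3⟩
  · rintro ⟨S, h2, h3⟩
    choose g hg using cls_surjective
    refine ⟨h2.toFinset.toList.map g, fun e he => ?_⟩
    obtain ⟨R, e1, e2⟩ := h3 _ he
    exact ⟨g R, List.mem_map_of_mem (by simpa using e1), by rwa [hg]⟩

theorem cl_z (hd : IsDefinable J) : ∃ m, ∀ P : EPi, Cl m (ZJ J P.1) := by
  obtain ⟨m, h4, hm⟩ := lim_J hd
  refine ⟨m + 1 + 1, fun P => ⟨fun σ => ∀ e : Code, cls e ∈ J →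
    ∃ τ : List Bool, τ.take σ.length = σ ∧ Hit P.1 τ ∧ ¬ Hit (cls e).1 τ, ?_, ?_⟩⟩
  · have h1 : Lim m (Hit P.1) := (isPi01_iff.1 P.2).hit.mono (by omega)
    have h2 := lim_hit.mono (show 3 ≤ m by omega)
    exact Lim.all (p := fun (σ : List Bool) (e : Code) => cls e ∈ J →
      ∃ τ : List Bool, τ.take σ.length = σ ∧ Hit P.1 τ ∧ ¬ Hit (cls e).1 τ)
      ((hm.succ.comp (by fun_prop)).imp (Lim.ex (p := fun (z : List Bool × Code) (τ : List Bool) =>
        τ.take z.1.length = z.1 ∧ Hit P.1 τ ∧ ¬ Hit (cls z.2).1 τ)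
        ((Lim.eq (by fun_prop) (by fun_prop)).and ((h1.comp (by fun_prop)).and
          (h2.comp (f := fun y : (List Bool × Code) × List Bool => (y.1.2, y.2))
            (by fun_prop)).not))))
  · ext x
    constructor
    · intro hx n e he
      obtain ⟨y, h1, h2⟩ := mem_closure_cantor.1 (mem_iInter.1 hx ⟨cls e, he⟩) n
      obtain ⟨k, hk⟩ := mem_nhds_cantor.1 ((cls e).2.isClosed.isOpen_compl.mem_nhds h1.2)
      refine ⟨restrict y (max n k), ?_, ⟨y, h1.1, by simp⟩, ?_⟩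
      · rw [length_restrict, take_restrict _ (le_max_left _ _), MP_6cbb02_lc.restrict_eq_iff.2 h2]
      · rintro ⟨z, z1, z2⟩
        rw [length_restrict] at z2
        exact hk z (fun i hi => MP_6cbb02_lc.restrict_eq_iff.1 z2 i (by omega)) z1
    · intro hx
      refine mem_iInter.2 fun Q => mem_closure_cantor.2 fun n => ?_
      obtain ⟨e, he⟩ := cls_surjective Q.1
      obtain ⟨τ, h1, ⟨y, y1, y2⟩, h3⟩ := hx n e (he ▸ Q.2)
      rw [length_restrict] at h1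
      have hn : n ≤ τ.length := by
        have := congrArg List.length h1
        simp at this
        omega
      rw [← y2, take_restrict _ hn] at h1
      exact ⟨y, ⟨y1, fun f => h3 ⟨y, he ▸ f, y2⟩⟩, MP_6cbb02_lc.restrict_eq_iff.1 h1⟩

theorem dfn_zfin (hJ : Idl J) (hd : IsDefinable J) : Dfn fun v : Unit → EPi =>
    interior (v ()).1 = ∅ ∧ (ZJ J (v ()).1).Finite := by
  obtain ⟨m, hm⟩ := cl_z hd
  refine (dfn_interior.and (((dset_z hJ hd).guard dfn_interior).derived (m + 4)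
    fun v R => ?_).eq_empty).of_iff fun v => and_congr_right fun h => ?_
  · by_cases h : interior (v ()).1 = ∅
    · refine exists_fam _ (P := (v ()).1) ?_ (v ()).2 h fun x hx => hJ.z_sub (v ()).2.isClosed
        ((isClosed_iff_derivedSet_subset _).1 Idl.z_closed
          (derivedSet_mono _ _ inter_subset_left hx.2))
      simpa [h] using ((isPi01_iff.1 R.2).mono (Nat.zero_le _)).inter (hm (v ())).derivedSet
    · refine exists_fam _ (P := ∅) ?_ (isPi01_iff.2 (Cl.empty 0)) interior_empty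
        (by simp [h, derived_fin])
      simpa [h, derived_fin] using Cl.empty _
  · simpa [h] using derived_empty_iff Idl.z_closed

theorem clopen_cyl (τ : List Bool) : IsClopen {y : ℕ → Bool | restrict y τ.length = τ} := by
  have : {y : ℕ → Bool | restrict y τ.length = τ} = {y | ∀ i < τ.length, y i = ext τ i} := by
    ext y
    rw [mem_ofPred_eq, mem_ofPred_eq, ← MP_6cbb02_lc.restrict_eq_iff, restrict_ext]
  rw [this]
  exact isClopen_agree _ _

theorem sj_rest (hJ : Idl J) (P : EPi) (I : Code → Prop) {c : Code} (hc : I c) (hP : cls c ≤ P) :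
    ∃ R : EPi, R.1 ⊆ (P.1 ∩ paths fun τ => ¬ ∃ e, Lst (ZJ J P.1) I e τ) ∧ SJ J (cls c).1 R.1 := by
  have h1 : {e : Code | encode e ≤ encode c}.Finite :=
    (finite_le_nat (encode c)).preimage encode_injective.injOn
  have hW : IsClopen (⋃ e ∈ {e : Code | encode e ≤ encode c}, ⋃ τ ∈ {τ | Lst (ZJ J P.1) I e τ},
      {y : ℕ → Bool | restrict y τ.length = τ}) :=
    h1.isClopen_biUnion fun e _ => Finite.isClopen_biUnion
      (Subsingleton.finite fun _ a _ b => Lst.unique a b) fun τ _ => clopen_cyl τ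
  obtain ⟨Q, q1, q2⟩ := (hJ.z_disj (A := P.1) hW.1).1 (disjoint_left.2 fun y a b => by
    simp only [mem_iUnion] at a
    obtain ⟨e, -, τ, a1, a2⟩ := a
    exact a1.1.1 ⟨y, b, a2⟩)
  refine ⟨(cls c).inter (.ofClopen hW.compl), fun x hx => ⟨hP hx.1, fun n ⟨e, he⟩ => hx.2 ?_⟩,
    Q, q1, fun x hx => ?_⟩
  · refine mem_biUnion (show encode e ≤ encode c from not_lt.1 fun a => ?_)
      (mem_biUnion he (by simp))
    exact he.1.2.1 c a hc ⟨x, hx.1, by simp⟩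
  · by_contra f
    obtain ⟨f1, f2⟩ := not_or.1 f
    exact f2 ⟨hx, fun g => disjoint_left.1 q2 g (subset_closure ⟨hP hx, f1⟩)⟩

theorem exists_aboveJ (hJ : Idl J) (P : EPi) (n : ℕ) : ∃ a : EPi, (a ≤ P ∧ FJ J a) ∧
    ∀ c : Code, encode c < n → cls c ≤ P ∧ FJ J (cls c) → cls c ≤ a := by
  induction n with
  | zero => exact ⟨emp, ⟨empty_subset _, hJ.of_mem hJ.emp_mem⟩,
      fun _ h => absurd h (Nat.not_lt_zero _)⟩
  | succ n ih =>
    obtain ⟨a, h1, h2⟩ := ih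
    by_cases h : ∃ c : Code, encode c = n ∧ cls c ≤ P ∧ FJ J (cls c)
    · obtain ⟨c, e1, e2, e3⟩ := h
      refine ⟨a.union (cls c), ⟨union_subset h1.1 e2, hJ.fj_union h1.2 e3⟩, fun d f1 f2 => ?_⟩
      rcases Nat.lt_succ_iff_lt_or_eq.1 f1 with f | f
      · exact fun _ hx => .inl (h2 d f f2 hx)
      · rw [encode_injective (f.trans e1.symm)]
        exact subset_union_right
    · refine ⟨a, h1, fun d f1 f2 => ?_⟩
      rcases Nat.lt_succ_iff_lt_or_eq.1 f1 with f | f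
      · exact h2 d f f2
      · exact absurd ⟨d, f, f2⟩ h

theorem no_topJ (hJ : Idl J) (hf : ∀ P : EPi, P.1.Finite → P ∈ J) (P : EPi)
    (hD : (ZJ J P.1).Finite)
    (h : ∀ a : EPi, a ≤ P → FJ J a → ∃ b : EPi, b ≤ P ∧ FJ J b ∧ ¬ SJ J b.1 a.1) (Q : EPi)
    (hQ : Q.1 ⊆ P.1 ∩ paths fun τ =>
      ¬ ∃ e, Lst (ZJ J P.1) (fun c => cls c ≤ P ∧ FJ J (cls c)) e τ) :
    ∃ R : EPi, R.1 ⊆ (P.1 ∩ paths fun τ =>
      ¬ ∃ e, Lst (ZJ J P.1) (fun c => cls c ≤ P ∧ FJ J (cls c)) e τ) ∧ ¬ SJ J R.1 Q.1 := by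
  obtain ⟨e, rfl⟩ := cls_surjective Q
  obtain ⟨a, a1, a2⟩ := exists_aboveJ hJ P (encode e)
  obtain ⟨b, b1, b2, b3⟩ := h a a1.1 a1.2
  obtain ⟨c, rfl⟩ := cls_surjective b
  obtain ⟨R, r2, r3⟩ := sj_rest hJ P (fun c => cls c ≤ P ∧ FJ J (cls c)) ⟨b1, b2⟩ b1
  refine ⟨R, r2, fun hR => ?_⟩
  have h1 : ¬ ((cls c).inter (cls e)).1 \ a.1 ⊆ ZJ J P.1 := fun f => by
    obtain ⟨F, G, g1, g2, g3⟩ := Sb.split ((cls c).inter (cls e)) a.2.isClosed (hD.subset f)
    exact b3 (hJ.trans (hJ.inter (hJ.sub subset_rfl) (hJ.trans r3 hR))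
      ⟨F, hf F g1, g3.trans (union_subset_union_right _ g2)⟩)
  obtain ⟨x, x1, x2⟩ := not_subset.1 h1
  obtain ⟨n, hn⟩ := mem_nhds_cantor.1
    ((a.2.isClosed.union (Idl.z_closed (J := J) (A := P.1))).isOpen_compl.mem_nhds
      (show x ∉ a.1 ∪ ZJ J P.1 from fun f => f.elim x1.2 x2))
  have key : ∀ Z, Z ⊆ a.1 ∪ ZJ J P.1 → ¬ Hit Z (restrict x n) := by
    rintro Z hZ ⟨y, y1, y2⟩
    rw [length_restrict] at y2
    exact hn y (MP_6cbb02_lc.restrict_eq_iff.1 y2) (hZ y1)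
  obtain ⟨ρ, hρ⟩ := Cand.lst (Z := ZJ J P.1) (J := fun c => cls c ≤ P ∧ FJ J (cls c))
    (e := e) (τ := restrict x n) ⟨key _ subset_union_right,
      fun d d1 d2 => key _ fun _ hy => .inl (a2 d d1 d2 hy), x, x1.1.2, by simp⟩
  obtain ⟨y, y1, y2⟩ := hρ.1.2.2
  exact (hQ y1).2 ρ.length ⟨e, y2.symm ▸ hρ⟩

theorem fj_definable (hJ : Idl J) (hf : ∀ P : EPi, P.1.Finite → P ∈ J) (hd : IsDefinable J) :
    IsDefinable {P | FJ J P} := by
  obtain ⟨m₁, h6, hm⟩ := lim_fj hd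
  obtain ⟨m₂, hz⟩ := cl_z hd
  rw [isDefinable_iff]
  refine ((dfn_zfin hJ hd).and ((dfn_covJ hd).and (dfn_topJ hd (m₁ + m₂ + 3)))).of_iff fun v =>
    ⟨fun ⟨⟨hi, h1⟩, h2, h3⟩ => ?_, fun h => ⟨⟨hJ.fj_nd h, hJ.z_fin h⟩, hJ.exists_cover h,
      fun u hu => hJ.exists_top h hu⟩⟩
  generalize v () = P at hi h1 h2 h3 ⊢
  by_contra hc
  obtain ⟨p, hp⟩ := cls_surjective P
  have hI : Lim (m₁ + m₂) fun c => cls c ≤ P ∧ FJ J (cls c) :=
    (((lim_le.mono (by omega)).comp (f := fun c : Code => (c, p)) (by fun_prop)).of_iff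
      fun c => by rw [← hp]).and (hm.mono (by omega))
  have hZ : Lim (m₁ + m₂) (Hit (ZJ J P.1)) := (hz P).hit.mono (by omega)
  obtain ⟨u, hu⟩ := exists_fam (m₁ + m₂ + 3) (((isPi01_iff.1 P.2).mono (Nat.zero_le _)).inter
    ⟨_, (lim_bad (by omega) hZ hI).not, rfl⟩) P.2 hi inter_subset_left
  obtain ⟨Q, q1, q2⟩ := h3 u (hu ▸ inter_subset_left)
  rw [hu] at q1 q2
  obtain ⟨R, r1, r2⟩ := no_topJ hJ hf P h1 (fun a a1 a2 => by
    obtain ⟨c, c1, c2, c3, c4⟩ := h2 a a1 fun f => hc (hJ.fj_sub a2 f)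
    exact ⟨c, c1, hJ.fj_cover a2 c2 c4, c3⟩) Q q1
  exact r2 (q2 R r1)

theorem sj_both (hJ : Idl J) (A B : Set (ℕ → Bool)) :
    (∃ F ∈ J, A ∪ F.1 = B ∪ F.1) ↔ SJ J A B ∧ SJ J B A := by
  constructor
  · rintro ⟨F, h1, h2⟩
    exact ⟨⟨F, h1, fun x hx => (h2.subset (.inl hx)).symm⟩,
      F, h1, fun x hx => (h2.superset (.inl hx)).symm⟩
  · rintro ⟨⟨F, h1, h2⟩, G, h3, h4⟩
    exact ⟨F.union G, hJ.un F h1 G h3 _ subset_rfl, Subset.antisymm
      (union_subset (fun x hx => ((h2 hx).imp_left .inl).symm) subset_union_right)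
      (union_subset (fun x hx => ((h4 hx).imp_left .inr).symm) subset_union_right)⟩

theorem fj_eq (hJ : Idl J) : {P : EPi | ∃ S : Set EPi, S.Finite ∧
    ∀ Q : EPi, Q.1 ⊆ P.1 → ∃ R ∈ S, ∃ F ∈ J, Q.1 ∪ F.1 = R.1 ∪ F.1} = {P | FJ J P} := by
  simp only [sj_both hJ]
  rfl

theorem fin_definable : IsDefinable {P : EPi | P.1.Finite} := isDefinable_iff.2 (dfn_fin ())

theorem idl_fin : Idl {P : EPi | P.1.Finite} :=
  ⟨fun _ h _ h' _ e => (Finite.union h h').subset e, finite_empty, fun P h =>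
    subset_empty_iff.1 (by
      rw [← derived_fin h, ← D_one P.2.isClosed]
      exact interior_subset_D)⟩

theorem symmDiff_iff (Q R : EPi) : (symmDiff Q.1 R.1).Finite ↔
    ∃ F ∈ {P : EPi | P.1.Finite}, Q.1 ∪ F.1 = R.1 ∪ F.1 := by
  have h : ∀ A B : EPi, Sb A.1 B.1 ↔ SJ {P : EPi | P.1.Finite} A.1 B.1 := fun A B => by
    rw [sb_iff, sj_iff]
    rfl
  rw [sj_both idl_fin, ← h, ← h, Set.symmDiff_def, finite_union]
  rfl

end Pool.Agent.Lib.MP_aad418_lc.FQ
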