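import Pool.Agent.Lib.MP_aad418_lc.FJb

/-! Classes with finitely many subclasses modulo an arbitrary definable ideal. -/

set_option autoImplicit false

namespace Pool.Agent.Lib.MP_aad418_lc.FQ

open Set Topology FirstOrder Pool.Agent.Lib.MP_6cbb02_lc

variable {J : Set EPi}

/-- The ideal generated by `J` and the finite classes. -/
def Pl (J : Set EPi) : Set EPi := {P | ∃ G : EPi, G.1.Finite ∧ SJ J P.1 G.1}

theorem Idl.pl (hJ : Idl J) : Idl (Pl J) := by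
  refine ⟨?_, ⟨emp, finite_empty, hJ.sub subset_rfl⟩, ?_⟩
  · rintro P ⟨G, h1, h2⟩ Q ⟨H, h3, h4⟩ R h
    exact ⟨G.union H, h1.union h3, hJ.trans (hJ.sub h)
      (hJ.union (hJ.trans h2 (hJ.sub subset_union_left)) (hJ.trans h4 (hJ.sub subset_union_right)))⟩
  · rintro P ⟨G, h1, F, h2, h3⟩
    refine subset_empty_iff.1 ((interior_mono h3).trans ?_)
    rw [interior_union_isClosed_of_interior_empty F.2.isClosed (idl_fin.nd G h1), hJ.nd F h2]

theorem sj_pl {A B : Set (ℕ → Bool)} (h : SJ J A B) : SJ (Pl J) A B := by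
  obtain ⟨F, h1, h2⟩ := h
  exact ⟨F, ⟨emp, finite_empty, F, h1, subset_union_left⟩, h2⟩

theorem Idl.of_pl (hJ : Idl J) {P : EPi} {A B : Set (ℕ → Bool)} (hA : A ⊆ P.1)
    (h : SJ (Pl J) A B) (hz : A ∩ ZJ J P.1 ⊆ B) : SJ J A B := by
  obtain ⟨E, ⟨G, h1, F, h2, h3⟩, h4⟩ := h
  obtain ⟨H, e1, e2⟩ := (hJ.z_disj (A := P.1) (B := G.1 \ ZJ J P.1)
    (h1.subset sdiff_subset).isClosed).1 disjoint_sdiff_left
  refine ⟨F.union H, hJ.un F h2 H e1 _ subset_rfl, fun x hx => ?_⟩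
  rcases h4 hx with a | a
  · rcases h3 a with b | b
    · exact .inl (.inl b)
    · by_cases c : x ∈ ZJ J P.1
      · exact .inr (hz ⟨hx, c⟩)
      · by_contra d
        exact disjoint_left.1 e2 ⟨b, c⟩ (subset_closure ⟨hA hx, fun f => d (.inl (.inr f))⟩)
  · exact .inr a

theorem Idl.fj_of_pl (hJ : Idl J) {P : EPi} (hz : (ZJ J P.1).Finite) (h : FJ (Pl J) P) :
    FJ J P := by
  obtain ⟨S, h1, h2⟩ := h
  let T : EPi → EPi × Set (ℕ → Bool) → Prop := fun y r =>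
    y ≤ P ∧ SJ (Pl J) y.1 r.1.1 ∧ SJ (Pl J) r.1.1 y.1 ∧ y.1 ∩ ZJ J P.1 = r.2
  have hT : ∀ y y' r, T y r → T y' r → SJ J y.1 y'.1 := fun y y' r e e' =>
    hJ.of_pl e.1 (hJ.pl.trans e.2.1 e'.2.2.1)
      ((e.2.2.2.trans e'.2.2.2.symm).subset.trans inter_subset_left)
  have hg : ∀ r, ∃ y, (∃ y', T y' r) → T y r := fun r => by
    by_cases e : ∃ y', T y' r
    · exact ⟨e.choose, fun _ => e.choose_spec⟩
    · exact ⟨P, fun e' => absurd e' e⟩
  choose g hg using hg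
  refine ⟨g '' S ×ˢ {t | t ⊆ ZJ J P.1}, (h1.prod hz.finite_subsets).image g, fun y hy => ?_⟩
  obtain ⟨r, e1, e2, e3⟩ := h2 y hy
  have t : T y (r, y.1 ∩ ZJ J P.1) := ⟨hy, e2, e3, rfl⟩
  exact ⟨g _, mem_image_of_mem g ⟨e1, inter_subset_right⟩, hT _ _ _ t (hg _ ⟨y, t⟩),
    hT _ _ _ (hg _ ⟨y, t⟩) t⟩

theorem fj_definable' (hJ : Idl J) (hd : IsDefinable J) : IsDefinable {P | FJ J P} := by
  have h1 : IsDefinable (Pl J) := isDefinable_iff.2 (Dfn.ex
    (p := fun (v : Unit → EPi) G => G.1.Finite ∧ SJ J (v ()).1 G.1)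
    ((dfn_fin _).and (dfn_sj hd _ _)))
  have h2 := isDefinable_iff.1
    (fj_definable hJ.pl (fun P h => ⟨P, h, hJ.sub subset_rfl⟩) h1)
  refine isDefinable_iff.2 (((dfn_zfin hJ hd).and h2).of_iff fun v =>
    ⟨fun h => hJ.fj_of_pl h.1.2 h.2, fun h => ⟨⟨hJ.fj_nd h, hJ.z_fin h⟩, ?_⟩⟩)
  obtain ⟨S, e1, e2⟩ := h
  refine ⟨S, e1, fun Q hQ => ?_⟩
  obtain ⟨R, f1, f2, f3⟩ := e2 Q hQ
  exact ⟨R, f1, sj_pl f2, sj_pl f3⟩

/-- Flipping one bit. -/
def fl (k : ℕ) (x : ℕ → Bool) : ℕ → Bool := fun i => if i = k then !x i else x i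

theorem fl_fl (k : ℕ) (x : ℕ → Bool) : fl k (fl k x) = x := by
  funext i
  by_cases h : i = k <;> simp [fl, h]

theorem isPi01_fl (k : ℕ) {P : Set (ℕ → Bool)} (h : IsPi01 P) : IsPi01 (fl k ⁻¹' P) := by
  obtain ⟨A, h1, rfl⟩ := isPi01_iff.1 h
  have h0 : Primrec fun z : List Bool × ℕ => z.1.getD z.2 false :=
    (Primrec.list_getD false).comp Primrec.fst Primrec.snd
  have h2 : Primrec fun σ : List Bool => restrict (fl k (ext σ)) σ.length :=
    Primrec.list_map (Primrec.list_range.comp Primrec.list_length)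
      (Primrec.ite (Primrec.eq.comp Primrec.snd (Primrec.const k)) (Primrec.not.comp h0) h0).to₂
  refine isPi01_iff.2 ⟨_, h1.comp (cp_iff.2 h2.to_comp), ?_⟩
  ext x
  refine forall_congr' fun n => iff_of_eq (congrArg A ?_)
  rw [length_restrict]
  refine MP_6cbb02_lc.restrict_eq_iff.2 fun i hi => ?_
  simp only [fl, ext_restrict hi]

/-- The automorphism of the lattice induced by flipping one bit. -/
def flIso (k : ℕ) : EPi ≃o EPi where
  toFun P := ⟨fl k ⁻¹' P.1, isPi01_fl k P.2⟩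
  invFun P := ⟨fl k ⁻¹' P.1, isPi01_fl k P.2⟩
  left_inv P := Subtype.ext (by ext x; simp [fl_fl])
  right_inv P := Subtype.ext (by ext x; simp [fl_fl])
  map_rel_iff' := ⟨fun h x hx => by
    have := h (a := fl k x) (show fl k (fl k x) ∈ _ by rwa [fl_fl])
    simpa [fl_fl] using this, fun h => preimage_mono h⟩

theorem mem_map (hd : IsDefinable J) (Φ : EPi ≃o EPi) {P : EPi} (h : P ∈ J) : Φ P ∈ J := by
  let := Language.orderStructure EPi
  have : Language.order.OrderedStructure EPi := ⟨fun _ => Iff.rfl⟩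
  obtain ⟨φ, rfl⟩ := hd
  exact (Language.StrongHomClass.realize_formula Φ φ (v := fun _ => P)).2 h

theorem all_mem (hd : IsDefinable J)
    (hun : ∀ P ∈ J, ∀ Q ∈ J, ∀ R : EPi, R.1 ⊆ P.1 ∪ Q.1 → R ∈ J) {P : EPi} (hP : P ∈ J)
    (hi : interior P.1 ≠ ∅) (R : EPi) : R ∈ J := by
  have key : ∀ n x, EPi.ofClopen (isClopen_agree x n) ∈ J → R ∈ J := by
    intro n
    induction n with
    | zero => exact fun x h => hun _ h _ h _ fun _ _ => .inl fun _ hi => absurd hi (Nat.not_lt_zero _)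
    | succ n ih =>
      refine fun x h => ih x (hun _ h _ (mem_map hd (flIso n) h) _ fun y hy => ?_)
      by_cases e : y n = x n
      · exact .inl fun i hi => (Nat.lt_succ_iff_lt_or_eq.1 hi).elim (hy i) fun f => f ▸ e
      · refine .inr fun i hi => ?_
        rcases Nat.lt_succ_iff_lt_or_eq.1 hi with f | f
        · simpa [fl, f.ne] using hy i f
        · subst f
          simpa [fl] using Bool.eq_not_iff.2 e
  obtain ⟨x, hx⟩ := nonempty_iff_ne_empty.2 hi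
  obtain ⟨n, hn⟩ := mem_nhds_cantor.1 (mem_interior_iff_mem_nhds.1 hx)
  exact key n x (hun P hP P hP _ fun y hy => .inl (hn y hy))

theorem quot_definable (hd : IsDefinable J)
    (hun : ∀ P ∈ J, ∀ Q ∈ J, ∀ R : EPi, R.1 ⊆ P.1 ∪ Q.1 → R ∈ J) :
    IsDefinable {P : EPi | ∃ S : Set EPi, S.Finite ∧
      ∀ Q : EPi, Q.1 ⊆ P.1 → ∃ R ∈ S, ∃ F ∈ J, Q.1 ∪ F.1 = R.1 ∪ F.1} := by
  rcases J.eq_empty_or_nonempty with rfl | ⟨E, hE⟩
  · convert isDefinable_empty
    refine eq_empty_iff_forall_notMem.2 fun P ⟨S, _, h⟩ => ?_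
    obtain ⟨_, _, _, e, _⟩ := h P subset_rfl
    exact e
  by_cases hnd : ∀ P ∈ J, interior P.1 = ∅
  · have hJ : Idl J := ⟨hun, hun E hE E hE _ (empty_subset _), hnd⟩
    rw [fj_eq hJ]
    exact fj_definable' hJ hd
  · push Not at hnd
    obtain ⟨P, h1, h2⟩ := hnd
    refine isDefinable_iff.2 ((Dfn.le () ()).of_iff fun v => iff_of_true le_rfl
      ⟨{emp}, finite_singleton _, fun Q _ => ⟨emp, rfl, Q,
        all_mem hd hun h1 (nonempty_iff_ne_empty.1 h2) Q, ?_⟩⟩)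
    rw [union_self]
    exact (empty_union _).symm

theorem idl_emp : Idl {P : EPi | P.1 = ∅} :=
  ⟨fun _ h _ h' _ e => subset_empty_iff.1 (e.trans (union_subset h.subset h'.subset)), rfl,
    fun _ h => subset_empty_iff.1 (interior_subset.trans h.subset)⟩

theorem emp_definable : IsDefinable {P : EPi | P.1 = ∅} :=
  isDefinable_iff.2 (DSet.var ()).eq_empty

theorem fin_eq : {P : EPi | P.1.Finite} = {P : EPi | ∃ S : Set EPi, S.Finite ∧
    ∀ Q : EPi, Q.1 ⊆ P.1 → ∃ R ∈ S, ∃ F ∈ {P : EPi | P.1 = ∅}, Q.1 ∪ F.1 = R.1 ∪ F.1} := by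
  refine Subset.antisymm (fun P h => ⟨{Q | Q.1 ⊆ P.1},
    (Finite.finite_subsets h).preimage Subtype.val_injective.injOn,
      fun Q hQ => ⟨Q, hQ, emp, rfl, rfl⟩⟩) ?_
  rw [fj_eq idl_emp]
  exact fun P h => (idl_emp.z_fin h).subset fun x hx => mem_iInter.2 fun Q =>
    subset_closure ⟨hx, fun f => Q.2.subset f⟩

end Pool.Agent.Lib.MP_aad418_lc.FQ
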