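import Pool.Agent.Lib.MP_aad418_lc.FQb

/-! Finitely many subclasses with a definable property: cells and the arithmetical path. -/

set_option autoImplicit false

namespace Pool.Agent.Lib.MP_aad418_lc.FM

open Set Topology Encodable FirstOrder Pool.Agent.Lib.MP_6cbb02_lc Pool.Agent.Lib.MP_aad418_lc.FQ
open Nat.Partrec (Code)

theorem lim_two {r : EPi → EPi → Prop} (h : Dfn fun v : Fin 2 → EPi => r (v 0) (v 1)) :
    ∃ m, Lim m fun z : Code × Code => r (cls z.1) (cls z.2) := by
  let := Language.orderStructure EPi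
  unfold Dfn at h
  obtain ⟨φ, hφ⟩ := empty_definable_iff.1 h
  obtain ⟨m, hm⟩ := lim_realize (n := 1 + 0)
    (Language.BoundedFormula.relabel (![.inl (), .inr 0] : Fin 2 → Unit ⊕ Fin 1) φ)
    (β := Code × Code) (fun z => z.1) (fun _ z => z.2) (by fun_prop) fun _ => by fun_prop
  refine ⟨m, hm.of_iff fun z => ?_⟩
  rw [Language.BoundedFormula.realize_relabel]
  have := Set.ext_iff.1 hφ ![cls z.1, cls z.2]
  refine Iff.trans ?_ this.symm
  refine iff_of_eq (congrArg₂ _ ?_ (Subsingleton.elim _ _))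
  funext i
  fin_cases i <;> rfl

/-- The class with number `i`. -/
def cn (i : ℕ) : EPi := cls (dec Code i)

theorem cn_surj (Q : EPi) : ∃ i, cn i = Q := by
  obtain ⟨c, rfl⟩ := cls_surjective Q
  exact ⟨encode c, by simp [cn]⟩

/-- The points of `P` on prescribed sides of the first classes. -/
def cell (P : EPi) (w : List Bool) : Set (ℕ → Bool) :=
  {x | x ∈ P.1 ∧ ∀ i < w.length, (x ∈ (cn i).1 ↔ w.getD i false = true)}

theorem mem_cell_snoc {P : EPi} {w : List Bool} {b : Bool} {x : ℕ → Bool} :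
    x ∈ cell P (w ++ [b]) ↔ x ∈ cell P w ∧ (x ∈ (cn w.length).1 ↔ b = true) := by
  have h1 : (w ++ [b]).getD w.length false = b := by simp
  simp only [cell, mem_ofPred_eq, List.length_append, List.length_singleton,
    Nat.forall_lt_succ_right, h1, and_assoc]
  refine and_congr_right fun _ => and_congr_left fun _ => forall₂_congr fun i hi => ?_
  rw [List.getD_append _ _ _ _ hi]

theorem exists_piece (P : EPi) {x : ℕ → Bool} (hx : x ∈ P.1) (n : ℕ) : ∃ D : EPi, x ∈ D.1 ∧
    D ≤ P ∧ ∀ i < n, (x ∈ (cn i).1 → D ≤ cn i) ∧ (x ∉ (cn i).1 → Disjoint D.1 (cn i).1) := by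
  induction n with
  | zero => exact ⟨P, hx, le_rfl, fun _ h => absurd h (Nat.not_lt_zero _)⟩
  | succ n ih =>
    obtain ⟨D, h1, h2, h3⟩ := ih
    have key : ∀ C : EPi, x ∈ C.1 → (x ∈ (cn n).1 → C ≤ cn n) →
        (x ∉ (cn n).1 → Disjoint C.1 (cn n).1) → ∃ D : EPi, x ∈ D.1 ∧ D ≤ P ∧ ∀ i < n + 1,
          (x ∈ (cn i).1 → D ≤ cn i) ∧ (x ∉ (cn i).1 → Disjoint D.1 (cn i).1) := fun C c1 c2 c3 =>
      ⟨D.inter C, ⟨h1, c1⟩, fun _ e => h2 e.1, Nat.forall_lt_succ_right.2 ⟨fun i hi =>
        ⟨fun e _ f => (h3 i hi).1 e f.1, fun e => ((h3 i hi).2 e).mono_left inter_subset_left⟩,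
        fun e _ f => c2 e f.2, fun e => (c3 e).mono_left inter_subset_right⟩⟩
    by_cases e : x ∈ (cn n).1
    · exact key (cn n) e (fun _ => le_rfl) fun f => absurd e f
    · obtain ⟨C, -, c1, c2⟩ := exists_nhd (cn n).2.isClosed.isOpen_compl e
      exact key C c1 (fun f => absurd f e) fun _ => disjoint_left.2 c2

theorem sub_cell {P D : EPi} {w : List Bool} : D.1 ⊆ cell P w ↔ D ≤ P ∧ ∀ i < w.length,
    (w.getD i false = true → D ≤ cn i) ∧ (¬ w.getD i false = true → Disjoint D.1 (cn i).1) :=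
  ⟨fun h => ⟨fun _ e => (h e).1, fun i hi => ⟨fun a _ e => ((h e).2 i hi).2 a,
    fun a => disjoint_left.2 fun _ e f => a (((h e).2 i hi).1 f)⟩⟩,
    fun h _ e => ⟨h.1 e, fun i hi => ⟨fun f => by_contra fun a =>
      disjoint_left.1 ((h.2 i hi).2 a) e f, fun a => (h.2 i hi).1 a e⟩⟩⟩

theorem trace_sub {P A B : EPi} {w : List Bool}
    (h : ∀ D : EPi, D.1 ⊆ cell P w → D ≤ A → D ≤ B) : A.1 ∩ cell P w ⊆ B.1 ∩ cell P w := by
  intro x hx
  obtain ⟨D, h1, h2, h3⟩ := exists_piece P hx.2.1 w.length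
  refine ⟨h (D.inter A) (inter_subset_left.trans (sub_cell.2 ⟨h2, fun i hi =>
    ⟨fun a => (h3 i hi).1 ((hx.2.2 i hi).2 a), fun a => (h3 i hi).2 fun f =>
      a ((hx.2.2 i hi).1 f)⟩⟩)) inter_subset_right ⟨h1, hx.1⟩, hx.2⟩

/-- The family `X` has finitely many traces on a cell. -/
def FT (P : EPi) (X : Set EPi) (w : List Bool) : Prop :=
  ((fun R : EPi => R.1 ∩ cell P w) '' X).Finite

theorem ft_step {P : EPi} {X : Set EPi} {w : List Bool} (h0 : FT P X (w ++ [false]))
    (h1 : FT P X (w ++ [true])) : FT P X w := by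
  refine (Finite.image2 (fun a b => a ∪ b) h0 h1).subset ?_
  rintro _ ⟨R, hR, rfl⟩
  refine ⟨_, mem_image_of_mem _ hR, _, mem_image_of_mem _ hR, ?_⟩
  ext x
  simp only [mem_union, mem_inter_iff, mem_cell_snoc]
  by_cases e : x ∈ (cn w.length).1 <;> simp [e]

theorem lim_ft {m : ℕ} (h4 : 4 ≤ m) {X : Set EPi} (p : Code) (hX : Lim m fun c : Code => cls c ∈ X)
    (hD : Lim m fun z : Code × Code => Disjoint (cls z.1).1 (cls z.2).1) :
    Lim (m + 3) (FT (cls p) X) := by
  have h1 := lim_le.mono h4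
  have h2 : Lim m fun z : List Bool × Code => (cls z.2).1 ⊆ cell (cls p) z.1 :=
    (((h1.comp (f := fun z : List Bool × Code => (z.2, p)) (by fun_prop)).and
      (Lim.ball (p := fun (z : List Bool × Code) i =>
        (z.1.getD i false = true → cls z.2 ≤ cn i) ∧
          (¬ z.1.getD i false = true → Disjoint (cls z.2).1 (cn i).1))
        (f := fun z => z.1.length) (by fun_prop)
        (((Lim.eq (by fun_prop) (by fun_prop)).imp (h1.comp
          (f := fun y : (List Bool × Code) × ℕ => (y.1.2, dec Code y.2)) (by fun_prop))).and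
        ((Lim.eq (by fun_prop) (by fun_prop)).not.imp (hD.comp
          (f := fun y : (List Bool × Code) × ℕ => (y.1.2, dec Code y.2))
            (by fun_prop))))))).of_iff fun z => sub_cell.symm
  have h3 : Lim (m + 1) fun z : List Bool × Code × Code =>
      ∀ d : Code, (cls d).1 ⊆ cell (cls p) z.1 → cls d ≤ cls z.2.1 → cls d ≤ cls z.2.2 :=
    Lim.all ((h2.comp (f := fun y : (List Bool × Code × Code) × Code => (y.1.1, y.2))
      (by fun_prop)).imp ((h1.comp (f := fun y : (List Bool × Code × Code) × Code =>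
        (y.2, y.1.2.1)) (by fun_prop)).imp (h1.comp
          (f := fun y : (List Bool × Code × Code) × Code => (y.2, y.1.2.2)) (by fun_prop))))
  have h5 : Lim (m + 1) fun z : List Bool × Code × Code =>
      (cls z.2.1).1 ∩ cell (cls p) z.1 = (cls z.2.2).1 ∩ cell (cls p) z.1 :=
    (h3.and (h3.comp (f := fun z : List Bool × Code × Code => (z.1, z.2.2, z.2.1))
      (by fun_prop))).of_iff fun z => ⟨fun h => Subset.antisymm
        (trace_sub (cls_surjective.forall.2 h.1)) (trace_sub (cls_surjective.forall.2 h.2)),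
      fun h => ⟨fun _ a b _ e => (h.subset ⟨b e, a e⟩).1,
        fun _ a b _ e => (h.superset ⟨b e, a e⟩).1⟩⟩
  refine (Lim.ex (p := fun (w : List Bool) (l : List Code) => ∀ e : Code, cls e ∈ X →
    ∃ r ∈ l, (cls e).1 ∩ cell (cls p) w = (cls r).1 ∩ cell (cls p) w) (Lim.all
      ((hX.succ.comp (by fun_prop)).imp (Lim.bex_mem (by fun_prop) (h5.comp
        (f := fun y : ((List Bool × List Code) × Code) × Code => (y.1.1.1, y.1.2, y.2))
          (by fun_prop)))))).of_iff fun w => ⟨?_, fun h => ?_⟩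
  · rintro ⟨l, hl⟩
    refine ((List.finite_toSet l).image fun r => (cls r).1 ∩ cell (cls p) w).subset ?_
    rintro _ ⟨R, hR, rfl⟩
    obtain ⟨e, rfl⟩ := cls_surjective R
    obtain ⟨r, h6, h7⟩ := hl e hR
    exact ⟨r, h6, h7.symm⟩
  · obtain ⟨S, s1, s2, s3⟩ := Finite.exists_subset_finite_image_eq h subset_rfl
    choose g hg using cls_surjective
    refine ⟨s2.toFinset.toList.map g, fun e he => ?_⟩
    obtain ⟨R, e1, e2⟩ := s3.superset (mem_image_of_mem _ he)
    exact ⟨g R, List.mem_map_of_mem (by simpa using e1), by rw [hg]; exact e2.symm⟩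

theorem exists_path {m : ℕ} {T : List Bool → Prop} (hT : Lim m T) (h0 : ¬ T [])
    (hs : ∀ w, T (w ++ [false]) → T (w ++ [true]) → T w) :
    ∃ ε : ℕ → Bool, (Lim (m + 1) fun n => ε n = true) ∧ ∀ n, ¬ T (restrict ε n) := by
  classical
  let W : ℕ → List Bool := fun n => Nat.rec [] (fun _ w => w ++ [decide (T (w ++ [false]))]) n
  let ε : ℕ → Bool := fun n => decide (T (W n ++ [false]))
  have hW : ∀ n, restrict ε n = W n := fun n => by
    induction n with
    | zero => rfl
    | succ n ih => rw [restrict_succ, ih]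
  have hε : ∀ n, ε n = true ↔ T (restrict ε n ++ [false]) := fun n => by
    rw [hW]
    exact decide_eq_true_iff
  refine ⟨ε, (Lim.ex (p := fun (n : ℕ) (w : List Bool) => (w.length = n + 1 ∧
    w.getD n false = true) ∧ ∀ i < w.length, (w.getD i false = true → T (w.take i ++ [false])) ∧
      (T (w.take i ++ [false]) → w.getD i false = true))
    (((Lim.eq (by fun_prop) (by fun_prop)).and (Lim.eq (by fun_prop) (by fun_prop))).and
      (Lim.ball (by fun_prop) (((Lim.eq (by fun_prop) (by fun_prop)).imp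
        (hT.comp (by fun_prop))).and ((hT.comp (by fun_prop)).imp
          (Lim.eq (by fun_prop) (by fun_prop))))))).of_iff fun n => ⟨?_, fun h => ?_⟩, fun n => ?_⟩
  · rintro ⟨w, ⟨h1, h2⟩, h3⟩
    have key : ∀ i, i < w.length → ext w i = ε i := fun i => by
      induction i using Nat.strong_induction_on with
      | _ i ih =>
        intro hi
        have e : w.take i = restrict ε i := by
          rw [← restrict_ext_le w hi.le]
          exact MP_6cbb02_lc.restrict_eq_iff.2 fun j hj => ih j hj (hj.trans hi)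
        refine Bool.eq_iff_iff.2 ?_
        rw [hε, ← e]
        exact ⟨(h3 i hi).1, (h3 i hi).2⟩
    rw [← key n (by omega)]
    exact h2
  · refine ⟨restrict ε (n + 1), ⟨by simp, by rw [getD_restrict (by omega), h]⟩, fun i hi => ?_⟩
    rw [length_restrict] at hi
    rw [getD_restrict hi, take_restrict _ hi.le]
    exact ⟨(hε i).1, (hε i).2⟩
  · induction n with
    | zero => exact h0
    | succ n ih =>
      rw [restrict_succ]
      cases e : ε n with
      | false => exact fun f => by simpa [e] using (hε n).2 f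
      | true => exact fun f => ih (hs _ ((hε n).1 e) f)

end Pool.Agent.Lib.MP_aad418_lc.FM
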