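import Pool.Agent.Lib.MP_aad418_lc.FMa

/-! Finitely many subclasses with a definable property: the two bounds. -/

set_option autoImplicit false

namespace Pool.Agent.Lib.MP_aad418_lc.FM

open Set Topology Encodable FirstOrder Pool.Agent.Lib.MP_6cbb02_lc Pool.Agent.Lib.MP_aad418_lc.FQ
open Nat.Partrec (Code)

/-- The two bounds that a finite family has at a point of `Z` along the closed set `K`. -/
def Bnd (X : Set EPi) (K Z : Set (ℕ → Bool)) : Prop :=
  (∃ Q : EPi, ¬ Z ⊆ derivedSet (Q.1 ∩ K) ∧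
    ∀ R : EPi, R ∈ X → ¬ Z ⊆ derivedSet (R.1 ∩ K) → R ≤ Q) ∧
  ∃ Q : EPi, ¬ Z ⊆ derivedSet (closure (K \ Q.1)) ∧
    ∀ R : EPi, R ∈ X → ¬ Z ⊆ derivedSet (closure (K \ R.1)) → Q ≤ R

theorem bnd_of_finite {X : Set EPi} (h : X.Finite) (K : Set (ℕ → Bool)) (z : ℕ → Bool) :
    Bnd X K {z} := by
  simp only [Bnd, singleton_subset_iff]
  induction X, h using Finite.induction_on with
  | empty => exact ⟨⟨emp, by simp [emp, EPi.ofClopen, derived_fin], fun _ e => e.elim⟩,
      .ofClopen isClopen_univ, by simp [EPi.ofClopen, derived_fin], fun _ e => e.elim⟩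
  | @insert a s _ _ ih =>
    obtain ⟨⟨Q, h1, h2⟩, Q', h3, h4⟩ := ih
    constructor
    · by_cases e : z ∈ derivedSet (a.1 ∩ K)
      · exact ⟨Q, h1, fun R f g => f.elim (fun k => absurd (k ▸ e) g) fun k => h2 R k g⟩
      · refine ⟨Q.union a, fun f => ?_, fun R f g => f.elim (fun k => k ▸ subset_union_right)
          fun k => (h2 R k g).trans subset_union_left⟩
        have : (Q.union a).1 ∩ K = Q.1 ∩ K ∪ a.1 ∩ K := union_inter_distrib_right _ _ _
        rw [this, derivedSet_union] at f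
        exact f.elim h1 e
    · by_cases e : z ∈ derivedSet (closure (K \ a.1))
      · exact ⟨Q', h3, fun R f g => f.elim (fun k => absurd (k ▸ e) g) fun k => h4 R k g⟩
      · refine ⟨Q'.inter a, fun f => ?_, fun R f g => f.elim (fun k => k ▸ inter_subset_right)
          fun k => le_trans inter_subset_left (h4 R k g)⟩
        have : K \ (Q'.inter a).1 = K \ Q'.1 ∪ K \ a.1 := sdiff_inter
        rw [this, closure_union, derivedSet_union] at f
        exact f.elim h3 e

theorem hit_all {A : Set (ℕ → Bool)} {x : ℕ → Bool} :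
    (∀ n, Hit A (restrict x n)) ↔ x ∈ closure A :=
  (mem_closure_cantor.trans (forall_congr' fun n => exists_congr fun y => and_congr_right fun _ =>
    by rw [length_restrict, MP_6cbb02_lc.restrict_eq_iff])).symm

/-- A non-empty piece of the cell of level `i` that misses the limit point and lies on the wrong
side of a member of `X`. -/
def Good (P : EPi) (X : Set EPi) (ε : ℕ → Bool) (i : ℕ) (D : EPi) : Prop :=
  ¬ Disjoint D.1 D.1 ∧ D ≤ P ∧
    (∀ j < i, (ε j = true → D ≤ cn j) ∧ (¬ ε j = true → Disjoint D.1 (cn j).1)) ∧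
    (∃ j, ε j = true ∧ Disjoint D.1 (cn j).1) ∧
    ∃ k, cn k ∈ X ∧ ((¬ ε k = true ∧ D ≤ cn k) ∨ (ε k = true ∧ Disjoint D.1 (cn k).1))

theorem lim_good {m : ℕ} (h4 : 4 ≤ m) {X : Set EPi} (p : Code) {ε : ℕ → Bool}
    (hX : Lim m fun c : Code => cls c ∈ X) (hε : Lim m fun n => ε n = true)
    (hD : Lim m fun z : Code × Code => Disjoint (cls z.1).1 (cls z.2).1) :
    Lim (m + 1) fun z : ℕ × Code => Good (cls p) X ε z.1 (cls z.2) := by
  have h1 := lim_le.mono h4
  have a1 : Lim m fun y : (ℕ × Code) × ℕ => ε y.2 = true := hε.comp (by fun_prop)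
  have a2 : Lim m fun y : (ℕ × Code) × ℕ => cls y.1.2 ≤ cn y.2 :=
    h1.comp (f := fun y : (ℕ × Code) × ℕ => (y.1.2, dec Code y.2)) (by fun_prop)
  have a3 : Lim m fun y : (ℕ × Code) × ℕ => Disjoint (cls y.1.2).1 (cn y.2).1 :=
    hD.comp (f := fun y : (ℕ × Code) × ℕ => (y.1.2, dec Code y.2)) (by fun_prop)
  have a4 : Lim m fun y : (ℕ × Code) × ℕ => cn y.2 ∈ X :=
    hX.comp (f := fun y : (ℕ × Code) × ℕ => dec Code y.2) (by fun_prop)
  exact (hD.succ.comp (f := fun z : ℕ × Code => (z.2, z.2)) (by fun_prop)).not.and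
    ((h1.succ.comp (f := fun z : ℕ × Code => (z.2, p)) (by fun_prop)).and
      ((Lim.ball (p := fun (z : ℕ × Code) j => (ε j = true → cls z.2 ≤ cn j) ∧
        (¬ ε j = true → Disjoint (cls z.2).1 (cn j).1)) (f := fun z => z.1) (by fun_prop)
        ((a1.imp a2).and (a1.not.imp a3))).succ.and
      ((Lim.ex (p := fun (z : ℕ × Code) j => ε j = true ∧ Disjoint (cls z.2).1 (cn j).1)
        (a1.and a3)).and (Lim.ex (p := fun (z : ℕ × Code) k => cn k ∈ X ∧
          ((¬ ε k = true ∧ cls z.2 ≤ cn k) ∨ (ε k = true ∧ Disjoint (cls z.2).1 (cn k).1)))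
          (a4.and ((a1.not.and a2).or (a1.and a3)))))))

section
variable {P : EPi} {X : Set EPi} {ε : ℕ → Bool}

theorem cell_pt (h : ∀ n, ¬ FT P X (restrict ε n)) (n : ℕ) :
    ∃ x ∈ P.1, ∀ i < n, (x ∈ (cn i).1 ↔ ε i = true) := by
  rcases (cell P (restrict ε n)).eq_empty_or_nonempty with e | ⟨x, h1, h2⟩
  · refine absurd ((finite_singleton ∅).subset ?_) (h n)
    rintro _ ⟨R, -, rfl⟩
    simp [e]
  · rw [length_restrict] at h2
    exact ⟨x, h1, fun i hi => by rw [h2 i hi, getD_restrict hi]⟩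

theorem sign_clopen (h : ∀ n, ¬ FT P X (restrict ε n)) {z : ℕ → Bool}
    (hz : ∀ j, ε j = true → z ∈ (cn j).1) {l : ℕ} (hl : IsClopen (cn l).1) (e : z ∈ (cn l).1) :
    ε l = true := by
  obtain ⟨k, hk⟩ := cn_surj (.ofClopen hl.compl)
  obtain ⟨x, -, h2⟩ := cell_pt h (max k l + 1)
  refine (h2 l (by omega)).1 (by_contra fun f => ?_)
  have := hz k ((h2 k (by omega)).1 (hk ▸ f))
  rw [hk] at this
  exact this e

theorem exists_limit (h : ∀ n, ¬ FT P X (restrict ε n)) :
    ∃ z ∈ P.1, {x | ∀ j, ε j = true → x ∈ (cn j).1} = {z} := by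
  have hc : ∀ n, IsClosed {x | ∀ j < n, ε j = true → x ∈ (cn j).1} := fun n => by
    simp only [ofPred_forall]
    exact isClosed_iInter fun j => isClosed_iInter fun _ => isClosed_iInter fun _ =>
      (cn j).2.isClosed
  obtain ⟨z, hz⟩ := IsCompact.nonempty_iInter_of_sequence_nonempty_isCompact_isClosed
    (fun n => {x | ∀ j < n, ε j = true → x ∈ (cn j).1}) (fun n x hx j hj => hx j (by omega))
    (fun n => by
      obtain ⟨x, -, h2⟩ := cell_pt h n
      exact ⟨x, fun j hj => (h2 j hj).2⟩) (hc 0).isCompact hc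
  have h1 : ∀ j, ε j = true → z ∈ (cn j).1 := fun j => mem_iInter.1 hz (j + 1) j (by omega)
  obtain ⟨p, hp⟩ := cn_surj P
  obtain ⟨x, x1, x2⟩ := cell_pt h (p + 1)
  refine ⟨z, hp ▸ h1 p ((x2 p (by omega)).1 (hp ▸ x1)), eq_singleton_iff_unique_mem.2
    ⟨h1, fun y hy => by_contra fun f => ?_⟩⟩
  obtain ⟨C, c0, c1, c2⟩ := exists_nhd (isOpen_compl_singleton (x := y)) (Ne.symm f)
  obtain ⟨l, rfl⟩ := cn_surj C
  exact c2 (hy l (sign_clopen h h1 c0 c1)) rfl

theorem exists_good (h : ∀ n, ¬ FT P X (restrict ε n)) {z : ℕ → Bool}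
    (hz : {x | ∀ j, ε j = true → x ∈ (cn j).1} = {z}) (i : ℕ) : ∃ D, Good P X ε i D := by
  have h0 : ∃ x ∈ cell P (restrict ε i), x ≠ z ∧ ∃ k, cn k ∈ X ∧ ¬ (x ∈ (cn k).1 ↔ ε k = true) := by
    by_contra hc
    push Not at hc
    refine h i (((finite_singleton z).finite_subsets.insert (cell P (restrict ε i))).subset ?_)
    rintro _ ⟨R, hR, rfl⟩
    obtain ⟨k, rfl⟩ := cn_surj R
    by_cases e : ε k = true
    · refine .inl (inter_eq_right.2 fun x hx => ?_)
      by_cases f : x = z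
      · exact f ▸ hz.superset rfl k e
      · exact (hc x hx f k hR).2 e
    · exact .inr fun x hx => by_contra fun f => e ((hc x hx.2 f k hR).1 hx.1)
  obtain ⟨x, ⟨x1, x2⟩, x3, k, k1, k2⟩ := h0
  have h1 : ¬ ∀ j, ε j = true → x ∈ (cn j).1 := fun f => x3 (hz.subset f)
  push Not at h1
  obtain ⟨j, j1, j2⟩ := h1
  obtain ⟨D, d1, d2, d3⟩ := exists_piece P x1 (max i (max j k) + 1)
  rw [length_restrict] at x2
  refine ⟨D, fun f => disjoint_left.1 f d1 d1, d2, fun l hl => ?_, ⟨j, j1, (d3 j (by omega)).2 j2⟩,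
    k, k1, ?_⟩
  · have := x2 l hl
    rw [getD_restrict hl] at this
    exact ⟨fun a => (d3 l (by omega)).1 (this.2 a), fun a => (d3 l (by omega)).2 fun f =>
      a (this.1 f)⟩
  · by_cases e : ε k = true
    · exact .inr ⟨e, (d3 k (by omega)).2 fun f => k2 (iff_of_true f e)⟩
    · exact .inl ⟨e, (d3 k (by omega)).1 (by_contra fun f => k2 (iff_of_false f e))⟩

theorem not_bnd (h : ∀ n, ¬ FT P X (restrict ε n)) {z : ℕ → Bool}
    (hz : {x | ∀ j, ε j = true → x ∈ (cn j).1} = {z}) {g : ℕ → EPi}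
    (hg : ∀ i, Good P X ε i (g i)) : ¬ Bnd X (closure (⋃ i, (g i).1)) {z} := by
  have z1 : ∀ j, ε j = true → z ∈ (cn j).1 := hz.superset rfl
  have z2 : ∀ i, z ∉ (g i).1 := fun i f => by
    obtain ⟨j, j1, j2⟩ := (hg i).2.2.2.1
    exact disjoint_left.1 j2 f (z1 j j1)
  let F : ℕ → Set (ℕ → Bool) := fun j => ⋃ i ∈ Finset.range (j + 1), (g i).1
  have f1 : ∀ j, IsClosed (F j) := fun j => isClosed_biUnion_finset fun i _ => (g i).2.isClosed
  have f2 : ∀ j, z ∉ derivedSet (F j) := fun j f => by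
    have := (isClosed_iff_derivedSet_subset _).1 (f1 j) f
    simp only [F, mem_iUnion] at this
    obtain ⟨i, -, e⟩ := this
    exact z2 i e
  have f3 : ∀ j, ε j = true → closure (⋃ i, (g i).1) ⊆ F j ∪ (cn j).1 := fun j e =>
    closure_minimal (iUnion_subset fun i x hx => (lt_or_ge j i).elim
      (fun a => .inr (((hg i).2.2.1 j a).1 e hx))
      fun a => .inl (mem_biUnion (Finset.mem_range.2 (by omega)) hx))
      ((f1 j).union (cn j).2.isClosed)
  simp only [Bnd, singleton_subset_iff]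
  rintro ⟨⟨Q, q1, q2⟩, Q', q3, q4⟩
  have key : ⋃ i, (g i).1 ⊆ Q.1 ∩ closure (⋃ i, (g i).1) ∪
      closure (closure (⋃ i, (g i).1) \ Q'.1) := iUnion_subset fun i x hx => by
    have x1 : x ∈ closure (⋃ i, (g i).1) := subset_closure (mem_iUnion.2 ⟨i, hx⟩)
    obtain ⟨k, k1, ⟨k2, k3⟩ | ⟨k2, k3⟩⟩ := (hg i).2.2.2.2
    · refine .inl ⟨q2 _ k1 (fun f => ?_) (k3 hx), x1⟩
      have := derivedSet_mono _ (F k ∪ {z}) (fun y hy => ?_) f
      · rw [derivedSet_union, derived_fin (finite_singleton z), union_empty] at this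
        exact f2 k this
      · by_cases e : y = z
        · exact .inr e
        have h1 : ¬ ∀ j, ε j = true → y ∈ (cn j).1 := fun f => e (hz.subset f)
        push Not at h1
        obtain ⟨l, l1, l2⟩ := h1
        have h2 := (f3 l l1 hy.2).resolve_right l2
        simp only [F, mem_iUnion] at h2
        obtain ⟨j, -, j2⟩ := h2
        refine .inl (mem_biUnion (Finset.mem_range.2 (Nat.lt_succ_of_le (not_lt.1 fun a => ?_))) j2)
        exact disjoint_left.1 (((hg j).2.2.1 k a).2 k2) j2 hy.1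
    · refine .inr (subset_closure ⟨x1, fun f => disjoint_left.1 k3 hx (q4 _ k1 (fun e => ?_) f)⟩)
      exact f2 k (derivedSet_mono _ _ (closure_minimal
        (fun y hy => (f3 k k2 hy.1).resolve_right hy.2) (f1 k)) e)
  have hzd : z ∈ derivedSet (⋃ i, (g i).1) := mem_derivedSet_cantor.2 fun n => by
    obtain ⟨l, hl⟩ := cn_surj (.ofClopen (isClopen_agree z n))
    have e : ε l = true := sign_clopen h z1 (hl ▸ isClopen_agree z n) (hl ▸ fun _ _ => rfl)
    obtain ⟨y, y1, -⟩ := not_disjoint_iff.1 (hg (l + 1)).1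
    have := ((hg (l + 1)).2.2.1 l (by omega)).1 e y1
    rw [hl] at this
    exact ⟨y, mem_iUnion.2 ⟨_, y1⟩, fun f => z2 _ (f ▸ y1), this⟩
  have := derivedSet_mono _ _ key hzd
  rw [derivedSet_union] at this
  exact this.elim q1 q3

end

end Pool.Agent.Lib.MP_aad418_lc.FM
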