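import Pool.Agent.Lib.MP_aad418_lc.FMb

/-! Finitely many subclasses with a definable property: the defining formula. -/

set_option autoImplicit false

namespace Pool.Agent.Lib.MP_aad418_lc.FM

open Set Topology Encodable FirstOrder Pool.Agent.Lib.MP_6cbb02_lc Pool.Agent.Lib.MP_aad418_lc.FQ
open Nat.Partrec (Code)

theorem exists_bad {m : ℕ} (h4 : 4 ≤ m) {X : Set EPi} (p : Code)
    (hX : Lim m fun c : Code => cls c ∈ X)
    (hD : Lim m fun z : Code × Code => Disjoint (cls z.1).1 (cls z.2).1)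
    (hP : ∀ R ∈ X, R ≤ cls p) (hi : ¬ X.Finite) : ∃ K z, Cl (m + 7) K ∧ Cl (m + 7) {z} ∧
      K ⊆ (cls p).1 ∧ z ∈ (cls p).1 ∧ ¬ Bnd X K {z} := by
  obtain ⟨ε, e1, e2⟩ := exists_path (lim_ft h4 p hX hD) (fun f => hi (Finite.of_finite_image f
    fun A a B b e => Subtype.ext (by
      have h1 : cell (cls p) [] = (cls p).1 := by simp [cell]
      simp only [h1] at e
      rwa [inter_eq_left.2 (hP A a), inter_eq_left.2 (hP B b)] at e))) fun _ => ft_step
  obtain ⟨z, z1, z2⟩ := exists_limit e2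
  have hG := lim_good (m := m + 4) (by omega) p (hX.mono (by omega)) e1 (hD.mono (by omega))
  let L : ℕ → Code → Prop := fun i d =>
    Good (cls p) X ε i (cls d) ∧ ∀ c, encode c < encode d → ¬ Good (cls p) X ε i (cls c)
  have hL : Lim (m + 6) fun y : ℕ × Code => L y.1 y.2 := hG.succ.and
    (Lim.all (p := fun (y : ℕ × Code) (c : Code) =>
      encode c < encode y.2 → ¬ Good (cls p) X ε y.1 (cls c)) ((Lim.lt (by fun_prop)
        (by fun_prop)).imp (hG.comp (f := fun w : (ℕ × Code) × Code => (w.1.1, w.2))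
          (by fun_prop)).not))
  have h1 : ∀ i, ∃ d, L i d := fun i => by
    obtain ⟨D, hD⟩ := exists_good e2 z2 i
    obtain ⟨d, rfl⟩ := cls_surjective D
    obtain ⟨c, c1, c2⟩ := (InvImage.wf (encode : Code → ℕ) Nat.lt_wfRel.wf).has_min
      {c | Good (cls p) X ε i (cls c)} ⟨d, hD⟩
    exact ⟨c, c1, fun a b e => c2 a e b⟩
  choose g hg using h1
  have h2 : ∀ i d, L i d → d = g i := fun i d e => by
    rcases lt_trichotomy (encode d) (encode (g i)) with a | a | a
    · exact absurd e.1 ((hg i).2 d a)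
    · exact encode_injective a
    · exact absurd (hg i).1 (e.2 _ a)
  refine ⟨closure (⋃ i, (cls (g i)).1), z, ⟨fun σ => ∃ y : ℕ × Code, L y.1 y.2 ∧ Hit (cls y.2).1 σ,
    Lim.ex (p := fun (σ : List Bool) (y : ℕ × Code) => L y.1 y.2 ∧ Hit (cls y.2).1 σ)
      ((hL.comp (by fun_prop)).and ((lim_hit.mono (by omega)).comp
        (f := fun w : List Bool × ℕ × Code => (w.2.2, w.1)) (by fun_prop))), ?_⟩,
    ⟨fun σ => ∀ j, ε j = true → Hit (cn j).1 σ,
      (Lim.all (p := fun (σ : List Bool) (j : ℕ) => ε j = true → Hit (cn j).1 σ)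
        ((e1.comp (by fun_prop)).imp ((lim_hit.mono (by omega)).comp
          (f := fun w : List Bool × ℕ => (dec Code w.2, w.1)) (by fun_prop)))).mono (by omega), ?_⟩,
    closure_minimal (iUnion_subset fun i => (hg i).1.2.1) (cls p).2.isClosed, z1,
    not_bnd e2 z2 fun i => (hg i).1⟩
  · ext x
    rw [← hit_all]
    refine forall_congr' fun n => ⟨?_, ?_⟩
    · rintro ⟨y, y1, y2⟩
      obtain ⟨i, hi⟩ := mem_iUnion.1 y1
      exact ⟨(i, g i), hg i, y, hi, y2⟩
    · rintro ⟨⟨i, d⟩, a, y, y1, y2⟩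
      exact ⟨y, mem_iUnion.2 ⟨i, h2 i d a ▸ y1⟩, y2⟩
  · rw [← z2]
    ext x
    refine ⟨fun h n j e => hit_all.2 (subset_closure (h j e)) n, fun h j e => ?_⟩
    exact (cn j).2.isClosed.closure_subset (hit_all.1 fun n => h n j e)

theorem lim_many {n : ℕ} {r : (Fin n → EPi) → EPi → Prop}
    (h : Dfn fun w : Option (Fin n) → EPi => r (fun a => w (some a)) (w none)) :
    ∃ m, ∀ v : Fin n → EPi, Lim m fun c : Code => r v (cls c) := by
  let := Language.orderStructure EPi
  unfold Dfn at h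
  obtain ⟨φ, hφ⟩ := empty_definable_iff.1 h
  obtain ⟨m, hm⟩ := lim_realize (n := n + 0) (Language.BoundedFormula.relabel
    (fun o : Option (Fin n) => (o.elim (.inl ()) .inr : Unit ⊕ Fin n)) φ)
    (β := List Code × Code) (fun z => z.2) (fun i z => z.1.getD i default) (by fun_prop)
    fun _ => by fun_prop
  choose g hg using cls_surjective
  refine ⟨m, fun v => (hm.comp (f := fun c : Code => (List.ofFn fun i => g (v i), c))
    (by fun_prop)).of_iff fun c => ?_⟩
  rw [Language.BoundedFormula.realize_relabel]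
  have := Set.ext_iff.1 hφ fun o => o.elim (cls c) v
  refine Iff.trans ?_ this.symm
  refine iff_of_eq (congrArg₂ _ ?_ (Subsingleton.elim _ _))
  funext o
  cases o with
  | none => rfl
  | some i => simp [hg, List.getD_eq_getElem?_getD]

theorem dfn_bnd {α β : Type} {r : (α → EPi) → EPi → Prop}
    (h : Dfn fun w : Option α → EPi => r (fun a => w (some a)) (w none)) (f : α → β)
    {K Z : (β → EPi) → Set (ℕ → Bool)} (hK : DSet K) (hZ : DSet Z) :
    Dfn fun v => Bnd {R | r (fun a => v (f a)) R} (K v) (Z v) := by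
  have a1 := ((hZ.reindex some).subset_derived ((hK.reindex some).inter_var none)).not
  have a2 := ((hZ.reindex some).subset_derived ((hK.reindex some).closure_diff none)).not
  have a3 : Dfn fun w : Option (Option β) → EPi =>
      r (fun a => w (some (some (f a)))) (w none) :=
    h.reindex fun o => o.elim none fun a => some (some (f a))
  exact (Dfn.ex (p := fun v Q => ¬ Z v ⊆ derivedSet (Q.1 ∩ K v) ∧ ∀ R : EPi,
      r (fun a => v (f a)) R → ¬ Z v ⊆ derivedSet (R.1 ∩ K v) → R ≤ Q) (a1.and (Dfn.all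
        (a3.imp ((a1.reindex fun o => o.elim none fun a => some (some a)).imp (Dfn.le _ _)))))).and
    (Dfn.ex (p := fun v Q => ¬ Z v ⊆ derivedSet (closure (K v \ Q.1)) ∧ ∀ R : EPi,
      r (fun a => v (f a)) R → ¬ Z v ⊆ derivedSet (closure (K v \ R.1)) → Q ≤ R) (a2.and (Dfn.all
        (a3.imp ((a2.reindex fun o => o.elim none fun a => some (some a)).imp (Dfn.le _ _))))))

theorem dfn_finite {n : ℕ} {r : (Fin n → EPi) → EPi → Prop}
    (h : Dfn fun w : Option (Fin n) → EPi => r (fun a => w (some a)) (w none)) (i : Fin n)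
    (hr : ∀ v Q, r v Q → Q ≤ v i) :
    Dfn fun v : Fin n → EPi => interior (v i).1 = ∅ ∧ {Q | r v Q}.Finite := by
  obtain ⟨m₁, h1⟩ := lim_many h
  obtain ⟨m₂, h2⟩ := lim_two (r := fun A B => Disjoint A.1 B.1) (Dfn.disjoint _ _)
  let m := m₁ + m₂ + 4 + 7
  have hK : DSet fun w : Fin n ⊕ (Par m ⊕ Par m) → EPi => Fam m fun a => w (.inr (.inl a)) :=
    (DSet.fam m).reindex _
  have hZ : DSet fun w : Fin n ⊕ (Par m ⊕ Par m) → EPi => Fam m fun a => w (.inr (.inr a)) :=
    (DSet.fam m).reindex _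
  refine ((dfn_interior.reindex fun _ => i).and (Dfn.allFin (β := Par m ⊕ Par m)
    (p := fun v u => (Fam m fun a => u (.inr a)).Subsingleton →
      ¬ (Fam m fun a => u (.inr a)) = ∅ →
      Bnd {R | r v R} (Fam m fun a => u (.inl a)) (Fam m fun a => u (.inr a)))
    (hZ.subsingleton.imp (hZ.eq_empty.not.imp (dfn_bnd h Sum.inl hK hZ))))).of_iff
      fun v => and_congr_right fun hi => ⟨fun e => by_contra fun f => ?_, fun e u a b => ?_⟩
  · obtain ⟨p, hp⟩ := cls_surjective (v i)
    obtain ⟨K, z, k1, k2, k3, k4, k5⟩ := exists_bad (m := m₁ + m₂ + 4) (by omega)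
      (X := {Q | r v Q}) p ((h1 v).mono (by omega)) (h2.mono (by omega)) (hp ▸ hr v) f
    rw [hp] at k3 k4
    obtain ⟨u, rfl⟩ := exists_fam m k1 (v i).2 hi k3
    obtain ⟨t, ht⟩ := exists_fam m k2 (v i).2 hi (singleton_subset_iff.2 k4)
    have := e (Sum.elim u t)
    simp only [Sum.elim_inl, Sum.elim_inr, ht] at this
    exact k5 (this subsingleton_singleton (singleton_ne_empty z))
  · obtain ⟨z, hz⟩ := nonempty_iff_ne_empty.2 b
    rw [a.eq_singleton_of_mem hz]
    exact bnd_of_finite e _ z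

theorem formula_case {n : ℕ} (i : Fin n) (φ : Language.order.Formula (Option (Fin n))) :
    letI := Language.orderStructure EPi
    ∃ ψ : Language.order.Formula (Fin n), ∀ v : Fin n → EPi, ψ.Realize v ↔
      interior (v i).1 = ∅ ∧
        {Q : EPi | Q.1 ⊆ (v i).1 ∧ φ.Realize fun o => o.elim Q v}.Finite := by
  let := Language.orderStructure EPi
  have h : Dfn fun w : Option (Fin n) → EPi => φ.Realize w := by
    unfold Dfn
    exact empty_definable_iff.2 ⟨φ, rfl⟩
  have h1 := dfn_finite (r := fun v Q => Q.1 ⊆ (v i).1 ∧ φ.Realize fun o => o.elim Q v)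
    ((Dfn.le none (some i)).and (h.of_iff fun w => iff_of_eq (congrArg _
      (funext fun o => by cases o <;> rfl)))) i fun _ _ e => e.1
  unfold Dfn at h1
  obtain ⟨ψ, hψ⟩ := empty_definable_iff.1 h1
  exact ⟨ψ, fun v => (Set.ext_iff.1 hψ v).symm⟩

end Pool.Agent.Lib.MP_aad418_lc.FM
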