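import Pool.Agent.Lib.MP_aad418_lc.FMc

/-! Finitely many nowhere dense classes with a definable property. -/

set_option autoImplicit false

namespace Pool.Agent.Lib.MP_aad418_lc.FM

open Set Topology FirstOrder Pool.Agent.Lib.MP_6cbb02_lc Pool.Agent.Lib.MP_aad418_lc.FQ

theorem exists_nd {X : Set EPi} (h : X.Finite) :
    ∃ N : EPi, interior N.1 = ∅ ∧ ∀ Q ∈ X, interior Q.1 = ∅ → Q ≤ N := by
  induction X, h using Finite.induction_on with
  | empty => exact ⟨emp, interior_empty, fun _ e => e.elim⟩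
  | @insert a s _ _ ih =>
    obtain ⟨N, h1, h2⟩ := ih
    by_cases e : interior a.1 = ∅
    · exact ⟨N.union a, (interior_union_isClosed_of_interior_empty N.2.isClosed e).trans h1,
        fun Q f g => f.elim (fun k => k ▸ subset_union_right)
          fun k => (h2 Q k g).trans subset_union_left⟩
    · exact ⟨N, h1, fun Q f g => f.elim (fun k => absurd (k ▸ g) e) fun k => h2 Q k g⟩

theorem dfn_finite_nd {n : ℕ} {r : (Fin n → EPi) → EPi → Prop}
    (h : Dfn fun w : Option (Fin n) → EPi => r (fun a => w (some a)) (w none))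
    (hr : ∀ v Q, r v Q → interior Q.1 = ∅) : Dfn fun v : Fin n → EPi => {Q | r v Q}.Finite := by
  have h1 := (dfn_finite (n := n + 1) (r := fun v Q => Q ≤ v 0 ∧ r (fun a => v a.succ) Q)
    ((Dfn.le none (some 0)).and (h.reindex (Option.map Fin.succ))) 0 fun _ _ e => e.1).reindex
      (Fin.cons none some : Fin (n + 1) → Option (Fin n))
  have h2 : Dfn fun w : Option (Fin n) → EPi => interior (w none).1 = ∅ ∧
      {Q | Q ≤ w none ∧ r (fun a => w (some a)) Q}.Finite := h1.of_iff fun w => by simp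
  have h3 : Dfn fun w : Option (Option (Fin n)) → EPi =>
      r (fun a => w (some (some a))) (w none) := h.reindex (Option.map some)
  refine (Dfn.ex (p := fun v N => (∀ Q : EPi, r v Q → Q ≤ N) ∧ interior N.1 = ∅ ∧
    {Q | Q ≤ N ∧ r v Q}.Finite) ((Dfn.all (h3.imp (Dfn.le _ _))).and h2)).of_iff fun v =>
      ⟨fun ⟨N, a, _, b⟩ => b.subset fun Q e => ⟨a Q e, e⟩, fun e => ?_⟩
  obtain ⟨N, a, b⟩ := exists_nd e
  exact ⟨N, fun Q f => b Q f (hr v Q f), a, e.subset fun _ f => f.2⟩

theorem formula_nd {n : ℕ} (φ : Language.order.Formula (Option (Fin n))) :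
    letI := Language.orderStructure EPi
    ∃ ψ : Language.order.Formula (Fin n), ∀ v : Fin n → EPi, ψ.Realize v ↔
      {Q : EPi | interior Q.1 = ∅ ∧ φ.Realize fun o => o.elim Q v}.Finite := by
  let := Language.orderStructure EPi
  have h : Dfn fun w : Option (Fin n) → EPi => φ.Realize w := by
    unfold Dfn
    exact empty_definable_iff.2 ⟨φ, rfl⟩
  have h1 := dfn_finite_nd (r := fun v Q => interior Q.1 = ∅ ∧ φ.Realize fun o => o.elim Q v)
    ((dfn_interior.reindex fun _ => none).and (h.of_iff fun w => iff_of_eq (congrArg _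
      (funext fun o => by cases o <;> rfl)))) fun _ _ e => e.1
  unfold Dfn at h1
  obtain ⟨ψ, hψ⟩ := empty_definable_iff.1 h1
  exact ⟨ψ, fun v => (Set.ext_iff.1 hψ v).symm⟩

end Pool.Agent.Lib.MP_aad418_lc.FM
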