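import Pool.Agent.Lib.MP_aad418_lc.FMd

/-! Finitely many classes with a definable property: traces on a nowhere dense class. -/

set_option autoImplicit false

namespace Pool.Agent.Lib.MP_aad418_lc.FM

open Set Topology FirstOrder Pool.Agent.Lib.MP_6cbb02_lc Pool.Agent.Lib.MP_aad418_lc.FQ

theorem isPi01_point (ρ : List Bool) : IsPi01 {ext ρ} := by
  refine isPi01_iff.2 ⟨fun τ => τ = restrict (ext ρ) τ.length,
    Lim.eq (by fun_prop) (by fun_prop), Set.ext fun y => ⟨?_, fun h => funext fun i => ?_⟩⟩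
  · rintro rfl n
    simp
  · have : restrict y (i + 1) = restrict (ext ρ) (restrict y (i + 1)).length := h (i + 1)
    rw [length_restrict] at this
    exact MP_6cbb02_lc.restrict_eq_iff.1 this i (Nat.lt_succ_self i)

theorem interior_point (p : ℕ → Bool) : interior ({p} : Set (ℕ → Bool)) = ∅ := by
  refine eq_empty_iff_forall_notMem.2 fun z hz => ?_
  obtain ⟨k, hk⟩ := mem_nhds_cantor.1 (mem_interior_iff_mem_nhds.1 hz)
  have h1 : z = p := hk z fun _ _ => rfl
  have h2 : Function.update z k (!z k) = p := hk _ fun i hi => Function.update_of_ne hi.ne _ _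
  have h3 := congrFun (h2.trans h1.symm) k
  simp at h3

theorem exists_wit (Q R : EPi) : ∃ T : EPi, interior T.1 = ∅ ∧ (¬ Q ≤ R → T ≤ Q ∧ ¬ T ≤ R) := by
  by_cases h : Q ≤ R
  · exact ⟨emp, interior_empty, fun e => absurd h e⟩
  obtain ⟨y, y1, y2⟩ := not_subset.1 h
  obtain ⟨U, -, u1, u2⟩ := exists_nhd R.2.isClosed.isOpen_compl y2
  by_cases e : interior (Q.inter U).1 = ∅
  · exact ⟨Q.inter U, e, fun _ => ⟨inter_subset_left, fun f => y2 (f ⟨y1, u1⟩)⟩⟩
  obtain ⟨x, hx⟩ := nonempty_iff_ne_empty.2 e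
  obtain ⟨k, hk⟩ := mem_nhds_cantor.1 (mem_interior_iff_mem_nhds.1 hx)
  have h1 := hk (ext (restrict x k)) fun i hi => ext_restrict hi
  exact ⟨⟨_, isPi01_point (restrict x k)⟩, interior_point _, fun _ =>
    ⟨singleton_subset_iff.2 h1.1, fun f => u2 h1.2 (f rfl)⟩⟩

theorem dfn_finite_all {n : ℕ} {r : (Fin n → EPi) → EPi → Prop}
    (h : Dfn fun w : Option (Fin n) → EPi => r (fun a => w (some a)) (w none)) :
    Dfn fun v : Fin n → EPi => {Q | r v Q}.Finite := by
  have h0 : Dfn fun w : Option (Option (Fin (n + 1))) → EPi =>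
      r (fun a => w (some (some a.succ))) (w none) :=
    h.reindex (Option.map fun a => some a.succ)
  have h1 := (dfn_finite (n := n + 1) (r := fun v T => T ≤ v 0 ∧ ∃ Q, r (fun a => v a.succ) Q ∧
      T ≤ Q ∧ ∀ S, S ≤ v 0 → S ≤ Q → S ≤ T)
    ((Dfn.le none (some 0)).and (Dfn.ex (p := fun w Q => r (fun a => w (some a.succ)) Q ∧
      w none ≤ Q ∧ ∀ S, S ≤ w (some 0) → S ≤ Q → S ≤ w none) (h0.and ((Dfn.le _ _).and
        (Dfn.all ((Dfn.le _ _).imp ((Dfn.le _ _).imp (Dfn.le _ _)))))))) 0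
      fun _ _ e => e.1).reindex (Fin.cons none some : Fin (n + 1) → Option (Fin n))
  have h2 : Dfn fun w : Option (Fin n) → EPi => interior (w none).1 = ∅ ∧
      {T | T ≤ w none ∧ ∃ Q, r (fun a => w (some a)) Q ∧ T ≤ Q ∧
        ∀ S, S ≤ w none → S ≤ Q → S ≤ T}.Finite := h1.of_iff fun w => by simp
  have h3 : Dfn fun w : Option (Option (Fin n)) → EPi =>
      r (fun a => w (some (some a))) (w none) := h.reindex (Option.map some)
  have h4 : Dfn fun w : Option (Option (Option (Fin n))) → EPi =>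
      r (fun a => w (some (some (some a)))) (w none) :=
    h.reindex (Option.map fun a => some (some a))
  refine (Dfn.ex (p := fun v N => (∀ Q : EPi, r v Q → ∀ R : EPi, r v R →
      (∀ S, S ≤ N → S ≤ Q → S ≤ R) → Q ≤ R) ∧ interior N.1 = ∅ ∧
    {T | T ≤ N ∧ ∃ Q, r v Q ∧ T ≤ Q ∧ ∀ S, S ≤ N → S ≤ Q → S ≤ T}.Finite)
    ((Dfn.all (h3.imp (Dfn.all (h4.imp ((Dfn.all ((Dfn.le _ _).imp ((Dfn.le _ _).imp
      (Dfn.le _ _)))).imp (Dfn.le _ _)))))).and h2)).of_iff fun v =>
      ⟨fun ⟨N, a, _, b⟩ => ?_, fun e => ?_⟩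
  · have key : ∀ Q R : EPi, r v Q → r v R → Q.inter N = R.inter N → Q ≤ R :=
      fun Q R q1 q2 q3 => a Q q1 R q2 fun S s1 s2 x hx =>
        (show x ∈ (R.inter N).1 from q3 ▸ ⟨s2 hx, s1 hx⟩).1
    refine Finite.of_finite_image (f := fun Q : EPi => Q.inter N) (b.subset ?_)
      fun Q q1 R q2 q3 => le_antisymm (key Q R q1 q2 q3) (key R Q q2 q1 q3.symm)
    rintro _ ⟨Q, e, rfl⟩
    exact ⟨inter_subset_right, Q, e, inter_subset_left, fun S s1 s2 => subset_inter s2 s1⟩
  · choose g g1 g2 using exists_wit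
    obtain ⟨N, a, b⟩ := exists_nd ((e.prod e).image fun z : EPi × EPi => g z.1 z.2)
    refine ⟨N, fun Q q1 R q2 q3 => by_contra fun f => (g2 Q R f).2
      (q3 _ (b _ ⟨(Q, R), ⟨q1, q2⟩, rfl⟩ (g1 Q R)) (g2 Q R f).1), a,
      (e.image fun Q : EPi => Q.inter N).subset ?_⟩
    rintro T ⟨t1, Q, t2, t3, t4⟩
    exact ⟨Q, t2, le_antisymm (t4 _ inter_subset_right inter_subset_left) (subset_inter t3 t1)⟩

theorem formula_all {n : ℕ} (φ : Language.order.Formula (Option (Fin n))) :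
    letI := Language.orderStructure EPi
    ∃ ψ : Language.order.Formula (Fin n), ∀ v : Fin n → EPi, ψ.Realize v ↔
      {Q : EPi | φ.Realize fun o => o.elim Q v}.Finite := by
  let := Language.orderStructure EPi
  have h : Dfn fun w : Option (Fin n) → EPi => φ.Realize w := by
    unfold Dfn
    exact empty_definable_iff.2 ⟨φ, rfl⟩
  have h1 := dfn_finite_all (r := fun v Q => φ.Realize fun o => o.elim Q v)
    (h.of_iff fun w => iff_of_eq (congrArg _ (funext fun o => by cases o <;> rfl)))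
  unfold Dfn at h1
  obtain ⟨ψ, hψ⟩ := empty_definable_iff.1 h1
  exact ⟨ψ, fun v => (Set.ext_iff.1 hψ v).symm⟩

end Pool.Agent.Lib.MP_aad418_lc.FM
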