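import Pool.Agent.Lib.MP_6cbb02_lc.Dfn

/-! Classes with finitely many subclasses modulo finite sets: the lattice part. -/

set_option autoImplicit false

namespace Pool.Agent.Lib.MP_aad418_lc.FQ

open Set Topology Pool.Agent.Lib.MP_6cbb02_lc

/-- Inclusion modulo a finite set. -/
def Sb (A B : Set (ℕ → Bool)) : Prop := (A \ B).Finite

/-- Finitely many subclasses modulo finite sets. -/
def FinQ (P : EPi) : Prop :=
  ∃ S : Set EPi, S.Finite ∧ ∀ Q : EPi, Q ≤ P → ∃ R ∈ S, Sb Q.1 R.1 ∧ Sb R.1 Q.1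

variable {A B C : Set (ℕ → Bool)}

theorem Sb.of_subset (h : A ⊆ B) : Sb A B := by
  rw [Sb, sdiff_eq_empty.2 h]
  exact finite_empty

theorem Sb.trans (h : Sb A B) (h' : Sb B C) : Sb A C :=
  (Finite.union h h').subset fun x hx => by
    by_cases e : x ∈ B
    · exact .inr ⟨e, hx.2⟩
    · exact .inl ⟨hx.1, e⟩

theorem Sb.union (h : Sb A C) (h' : Sb B C) : Sb (A ∪ B) C :=
  (Finite.union h h').subset fun _ hx => hx.1.imp (fun e => ⟨e, hx.2⟩) fun e => ⟨e, hx.2⟩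

theorem Sb.inter (h : Sb A B) (h' : Sb A C) : Sb A (B ∩ C) :=
  (Finite.union h h').subset fun x hx => by
    by_cases e : x ∈ B
    · exact .inr ⟨hx.1, fun e' => hx.2 ⟨e, e'⟩⟩
    · exact .inl ⟨hx.1, e⟩

theorem derived_fin (h : A.Finite) : derivedSet A = ∅ :=
  eq_empty_iff_forall_notMem.2 fun _ hx => Infinite.of_accPt hx h

theorem fin_of_derived (h : IsClosed A) (h' : Disjoint A (derivedSet B)) : (A ∩ B).Finite := by
  by_contra hc
  obtain ⟨x, h1, h2⟩ := Infinite.exists_accPt_of_subset_isCompact hc h.isCompact inter_subset_left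
  exact disjoint_left.1 h' h1 (derivedSet_mono _ _ inter_subset_right h2)

theorem derived_empty_iff (h : IsClosed A) : derivedSet A = ∅ ↔ A.Finite :=
  ⟨fun e => by simpa using fin_of_derived (B := A) h (by simp [e]), derived_fin⟩

theorem Sb.derived (h : Sb A B) : derivedSet A ⊆ derivedSet B := by
  have h1 := derivedSet_mono A (B ∪ A \ B) fun x hx => by
    by_cases e : x ∈ B
    · exact .inl e
    · exact .inr ⟨hx, e⟩
  rwa [derivedSet_union, derived_fin h, union_empty] at h1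

/-- The finitely many exceptional points are cut off by a clopen set. -/
theorem Sb.split (P : EPi) (hB : IsClosed B) (h : Sb P.1 B) :
    ∃ F Q : EPi, F.1.Finite ∧ Q.1 ⊆ B ∧ P.1 ⊆ F.1 ∪ Q.1 := by
  obtain ⟨U, h1, h2, h3⟩ := exists_clopen_of_closed_subset_open (Finite.isClosed h)
    hB.isOpen_compl fun _ hx => hx.2
  refine ⟨P.inter (.ofClopen h1), P.inter (.ofClopen h1.compl),
    Finite.subset h fun x hx => ⟨hx.1, h3 hx.2⟩, fun x hx => ?_, fun x hx => ?_⟩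
  · by_contra e
    exact hx.2 (h2 ⟨hx.1, e⟩)
  · by_cases e : x ∈ U
    · exact .inl ⟨hx, e⟩
    · exact .inr ⟨hx, e⟩

theorem sb_iff (P Q : EPi) :
    Sb P.1 Q.1 ↔ ∃ F : EPi, F.1.Finite ∧ ∀ S : EPi, F ≤ S → Q ≤ S → P ≤ S := by
  constructor
  · intro h
    obtain ⟨F, R, h1, h2, h3⟩ := Sb.split P Q.2.isClosed h
    exact ⟨F, h1, fun S e1 e2 => h3.trans (union_subset e1 (h2.trans e2))⟩
  · rintro ⟨F, h1, h2⟩
    exact h1.subset fun x hx =>
      (h2 (F.union Q) subset_union_left subset_union_right hx.1).resolve_right hx.2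

/-- The empty class. -/
def emp : EPi := .ofClopen isClopen_empty

theorem finQ_emp : FinQ emp :=
  ⟨{emp}, finite_singleton _, fun _ h => ⟨emp, rfl, .of_subset h, .of_subset (empty_subset _)⟩⟩

theorem FinQ.of_sb {a c : EPi} (h : FinQ a) (hc : Sb c.1 a.1) : FinQ c := by
  obtain ⟨S, h1, h2⟩ := h
  refine ⟨S, h1, fun Q hQ => ?_⟩
  obtain ⟨R, e1, e2, e3⟩ := h2 (Q.inter a) inter_subset_right
  exact ⟨R, e1, ((Sb.of_subset subset_rfl).inter ((Sb.of_subset hQ).trans hc)).trans e2,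
    e3.trans (.of_subset inter_subset_left)⟩

theorem FinQ.union {a b : EPi} (h : FinQ a) (h' : FinQ b) : FinQ (a.union b) := by
  obtain ⟨S, h1, h2⟩ := h
  obtain ⟨T, h3, h4⟩ := h'
  refine ⟨image2 EPi.union S T, h1.image2 _ h3, fun Q hQ => ?_⟩
  obtain ⟨R, e1, e2, e3⟩ := h2 (Q.inter a) inter_subset_right
  obtain ⟨R', f1, f2, f3⟩ := h4 (Q.inter b) inter_subset_right
  refine ⟨_, mem_image2_of_mem e1 f1, (Sb.of_subset (B := Q.1 ∩ a.1 ∪ Q.1 ∩ b.1) fun x hx =>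
    (hQ hx).imp (fun e => ⟨hx, e⟩) fun e => ⟨hx, e⟩).trans
      ((e2.trans (.of_subset subset_union_left)).union (f2.trans (.of_subset subset_union_right))),
    (e3.trans (.of_subset inter_subset_left)).union (f3.trans (.of_subset inter_subset_left))⟩

theorem FinQ.cover {a c : EPi} (h : FinQ a) (hac : a ≤ c)
    (hc : ∀ y : EPi, a ≤ y → y ≤ c → Sb y.1 a.1 ∨ Sb c.1 y.1) : FinQ c := by
  obtain ⟨S, h1, h2⟩ := h
  let T : EPi → EPi → Prop := fun y r =>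
    y ≤ c ∧ Sb c.1 (a.1 ∪ y.1) ∧ Sb (y.1 ∩ a.1) r.1 ∧ Sb r.1 (y.1 ∩ a.1)
  have hT : ∀ y y' r, T y r → T y' r → Sb y.1 y'.1 := fun y y' r e e' =>
    (Finite.union e'.2.1 (e.2.2.1.trans e'.2.2.2)).subset fun x hx => by
      by_cases hxa : x ∈ a.1
      · exact .inr ⟨⟨hx.1, hxa⟩, fun f => hx.2 f.1⟩
      · exact .inl ⟨e.1 hx.1, fun f => f.elim hxa hx.2⟩
  have hg : ∀ r, ∃ y, (∃ y', T y' r) → T y r := fun r => by
    by_cases e : ∃ y', T y' r
    · exact ⟨e.choose, fun _ => e.choose_spec⟩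
    · exact ⟨c, fun e' => absurd e' e⟩
  choose g hg using hg
  refine ⟨S ∪ g '' S, h1.union (h1.image g), fun y hy => ?_⟩
  obtain ⟨r, e1, e2, e3⟩ := h2 (y.inter a) inter_subset_right
  rcases hc (a.union y) subset_union_left (union_subset hac hy) with e | e
  · exact ⟨r, .inl e1, ((Sb.of_subset subset_rfl).inter
      ((Sb.of_subset subset_union_right).trans e)).trans e2,
        e3.trans (.of_subset inter_subset_left)⟩
  · have t : T y r := ⟨hy, e, e2, e3⟩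
    exact ⟨g r, .inr (mem_image_of_mem g e1), hT _ _ r t (hg r ⟨y, t⟩), hT _ _ r (hg r ⟨y, t⟩) t⟩

theorem FinQ.derived {P : EPi} (h : FinQ P) : (derivedSet P.1).Finite := by
  obtain ⟨S, h1, h2⟩ := h
  refine Finite.of_finite_image (f := fun x => {R ∈ S | x ∈ derivedSet R.1})
    (h1.finite_subsets.subset ?_) fun x hx y _ e => ?_
  · rintro _ ⟨x, -, rfl⟩
    exact sep_subset _ _
  by_contra hc
  obtain ⟨U, e0, e1, e2⟩ := exists_nhd (isOpen_compl_singleton (x := y)) hc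
  obtain ⟨R, f1, f2, f3⟩ := h2 (U.inter P) inter_subset_right
  have a2 : R ∈ {R ∈ S | y ∈ derivedSet R.1} := by
    have e' : {R ∈ S | x ∈ derivedSet R.1} = {R ∈ S | y ∈ derivedSet R.1} := e
    rw [← e']
    exact ⟨f1, f2.derived (AccPt.nhds_inter hx (e0.2.mem_nhds e1))⟩
  have a3 := (isClosed_iff_derivedSet_subset _).1 (U.inter P).2.isClosed (f3.derived a2.2)
  exact e2 a3.1 rfl

theorem exists_min (T : Set EPi) (hT : T.Nonempty) (N : EPi → ℕ) :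
    ∃ c ∈ T, ∀ y ∈ T, ¬ N y < N c :=
  (InvImage.wf N Nat.lt_wfRel.wf).has_min T hT

theorem FinQ.exists_cover {P : EPi} (h : FinQ P) (a : EPi) (ha : a ≤ P) (hn : ¬ Sb P.1 a.1) :
    ∃ c : EPi, c ≤ P ∧ a ≤ c ∧ ¬ Sb c.1 a.1 ∧
      ∀ y : EPi, a ≤ y → y ≤ c → Sb y.1 a.1 ∨ Sb c.1 y.1 := by
  obtain ⟨S, h1, h2⟩ := h
  obtain ⟨c, ⟨c1, c2, c3⟩, hc⟩ := exists_min {c | c ≤ P ∧ a ≤ c ∧ ¬ Sb c.1 a.1}
    ⟨P, le_rfl, ha, hn⟩ fun c => {r ∈ S | Sb r.1 c.1}.ncard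
  refine ⟨c, c1, c2, c3, fun y y1 y2 => ?_⟩
  by_contra e
  obtain ⟨e1, e2⟩ := not_or.1 e
  obtain ⟨r, f1, f2, f3⟩ := h2 c c1
  refine hc y ⟨y2.trans c1, y1, e1⟩ (ncard_lt_ncard ⟨fun s hs =>
    ⟨hs.1, hs.2.trans (.of_subset y2)⟩, fun hs => ?_⟩ (h1.subset (sep_subset _ _)))
  exact e2 (f2.trans (hs ⟨f1, f3⟩).2)

theorem FinQ.exists_top {P : EPi} (h : FinQ P) {K : Set (ℕ → Bool)} (hK : K ⊆ P.1) :
    ∃ Q : EPi, Q.1 ⊆ K ∧ ∀ R : EPi, R.1 ⊆ K → Sb R.1 Q.1 := by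
  obtain ⟨S, h1, h2⟩ := h
  obtain ⟨c, c1, hc⟩ := exists_min {c | c.1 ⊆ K} ⟨emp, empty_subset _⟩
    fun c => {r ∈ S | ¬ Sb r.1 c.1}.ncard
  refine ⟨c, c1, fun y hy => ?_⟩
  by_contra e
  obtain ⟨r, f1, f2, f3⟩ := h2 y (hy.trans hK)
  refine hc (c.union y) (union_subset c1 hy) (ncard_lt_ncard ⟨fun s hs =>
    ⟨hs.1, fun f => hs.2 (f.trans (.of_subset subset_union_left))⟩, fun hs => ?_⟩
      (h1.subset (sep_subset _ _)))
  exact (hs ⟨f1, fun f => e (f2.trans f)⟩).2 (f3.trans (.of_subset subset_union_right))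

theorem D_one (h : IsClosed A) : D (1 : ℕ) A = derivedSet A := by
  rw [Nat.cast_succ, D_succ h, Nat.cast_zero, D_zero]

theorem D_two (h : IsClosed A) : D (2 : ℕ) A = derivedSet (derivedSet A) := by
  rw [Nat.cast_succ, D_succ h, D_one h]

theorem dfn_fin {α : Type} (i : α) : Dfn fun v : α → EPi => (v i).1.Finite :=
  ((dfn_D_empty 1).reindex fun _ => i).of_iff fun v => by
    rw [D_one (v i).2.isClosed, derived_empty_iff (v i).2.isClosed]

theorem dfn_dfin : Dfn fun v : Unit → EPi => (derivedSet (v ()).1).Finite :=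
  (dfn_D_empty 2).of_iff fun v => by
    rw [D_two (v ()).2.isClosed, derived_empty_iff (isClosed_derivedSet _)]

theorem dfn_sb {α : Type} (i j : α) : Dfn fun v : α → EPi => Sb (v i).1 (v j).1 :=
  (Dfn.ex (p := fun v F => F.1.Finite ∧ ∀ S : EPi, F ≤ S → v j ≤ S → v i ≤ S)
    ((dfn_fin _).and (Dfn.all ((Dfn.le _ _).imp ((Dfn.le _ _).imp (Dfn.le _ _)))))).of_iff
      fun _ => (sb_iff _ _).symm

theorem dfn_cov : Dfn fun v : Unit → EPi => ∀ a : EPi, a ≤ v () → ¬ Sb (v ()).1 a.1 →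
    ∃ c : EPi, c ≤ v () ∧ a ≤ c ∧ ¬ Sb c.1 a.1 ∧
      ∀ y : EPi, a ≤ y → y ≤ c → Sb y.1 a.1 ∨ Sb c.1 y.1 :=
  Dfn.all ((Dfn.le _ _).imp ((dfn_sb _ _).not.imp (Dfn.ex ((Dfn.le _ _).and ((Dfn.le _ _).and
    ((dfn_sb _ _).not.and (Dfn.all ((Dfn.le _ _).imp ((Dfn.le _ _).imp
      ((dfn_sb _ _).or (dfn_sb _ _)))))))))))

theorem dfn_top (m : ℕ) : Dfn fun v : Unit → EPi => ∀ u : Par m → EPi, Fam m u ⊆ (v ()).1 →
    ∃ Q : EPi, Q.1 ⊆ Fam m u ∧ ∀ R : EPi, R.1 ⊆ Fam m u → Sb R.1 Q.1 :=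
  Dfn.allFin (β := Par m) (p := fun v u => Fam m u ⊆ (v ()).1 →
    ∃ Q : EPi, Q.1 ⊆ Fam m u ∧ ∀ R : EPi, R.1 ⊆ Fam m u → Sb R.1 Q.1)
    ((((DSet.fam m).reindex Sum.inr).subset (DSet.var _)).imp (Dfn.ex
      (((DSet.var none).subset ((DSet.fam m).reindex fun a => some (Sum.inr a))).and (Dfn.all
        (((DSet.var none).subset ((DSet.fam m).reindex fun a => some (some (Sum.inr a)))).imp
          (dfn_sb _ _))))))

end Pool.Agent.Lib.MP_aad418_lc.FQ
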