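import Mathlib

/-! Truth at a diagonal element of a finite power is eventually constant. -/

namespace Pool.Agent.Lib.MP_aad418_lc

open FirstOrder FirstOrder.Language

/-- The fibres of `f` and `g` have the same size up to `N`. -/
def FVsim {I J T : Type} (N : ℕ) (f : I → T) (g : J → T) : Prop :=
  ∀ t, min N (f ⁻¹' {t}).ncard = min N (g ⁻¹' {t}).ncard

section

variable {I J T T' : Type} {N N' : ℕ} {f : I → T} {g : J → T}

theorem FVsim.symm (h : FVsim N f g) : FVsim N g f := fun t => (h t).symm

theorem FVsim.mono (h : FVsim N f g) (hN : N' ≤ N) : FVsim N' f g := fun t => by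
  have := h t
  omega

theorem FVsim.comp [Finite I] [Finite J] [Finite T] (h : FVsim N f g) (p : T → T') :
    FVsim N (fun i => p (f i)) fun j => p (g j) := by
  have key : ∀ S : Set T, min N (f ⁻¹' S).ncard = min N (g ⁻¹' S).ncard := fun S => by
    induction S, S.toFinite using Set.Finite.induction_on with
    | empty => simp
    | @insert t S ht _ ih =>
      have d := Set.disjoint_singleton_left.2 ht
      have := h t
      rw [Set.insert_eq, Set.preimage_union, Set.preimage_union,
        Set.ncard_union_eq (d.preimage f), Set.ncard_union_eq (d.preimage g)]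
      omega
  exact fun t => key (p ⁻¹' {t})

theorem FVsim.all [Finite I] [Finite J] {f : I → Prop} {g : J → Prop} (h : FVsim 1 f g) :
    (∀ i, f i) ↔ ∀ j, g j := by
  have key : ∀ {K : Type} [Finite K] (p : K → Prop),
      (∀ i, p i) ↔ (p ⁻¹' {False}).ncard = 0 := fun p => by
    rw [Set.ncard_eq_zero, Set.eq_empty_iff_forall_notMem]
    simp
  have := h False
  rw [key, key]
  omega

theorem FV_core [Finite I] [Finite J] [Finite T] (f : I → T)
    (h : min (N * Nat.card T + 1) (Nat.card I) = min (N * Nat.card T + 1) (Nat.card J)) :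
    ∃ g : J → T, (∀ j, ∃ i, g j = f i) ∧ FVsim N f g := by
  classical
  by_cases e : Nat.card J = Nat.card I
  · obtain ⟨e⟩ := Finite.card_eq.1 e
    refine ⟨f ∘ e, fun j => ⟨_, rfl⟩, fun t => ?_⟩
    rw [Set.preimage_comp, Set.ncard_preimage_of_injective_subset_range e.injective (by simp)]
  have := Fintype.ofFinite T
  have := Fintype.ofFinite I
  obtain ⟨t₀, h₀⟩ := Fintype.exists_lt_card_fiber_of_mul_lt_card f (n := N)
    (by rw [← Nat.card_eq_fintype_card, ← Nat.card_eq_fintype_card, mul_comm]; omega)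
  replace h₀ : N < (f ⁻¹' {t₀}).ncard := by
    rw [Set.ncard_eq_toFinset_card']
    convert h₀ using 2
    ext
    simp
  obtain ⟨e⟩ : Nonempty ((Σ t, Fin (min N (f ⁻¹' {t}).ncard)) ↪ J) := by
    have := Fintype.ofFinite J
    refine Function.Embedding.nonempty_of_card_le ?_
    have k : ∑ t, min N (f ⁻¹' {t}).ncard ≤ Fintype.card T • N :=
      Finset.sum_le_card_nsmul _ _ _ fun t _ => min_le_left _ _
    rw [smul_eq_mul, mul_comm, ← Nat.card_eq_fintype_card] at k
    simp only [Fintype.card_sigma, Fintype.card_fin]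
    rw [← Nat.card_eq_fintype_card]
    omega
  have c : ∀ t, (e '' (Sigma.fst ⁻¹' {t})).ncard = min N (f ⁻¹' {t}).ncard := fun t => by
    rw [Set.ncard_image_of_injective _ e.injective, ← Set.range_sigmaMk,
      Set.ncard_range_of_injective sigma_mk_injective, Nat.card_fin]
  have s : ∀ t, e '' (Sigma.fst ⁻¹' {t}) ⊆ Function.extend e Sigma.fst (fun _ => t₀) ⁻¹' {t} := by
    rintro t _ ⟨k, hk, rfl⟩
    exact (e.injective.extend_apply _ _ k).trans hk
  refine ⟨Function.extend e Sigma.fst fun _ => t₀, fun j => ?_, fun t => ?_⟩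
  · by_cases hj : ∃ k, e k = j
    · obtain ⟨k, rfl⟩ := hj
      obtain ⟨i, hi⟩ := Set.nonempty_of_ncard_ne_zero (s := f ⁻¹' {k.1}) (by have := k.2.2; omega)
      exact ⟨i, (e.injective.extend_apply _ _ k).trans hi.symm⟩
    · obtain ⟨i, hi⟩ := Set.nonempty_of_ncard_ne_zero (s := f ⁻¹' {t₀}) (by omega)
      exact ⟨i, (Function.extend_apply' _ _ _ hj).trans hi.symm⟩
  · by_cases ht : t = t₀
    · have := Set.ncard_le_ncard (s t)
      rw [c] at this
      subst ht
      omega
    · rw [← (s t).antisymm fun j hj => ?_, c]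
      · omega
      by_cases k : ∃ k, e k = j
      · obtain ⟨k, rfl⟩ := k
        exact ⟨k, (e.injective.extend_apply _ _ k).symm.trans hj, rfl⟩
      · exact absurd ((Function.extend_apply' _ _ _ k).symm.trans hj).symm ht

theorem FV_lift [Finite I] [Finite J] [Finite T] {f' : I → Set T} {g' : J → Set T}
    (h : FVsim (N * Nat.card T + 1) f' g') (hf : ∀ i, f i ∈ f' i) :
    ∃ g : J → T, (∀ j, g j ∈ g' j) ∧ FVsim N f g := by
  choose G h1 h2 using fun s => FV_core (N := N) (I := f' ⁻¹' {s}) (J := g' ⁻¹' {s})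
    (fun i => f i.1) (h s)
  refine ⟨fun j => G (g' j) ⟨j, rfl⟩, fun j => ?_, ?_⟩
  · obtain ⟨i, hi⟩ := h1 (g' j) ⟨j, rfl⟩
    have := hf i.1
    rwa [show f' i.1 = g' j from i.2, ← hi] at this
  · refine FVsim.comp (f := fun i => (f' i, f i)) (g := fun j => (g' j, G (g' j) ⟨j, rfl⟩))
      (fun ⟨s, t⟩ => ?_) Prod.snd
    have := h2 s t
    rw [← Set.ncard_image_of_injective _ Subtype.val_injective,
      ← Set.ncard_image_of_injective (G s ⁻¹' {t}) Subtype.val_injective] at this
    convert this using 3
    · ext i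
      exact ⟨fun k => ⟨⟨i, congrArg Prod.fst k⟩, congrArg Prod.snd k, rfl⟩,
        fun ⟨k, k1, k2⟩ => k2 ▸ Prod.ext k.2 k1⟩
    · ext j
      constructor
      · intro k
        obtain ⟨rfl, rfl⟩ := Prod.mk.inj k
        exact ⟨⟨j, rfl⟩, rfl, rfl⟩
      · rintro ⟨⟨j, rfl⟩, rfl, rfl⟩
        rfl

end

/-- The value of a term. -/
def FVval {B α : Type} [LE B] (t : Language.order.Term α) (v : α → B) : B :=
  @Term.realize _ B (Language.orderStructure B) _ v t

theorem FVval_apply {A I α : Type} [LE A] {n : ℕ} (t : Language.order.Term (α ⊕ Fin n))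
    (v : α → I → A) (xs : Fin n → I → A) (i : I) :
    FVval t (Sum.elim v xs) i = FVval t (Sum.elim (fun a => v a i) fun k => xs k i) := by
  rcases t with (a | a) | ⟨f, _⟩
  exacts [rfl, rfl, f.elim]

theorem FV_main {A α : Type} [LE A] {n : ℕ} (φ : Language.order.BoundedFormula α n) :
    ∃ (T : Type) (_ : Finite T) (τ : (α → A) → (Fin n → A) → T) (N : ℕ),
      ∀ (I J : Type) [Finite I] [Finite J] (v : α → I → A) (xs : Fin n → I → A)
        (w : α → J → A) (ys : Fin n → J → A),
        FVsim N (fun i => τ (fun a => v a i) fun k => xs k i)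
          (fun j => τ (fun a => w a j) fun k => ys k j) →
        (@BoundedFormula.Realize _ (I → A) (Language.orderStructure _) _ _ φ v xs ↔
          @BoundedFormula.Realize _ (J → A) (Language.orderStructure _) _ _ φ w ys) := by
  induction φ with
  | falsum => exact ⟨Unit, inferInstance, fun _ _ => (), 0, fun _ _ _ _ _ _ _ _ _ => Iff.rfl⟩
  | equal t s =>
    refine ⟨Prop, inferInstance, fun v xs => FVval t (Sum.elim v xs) = FVval s (Sum.elim v xs), 1,
      fun I J _ _ v xs w ys h => ?_⟩
    have := h.all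
    simp only [← FVval_apply, ← funext_iff] at this
    exact this
  | rel R ts =>
    cases R
    refine ⟨Prop, inferInstance,
      fun v xs => FVval (ts 0) (Sum.elim v xs) ≤ FVval (ts 1) (Sum.elim v xs), 1,
      fun I J _ _ v xs w ys h => ?_⟩
    have := h.all
    simp only [← FVval_apply] at this
    exact this
  | imp φ ψ h1 h2 =>
    obtain ⟨T, _, τ, N, h1⟩ := h1
    obtain ⟨T', _, τ', N', h2⟩ := h2
    exact ⟨T × T', inferInstance, fun v xs => (τ v xs, τ' v xs), max N N',
      fun I J _ _ v xs w ys h => imp_congr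
        (h1 I J v xs w ys ((h.comp Prod.fst).mono (le_max_left _ _)))
        (h2 I J v xs w ys ((h.comp Prod.snd).mono (le_max_right _ _)))⟩
  | @all n φ ih =>
    obtain ⟨T, _, τ, N, ih⟩ := ih
    have sn : ∀ {I : Type} (xs : Fin n → I → A) (x : I → A) (i : I),
        (fun k => (Fin.snoc xs x : Fin (n + 1) → I → A) k i) = Fin.snoc (fun k => xs k i) (x i) :=
      fun xs x i => funext fun k => Fin.lastCases (by simp) (fun k => by simp) k
    have key : ∀ (I J : Type) [Finite I] [Finite J] (v : α → I → A) (xs : Fin n → I → A)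
        (w : α → J → A) (ys : Fin n → J → A), FVsim (N * Nat.card T + 1)
          (fun i => Set.range fun b => τ (fun a => v a i) (Fin.snoc (fun k => xs k i) b))
          (fun j => Set.range fun b => τ (fun a => w a j) (Fin.snoc (fun k => ys k j) b)) →
        @BoundedFormula.Realize _ (J → A) (Language.orderStructure _) _ _ φ.all w ys →
          @BoundedFormula.Realize _ (I → A) (Language.orderStructure _) _ _ φ.all v xs := by
      intro I J _ _ v xs w ys h H x
      obtain ⟨g, g1, g2⟩ := FV_lift h fun i => ⟨x i, rfl⟩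
      choose y hy using g1
      refine (ih I J v _ w (Fin.snoc ys y) ?_).2 (H y)
      simpa only [sn, hy] using g2
    exact ⟨Set T, inferInstance, fun v xs => Set.range fun b => τ v (Fin.snoc xs b), _,
      fun I J _ _ v xs w ys h => ⟨key J I w ys v xs h.symm, key I J v xs w ys h⟩⟩

theorem fv {A : Type} [LE A] (φ : Language.order.Formula (Fin 1)) (a : A) : ∃ N : ℕ,
    ∀ k l : ℕ, N ≤ k → N ≤ l →
      (@Formula.Realize _ (Fin k → A) (Language.orderStructure _) _ φ ![fun _ => a] ↔
        @Formula.Realize _ (Fin l → A) (Language.orderStructure _) _ φ ![fun _ => a]) := by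
  obtain ⟨T, _, τ, N, h⟩ := FV_main (A := A) φ
  refine ⟨N, fun k l hk hl => h _ _ _ _ _ _ fun t => ?_⟩
  have e : ∀ (m : ℕ) (xs : Fin 0 → Fin m → A), (fun i : Fin m =>
      τ (fun b => (![fun _ => a] : Fin 1 → Fin m → A) b i) fun j => xs j i) =
        fun _ => τ (fun _ => a) default := fun m xs => funext fun i => by
    congr 1
    · funext b
      simp
    · exact Subsingleton.elim _ _
  rw [e, e]
  by_cases ht : τ (fun _ => a) default = t
  · rw [Set.preimage_const_of_mem (by exact ht), Set.preimage_const_of_mem (by exact ht),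
      Set.ncard_univ, Set.ncard_univ, Nat.card_fin, Nat.card_fin]
    omega
  · rw [Set.preimage_const_of_notMem (by exact ht), Set.preimage_const_of_notMem (by exact ht),
      Set.ncard_empty, Set.ncard_empty]

end Pool.Agent.Lib.MP_aad418_lc
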