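import Pool.Agent.Lib.MP_aad418_lc.Place

/-! The defining formulas. -/

namespace Pool.Agent.Lib.MP_aad418_lc

open Set FirstOrder FirstOrder.Language

/-- Definable in the lattice without parameters. -/
def Df (R : Set X → Prop) : Prop := ∃ φ : Language.order.Formula (Fin 1), ∀ P : EPi,
  @Formula.Realize _ EPi (Language.orderStructure EPi) _ φ ![P] ↔ R P.1

/-- Definable relations in any set of variables. -/
def FD {ι : Type} (p : (ι → EPi) → Prop) : Prop := ∃ φ : Language.order.Formula ι, ∀ v,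
  @Formula.Realize _ EPi (Language.orderStructure EPi) _ φ v ↔ p v

section

variable {ι : Type} {p q : (ι → EPi) → Prop}

theorem FD.of_eq (h : FD p) (e : ∀ v, p v ↔ q v) : FD q :=
  (funext fun v => propext (e v) : p = q) ▸ h

theorem fd_le (i j : ι) : FD fun v : ι → EPi => (v i).1 ⊆ (v j).1 :=
  ⟨Relations.formula₂ leSymb (Term.var i) (Term.var j), fun _ => Iff.rfl⟩

theorem FD.not (h : FD p) : FD fun v => ¬ p v := by
  obtain ⟨φ, h⟩ := h
  exact ⟨φ.not, fun v => not_congr (h v)⟩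

theorem FD.imp (h : FD p) (h' : FD q) : FD fun v => p v → q v := by
  obtain ⟨φ, h⟩ := h
  obtain ⟨ψ, h'⟩ := h'
  exact ⟨φ.imp ψ, fun v => imp_congr (h v) (h' v)⟩

theorem FD.and (h : FD p) (h' : FD q) : FD fun v => p v ∧ q v :=
  (h.imp h'.not).not.of_eq fun _ => by tauto

theorem FD.or (h : FD p) (h' : FD q) : FD fun v => p v ∨ q v :=
  (h.not.imp h').of_eq fun _ => by tauto

theorem fd_all {r : (ι → EPi) → EPi → Prop}
    (h : FD fun w : ι ⊕ Unit → EPi => r (fun i => w (.inl i)) (w (.inr ()))) :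
    FD fun v => ∀ S, r v S := by
  obtain ⟨φ, h⟩ := h
  let := Language.orderStructure EPi
  refine ⟨φ.iAlls Unit, fun v => ?_⟩
  rw [Formula.realize_iAlls]
  exact ⟨fun H S => (h _).1 (H fun _ => S), fun H S => (h _).2 (H (S ()))⟩

theorem fd_ex {r : (ι → EPi) → EPi → Prop}
    (h : FD fun w : ι ⊕ Unit → EPi => r (fun i => w (.inl i)) (w (.inr ()))) :
    FD fun v => ∃ S, r v S :=
  (fd_all (r := fun v S => ¬ r v S) h.not).not.of_eq fun _ => by simp

end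

theorem fd_empty {ι : Type} (i : ι) : FD fun v : ι → EPi => (v i).1 = ∅ :=
  (fd_all (r := fun v S => (v i).1 ⊆ S.1) (fd_le _ _)).of_eq fun _ =>
    ⟨fun h => subset_empty_iff.1 (h ⟨∅, isPi01_of_isClopen isClopen_empty⟩),
      fun h _ => h ▸ empty_subset _⟩

theorem fd_isub {ι : Type} (i j k : ι) : FD fun v : ι → EPi => (v i).1 ∩ (v j).1 ⊆ (v k).1 :=
  (fd_all (r := fun v S => S.1 ⊆ (v i).1 → S.1 ⊆ (v j).1 → S.1 ⊆ (v k).1)
    ((fd_le _ _).imp ((fd_le _ _).imp (fd_le _ _)))).of_eq fun v =>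
    ⟨fun h => h ⟨_, (v i).2.inter (v j).2⟩ inter_subset_left inter_subset_right,
      fun h _ a b => (subset_inter a b).trans h⟩

theorem fd_meet {R : Set X → Prop} (h : ∀ {κ : Type} (i : κ), FD fun v : κ → EPi => R (v i).1)
    {ι : Type} (i j : ι) : FD fun v : ι → EPi => R ((v i).1 ∩ (v j).1) :=
  (fd_all (r := fun v S => S.1 ⊆ (v i).1 → S.1 ⊆ (v j).1 → (v i).1 ∩ (v j).1 ⊆ S.1 → R S.1)
    ((fd_le _ _).imp ((fd_le _ _).imp ((fd_isub _ _ _).imp (h _))))).of_eq fun v =>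
    ⟨fun h => h ⟨_, (v i).2.inter (v j).2⟩ inter_subset_left inter_subset_right Subset.rfl,
      fun h _ a b c => (c.antisymm (subset_inter a b)) ▸ h⟩

theorem fd_disj {ι : Type} (i j : ι) : FD fun v : ι → EPi => (v i).1 ∩ (v j).1 = ∅ :=
  fd_meet (R := fun A => A = ∅) fd_empty i j

theorem fd_clopen {ι : Type} (i : ι) : FD fun v : ι → EPi => IsClopen (v i).1 := by
  refine (fd_ex (r := fun v T => (v i).1 ∩ T.1 = ∅ ∧
    ∀ S : EPi, (v i).1 ⊆ S.1 → T.1 ⊆ S.1 → ∀ W : EPi, W.1 ⊆ S.1) ((fd_disj _ _).and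
      (fd_all ((fd_le _ _).imp ((fd_le _ _).imp (fd_all (fd_le _ _))))))).of_eq fun v =>
    ⟨fun ⟨T, h1, h2⟩ => ⟨(v i).2.isClosed, ?_⟩, fun h => ⟨⟨_, isPi01_of_isClopen h.compl⟩,
      inter_compl_self _, fun S a b W x _ => ?_⟩⟩
  · have h3 := h2 ⟨_, (v i).2.union T.2⟩ subset_union_left subset_union_right
      ⟨univ, isPi01_of_isClopen isClopen_univ⟩
    have h4 : (v i).1 = T.1ᶜ := by
      ext x
      exact ⟨fun a b => (h1 ▸ ⟨a, b⟩ : x ∈ (∅ : Set X)),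
        fun a => (h3 (mem_univ x)).resolve_right a⟩
    rw [h4]
    exact T.2.isClosed.isOpen_compl
  · by_cases hx : x ∈ (v i).1
    exacts [a hx, b hx]

theorem fd_allc {ι : Type} {r : (ι → EPi) → Set X → Prop}
    (h : FD fun w : ι ⊕ Unit → EPi => r (fun i => w (.inl i)) (w (.inr ())).1) :
    FD fun v => ∀ U, IsClopen U → r v U :=
  (fd_all (r := fun v S => IsClopen S.1 → r v S.1) ((fd_clopen _).imp h)).of_eq fun _ =>
    ⟨fun H U hU => H ⟨U, isPi01_of_isClopen hU⟩ hU, fun H S => H S.1⟩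

theorem fd_exc {ι : Type} {r : (ι → EPi) → Set X → Prop}
    (h : FD fun w : ι ⊕ Unit → EPi => r (fun i => w (.inl i)) (w (.inr ())).1) :
    FD fun v => ∃ U, IsClopen U ∧ r v U :=
  (fd_allc (r := fun v S => ¬ r v S) h.not).not.of_eq fun _ => by simp

theorem fd_sub {n : ℕ} (h : ∀ {κ : Type} (i : κ), FD fun v : κ → EPi => D n (v i).1 = ∅)
    {ι : Type} (i : ι) : FD fun v : ι → EPi => (D n (v i).1).Subsingleton := by
  have h' := @fd_meet (fun A => D n A = ∅) h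
  refine (fd_allc (r := fun v V => ∀ W, IsClopen W → V ∩ W = ∅ →
    D n ((v i).1 ∩ V) = ∅ ∨ D n ((v i).1 ∩ W) = ∅)
    (fd_allc ((fd_disj _ _).imp ((h' _ _).or (h' _ _))))).of_eq fun v =>
      ⟨fun H x hx y hy => ?_, fun H V hV W hW e => ?_⟩
  · by_contra hxy
    obtain ⟨k, hk⟩ := exists_cyl isOpen_compl_singleton (show x ∈ ({y}ᶜ : Set X) from hxy)
    have hc := isClopen_cyl (PiNat.res x k)
    rcases H _ hc _ hc.compl (inter_compl_self _) with e | e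
    · rw [D_inter n _ hc] at e
      exact (e ▸ ⟨hx, self_mem_cyl x k⟩ : x ∈ (∅ : Set X))
    · rw [D_inter n _ hc.compl] at e
      exact (e ▸ ⟨hy, fun a => hk a rfl⟩ : y ∈ (∅ : Set X))
  · rw [D_inter n _ hV, D_inter n _ hW]
    by_contra hc
    obtain ⟨a, b⟩ := not_or.1 hc
    obtain ⟨x, x1, x2⟩ := nonempty_iff_ne_empty.2 a
    obtain ⟨y, y1, y2⟩ := nonempty_iff_ne_empty.2 b
    obtain rfl := H x1 y1
    exact (e ▸ ⟨x2, y2⟩ : x ∈ (∅ : Set X))

theorem fd_out {n : ℕ} (h : ∀ {κ : Type} (i : κ), FD fun v : κ → EPi => D n (v i).1 = ∅)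
    {ι : Type} (i j k : ι) : FD fun v : ι → EPi =>
      (v i).1 ∩ (v k).1 ∩ closure (D n (v j).1 \ (v i).1) = ∅ := by
  have h' := @fd_meet (fun A => D n A = ∅) h
  refine (fd_exc (r := fun v W => (v i).1 ∩ (v k).1 ⊆ W ∧ ∀ V, IsClopen V → V ⊆ W →
    V ∩ (v i).1 = ∅ → D n ((v j).1 ∩ V) = ∅) ((fd_isub _ _ _).and
      (fd_allc ((fd_le _ _).imp ((fd_disj _ _).imp (h' _ _)))))).of_eq fun v =>
      ⟨fun ⟨W, hW, h1, h2⟩ => eq_empty_of_forall_notMem fun x hx => ?_, fun H => ?_⟩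
  · obtain ⟨y, y1, y2, y3⟩ := mem_closure_iff.1 hx.2 W hW.isOpen (h1 hx.1)
    obtain ⟨l, hl⟩ := exists_cyl (hW.isOpen.inter (v i).2.isClosed.isOpen_compl)
      (show y ∈ W ∩ (v i).1ᶜ from ⟨y1, y3⟩)
    have e := h2 _ (isClopen_cyl _) (fun z hz => (hl hz).1)
      (eq_empty_of_forall_notMem fun z hz => (hl hz.1).2 hz.2)
    rw [D_inter n _ (isClopen_cyl _)] at e
    exact (e ▸ ⟨y2, self_mem_cyl y l⟩ : y ∈ (∅ : Set X))
  · obtain ⟨W, hW, h1, h2⟩ := exists_clopen_of_closed_subset_open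
      ((v i).2.isClosed.inter (v k).2.isClosed)
      (isClosed_closure (s := D n (v j).1 \ (v i).1)).isOpen_compl
      fun x hx hx' => (H ▸ ⟨hx, hx'⟩ : x ∈ (∅ : Set X))
    refine ⟨W, hW, h1, fun V hV a b => ?_⟩
    rw [D_inter n _ hV]
    exact eq_empty_of_forall_notMem fun y hy => h2 (a hy.2)
      (subset_closure ⟨hy.1, fun c => (b ▸ ⟨hy.2, c⟩ : y ∈ (∅ : Set X))⟩)

theorem fd_step (n : ℕ) (P : EPi) : ((∀ U, IsClopen U → U ⊆ P.1 → U = ∅) ∧
    ∀ Q : EPi, (∀ U, IsClopen U → (D n (P.1 ∩ U)).Subsingleton →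
      P.1 ∩ U ∩ closure (D n Q.1 \ P.1) = ∅) → P.1 ∩ P.1 ∩ closure (D n Q.1 \ P.1) = ∅) ↔
    D (n + 1) P.1 = ∅ := by
  refine ⟨fun ⟨h1, h2⟩ => ?_, fun h => ⟨fun U hU hP => ?_, fun Q hQ => ?_⟩⟩
  · obtain ⟨Q, hQ, e⟩ := place n P.2 (eq_empty_of_forall_notMem fun x hx => by
      obtain ⟨k, hk⟩ := exists_cyl isOpen_interior hx
      exact (h1 _ (isClopen_cyl _) (hk.trans interior_subset) ▸ self_mem_cyl x k :
        x ∈ (∅ : Set X)))
    rw [← e, ← h2 ⟨Q, hQ⟩ fun U hU hs => ?_, inter_self]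
    rw [inter_right_comm, e, ← D_inter (n + 1) _ hU, D_succ]
    exact derived_eq_empty.2 hs.finite
  · exact subset_empty_iff.1 (h ▸ subset_D (n + 1) (open_subset_derived hU.isOpen) hP)
  · refine eq_empty_of_forall_notMem fun x hx => ?_
    have h1 : x ∉ derivedSet (D n P.1) := by rw [← D_succ, h]; exact notMem_empty x
    obtain ⟨k, hk⟩ := not_forall.1 (mt mem_derived.2 h1)
    have h2 : D n (P.1 ∩ cyl (PiNat.res x k)) ⊆ {x} := fun y hy => by
      rw [D_inter n _ (isClopen_cyl _)] at hy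
      by_contra hyx
      have h3 : PiNat.res y (PiNat.res x k).length = PiNat.res x k := hy.2
      rw [PiNat.res_length] at h3
      exact hk ⟨y, hy.1, hyx, h3⟩
    exact (hQ _ (isClopen_cyl _) (subsingleton_singleton.anti h2) ▸
      ⟨⟨hx.1.1, self_mem_cyl x k⟩, hx.2⟩ : x ∈ (∅ : Set X))

theorem fd_rank (n : ℕ) : ∀ {ι : Type} (i : ι), FD fun v : ι → EPi => D n (v i).1 = ∅ := by
  induction n with
  | zero => exact fun i => fd_empty i
  | succ n ih =>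
    intro ι i
    have h := @fd_meet (fun A => (D n A).Subsingleton) (fd_sub ih)
    exact (FD.and (fd_allc (r := fun v U => U ⊆ (v i).1 → U = ∅) ((fd_le _ _).imp (fd_empty _)))
      (fd_all (r := fun v Q => (∀ U, IsClopen U → (D n ((v i).1 ∩ U)).Subsingleton →
        (v i).1 ∩ U ∩ closure (D n Q.1 \ (v i).1) = ∅) →
          (v i).1 ∩ (v i).1 ∩ closure (D n Q.1 \ (v i).1) = ∅)
        ((fd_allc ((h _ _).imp (fd_out ih _ _ _))).imp (fd_out ih _ _ _)))).of_eq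
      fun v => fd_step n (v i)

theorem df_rank (n : ℕ) : Df fun P => D n P = ∅ := by
  obtain ⟨φ, h⟩ := fd_rank n (0 : Fin 1)
  exact ⟨φ, fun P => h ![P]⟩

end Pool.Agent.Lib.MP_aad418_lc
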