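import Pool.Agent.Lib.MP_aad418_lc.Cl

/-! The lattice is isomorphic to its finite powers. -/

namespace Pool.Agent.Lib.MP_aad418_lc

open Set

theorem jn_app_zero (b : Bool) (y : X) : app [b] y 0 = b := by simp [app]

theorem jn_app_succ (b : Bool) (y : X) (i : ℕ) : app [b] y (i + 1) = y i := by simp [app]

theorem jn_eta (x : X) : app [x 0] (fun i => x (i + 1)) = x := by
  funext i
  cases i with
  | zero => exact jn_app_zero _ _
  | succ i => exact jn_app_succ _ _ i

theorem jn_range (x : X) (n : ℕ) :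
    (List.range (n + 1)).map x = x 0 :: (List.range n).map fun i => x (i + 1) := by
  rw [List.range_succ_eq_map, List.map_cons, List.map_map]
  rfl

theorem jn_pre (b : Bool) {P : Set X} (h : IsPi01 P) : IsPi01 (app [b] ⁻¹' P) := by
  obtain ⟨T, hT, hm, rfl⟩ := h
  refine ⟨{s | b :: s ∈ T}, ?_, fun s t hs => hm (b :: s) t hs, ?_⟩
  · obtain ⟨d, hd⟩ := hT
    exact ⟨fun s => d (b :: s), hd.comp
      (Primrec.list_cons.comp (Primrec.const b) Primrec.id).to_comp⟩
  · ext y
    have e : ∀ n, (List.range (n + 1)).map (app [b] y) = b :: (List.range n).map y := fun n => by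
      rw [jn_range, jn_app_zero]
      simp only [jn_app_succ]
    refine ⟨fun hy n => ?_, fun hy n => ?_⟩
    · show b :: _ ∈ T
      rw [← e]
      exact hy (n + 1)
    · cases n with
      | zero => exact hm [] _ (hy 0)
      | succ n =>
        rw [e]
        exact hy n

theorem jn_shift {P : Set X} (h : IsPi01 P) : IsPi01 {x : X | (fun i => x (i + 1)) ∈ P} := by
  obtain ⟨T, hT, hm, rfl⟩ := h
  refine ⟨{s | s.tail ∈ T}, ?_, fun s t hs => ?_, ?_⟩
  · obtain ⟨d, hd⟩ := hT
    exact ⟨fun s => d s.tail, hd.comp Primrec.list_tail.to_comp⟩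
  · cases s with
    | nil => exact hm [] _ hs
    | cons a s => exact hm s t hs
  · ext x
    refine ⟨fun hx n => ?_, fun hx n => ?_⟩
    · cases n with
      | zero => exact hx 0
      | succ n =>
        show ((List.range (n + 1)).map x).tail ∈ T
        rw [jn_range]
        exact hx n
    · have h1 : ((List.range (n + 1)).map x).tail ∈ T := hx (n + 1)
      rw [jn_range] at h1
      exact h1

theorem jn_img (b : Bool) {P : Set X} (h : IsPi01 P) : IsPi01 (app [b] '' P) := by
  have e : app [b] '' P = cyl [b] ∩ {x : X | (fun i => x (i + 1)) ∈ P} := by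
    rw [← range_app]
    ext x
    constructor
    · rintro ⟨y, hy, rfl⟩
      refine ⟨⟨y, rfl⟩, ?_⟩
      show (fun i => app [b] y (i + 1)) ∈ P
      simpa only [jn_app_succ] using hy
    · rintro ⟨⟨y, rfl⟩, hy⟩
      refine ⟨y, ?_, rfl⟩
      have h1 : (fun i => app [b] y (i + 1)) ∈ P := hy
      simpa only [jn_app_succ] using h1
  rw [e]
  exact (clA_cyl _).inter (jn_shift h)

/-- The join of two sets: a copy of `P` above `false` and a copy of `Q` above `true`. -/
def jn (P Q : Set X) : Set X := app [false] '' P ∪ app [true] '' Q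

theorem jn_ne (y z : X) : app [false] y ≠ app [true] z := fun h => by
  have h1 := congrFun h 0
  rw [jn_app_zero, jn_app_zero] at h1
  exact Bool.noConfusion h1

theorem jn_false {P Q : Set X} {y : X} : app [false] y ∈ jn P Q ↔ y ∈ P := by
  constructor
  · rintro (⟨z, hz, e⟩ | ⟨z, -, e⟩)
    · exact app_inj _ e ▸ hz
    · exact (jn_ne _ _ e.symm).elim
  · exact fun h => Or.inl ⟨y, h, rfl⟩

theorem jn_true {P Q : Set X} {y : X} : app [true] y ∈ jn P Q ↔ y ∈ Q := by
  constructor
  · rintro (⟨z, -, e⟩ | ⟨z, hz, e⟩)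
    · exact (jn_ne _ _ e).elim
    · exact app_inj _ e ▸ hz
  · exact fun h => Or.inr ⟨y, h, rfl⟩

theorem jn_D_union (n : ℕ) (A B : Set X) : D n (A ∪ B) = D n A ∪ D n B := by
  induction n with
  | zero => rfl
  | succ n ih => rw [D_succ, D_succ, D_succ, ih, derivedSet_union]

theorem jn_card (n : ℕ) (P Q : Set X) :
    (D n (jn P Q)).encard = (D n P).encard + (D n Q).encard := by
  rw [jn, jn_D_union, D_image n _ (app_cont _) (app_inj _), D_image n _ (app_cont _) (app_inj _),
    encard_union_eq, (app_inj _).encard_image, (app_inj _).encard_image]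
  refine disjoint_left.2 ?_
  rintro x ⟨y, -, rfl⟩ ⟨z, -, e⟩
  exact jn_ne _ _ e.symm

/-- The join as an isomorphism of the square of the lattice with the lattice. -/
def jnIso : EPi × EPi ≃o EPi where
  toFun p := ⟨jn p.1.1 p.2.1, (jn_img false p.1.2).union (jn_img true p.2.2)⟩
  invFun R := (⟨app [false] ⁻¹' R.1, jn_pre false R.2⟩, ⟨app [true] ⁻¹' R.1, jn_pre true R.2⟩)
  left_inv p := Prod.ext (Subtype.ext (Set.ext fun _ => jn_false))
    (Subtype.ext (Set.ext fun _ => jn_true))
  right_inv R := by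
    refine Subtype.ext (Set.ext fun x => ?_)
    show x ∈ jn (app [false] ⁻¹' R.1) (app [true] ⁻¹' R.1) ↔ x ∈ R.1
    have e := jn_eta x
    generalize (fun i => x (i + 1)) = y at e
    generalize x 0 = b at e
    subst e
    cases b with
    | false => exact jn_false
    | true => exact jn_true
  map_rel_iff' := by
    intro p q
    show jn p.1.1 p.2.1 ⊆ jn q.1.1 q.2.1 ↔ p.1.1 ⊆ q.1.1 ∧ p.2.1 ⊆ q.2.1
    exact ⟨fun h => ⟨fun _ hy => jn_false.1 (h (jn_false.2 hy)),
      fun _ hy => jn_true.1 (h (jn_true.2 hy))⟩,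
      fun h => union_subset_union (image_mono h.1) (image_mono h.2)⟩

/-- An isomorphism in the second factor of a product. -/
def jnCongr {A B C : Type} [LE A] [LE B] [LE C] (e : B ≃o C) : A × B ≃o A × C where
  toEquiv := (Equiv.refl A).prodCongr e.toEquiv
  map_rel_iff' := by
    intro p q
    show p.1 ≤ q.1 ∧ e p.2 ≤ e q.2 ↔ p.1 ≤ q.1 ∧ p.2 ≤ q.2
    rw [e.le_iff_le]

theorem pow_iso (k : ℕ) : ∃ e : (Fin (k + 1) → EPi) ≃o EPi, ∀ (P : EPi) (n : ℕ),
    (D n (e fun _ => P).1).encard = (k + 1 : ℕ) * (D n P.1).encard := by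
  induction k with
  | zero =>
    refine ⟨OrderIso.funUnique (Fin 1) EPi, fun P n => ?_⟩
    show (D n P.1).encard = _
    simp
  | succ k ih =>
    obtain ⟨e, he⟩ := ih
    refine ⟨((Fin.consOrderIso fun _ : Fin (k + 1 + 1) => EPi).symm.trans (jnCongr e)).trans
      jnIso, fun P n => ?_⟩
    show (D n (jn P.1 (e fun _ => P).1)).encard = _
    rw [jn_card, he]
    push_cast
    ring

end Pool.Agent.Lib.MP_aad418_lc
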