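import Pool.Agent.Lib.MP_aad418_lc.Cl

/-! A class of complexity two levels lower with the given class as its derived set. -/

namespace Pool.Agent.Lib.MP_aad418_lc

open Set PiNat Encodable

variable {α : Type} [Primcodable α]

/-- A string together with the witnesses of its initial parts. -/
def jM (w : List Bool → ℕ) : List Bool → List (Bool × ℕ)
  | [] => []
  | b :: s => (b, w s) :: jM w s

theorem jM_fst (w : List Bool → ℕ) (s : List Bool) : (jM w s).map Prod.fst = s := by
  induction s with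
  | nil => rfl
  | cons b s ih => rw [jM, List.map_cons, ih]

theorem jM_len (w : List Bool → ℕ) (s : List Bool) : (jM w s).length = s.length := by
  rw [← List.length_map Prod.fst, jM_fst]

/-- The list with a given code. -/
def jd (c : ℕ) : List (Bool × ℕ) := (decode (α := List (Bool × ℕ)) c).getD []

theorem jd_enc (u : List (Bool × ℕ)) : jd (encode u) = u := by simp [jd]

theorem jd_prim : Primrec jd := Primrec.option_getD.comp Primrec.decode (Primrec.const [])

/-- Finite and infinite branches of the tree of witnesses. -/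
def jC (t : List Bool → ℕ → Prop) : Set X := {y | ∀ c c', y c = true →
  encode (jd c) = c ∧ (jd c ≠ [] → t ((jd c).tail.map Prod.fst) ((jd c).headD (false, 0)).2) ∧
    (c' = encode (jd c).tail → y c' = true) ∧ (y c' = true → (jd c).length = (jd c').length → c = c')}

/-- The branch of a point. -/
def jf (w : List Bool → ℕ) (x : X) : X := fun c => decide (c = encode (jM w (res x (jd c).length)))

theorem jf_cont (w : List Bool → ℕ) : Continuous (jf w) :=
  continuous_pi fun c => ((res_lc (jd c).length).comp fun s => decide (c = encode (jM w s))).continuous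

theorem jf_iff {w : List Bool → ℕ} {x : X} {c : ℕ} :
    jf w x c = true ↔ ∃ k, c = encode (jM w (res x k)) := by
  rw [jf, decide_eq_true_iff]
  refine ⟨fun h => ⟨_, h⟩, ?_⟩
  rintro ⟨k, rfl⟩
  rw [jd_enc, jM_len, res_length]

theorem jf_inj (w : List Bool → ℕ) : Function.Injective (jf w) := fun x y h => res_injective <| by
  funext k
  obtain ⟨l, e⟩ := jf_iff.1 (h ▸ jf_iff.2 ⟨k, rfl⟩ : jf w y (encode (jM w (res x k))) = true)
  have e1 := congrArg (List.map Prod.fst) (encode_injective e)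
  rw [jM_fst, jM_fst] at e1
  have e2 := congrArg List.length e1
  rw [res_length, res_length] at e2
  rw [e1, e2]

section
variable {t : List Bool → ℕ → Prop} {w : List Bool → ℕ}

theorem jf_mem {x : X} (h : ∀ k, t (res x k) (w (res x k))) : jf w x ∈ jC t := fun c c' hc => by
  obtain ⟨k, rfl⟩ := jf_iff.1 hc
  rw [jd_enc]
  refine ⟨rfl, ?_, ?_, fun h1 h2 => ?_⟩
  · rcases k with _ | k
    · exact fun e => absurd rfl e
    · intro _
      rw [res_succ, jM, List.tail_cons, jM_fst]
      exact h k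
  · rintro rfl
    rcases k with _ | k
    exacts [jf_iff.2 ⟨0, rfl⟩, jf_iff.2 ⟨k, rfl⟩]
  · obtain ⟨l, rfl⟩ := jf_iff.1 h1
    rw [jd_enc, jM_len, jM_len, res_length, res_length] at h2
    rw [h2]

theorem jf_derived {x : X} (h : jf w x ∈ jC t) : jf w x ∈ derivedSet (jC t) :=
  mem_derived.2 fun k => by
    obtain ⟨N, hN⟩ := ((finite_lt_nat k).image fun c => (jd c).length).bddAbove
    refine ⟨fun c => jf w x c && decide ((jd c).length ≤ N), fun c c' hc => ?_, fun e => ?_,
      res_eq_res.2 fun c hc => by simp only [hN ⟨c, hc, rfl⟩, decide_true, Bool.and_true]⟩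
    · simp only [Bool.and_eq_true, decide_eq_true_eq] at hc ⊢
      obtain ⟨h1, h2, h3, h4⟩ := h c c' hc.1
      refine ⟨h1, h2, fun e => ⟨h3 e, ?_⟩, fun e => h4 e.1⟩
      rw [e, jd_enc, List.length_tail]
      exact (Nat.sub_le _ _).trans hc.2
    · have h1 := congrFun e (encode (jM w (res x (N + 1))))
      rw [jf_iff.2 ⟨N + 1, rfl⟩, jd_enc, jM_len, res_length] at h1
      simp at h1

theorem jC_tail {y : X} (hy : y ∈ jC t) {u : List (Bool × ℕ)} (h : y (encode u) = true) :
    y (encode u.tail) = true := (hy _ _ h).2.2.1 (by rw [jd_enc])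

theorem jC_drop {y : X} (hy : y ∈ jC t) {u : List (Bool × ℕ)} (h : y (encode u) = true) (i : ℕ) :
    y (encode (u.drop i)) = true := by
  induction i with
  | zero => exact h
  | succ i ih => exact List.tail_drop ▸ jC_tail hy ih

theorem jC_eq (hw : ∀ s j, t s j → w s = j) {y : X} (hy : y ∈ jC t) (u : List (Bool × ℕ))
    (h : y (encode u) = true) : jM w (u.map Prod.fst) = u := by
  induction u with
  | nil => rfl
  | cons a u ih =>
    have h1 := (hy _ 0 h).2.1
    rw [jd_enc] at h1
    rw [List.map_cons, jM, ih (jC_tail hy h), hw (u.map Prod.fst) a.2 (h1 (List.cons_ne_nil _ _))]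

theorem jC_derived (hw : ∀ s j, t s j → w s = j) {y : X} (hy : y ∈ jC t)
    (hd : y ∈ derivedSet (jC t)) : ∃ x, (∀ k, ∃ j, t (res x k) j) ∧ jf w x = y := by
  have h1 : ∀ k, ∃ u : List (Bool × ℕ), u.length = k ∧ y (encode u) = true := fun k => by
    by_contra hk
    obtain ⟨N, hN⟩ := ((List.finite_length_le Bool k).image fun s => encode (jM w s)).bddAbove
    obtain ⟨z, hz, h2, h3⟩ := mem_derived.1 hd (N + 1)
    have h4 : ∀ v ∈ jC t, ∀ u : List (Bool × ℕ), v (encode u) = true → u.length ≤ k →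
        z (encode u) = y (encode u) := fun v hv u h5 h6 => res_eq_res.1 h3 (Nat.lt_succ_of_le
      (hN ⟨u.map Prod.fst, by simpa using h6, by simp only [jC_eq hw hv u h5]⟩))
    have h5 : ∀ v ∈ jC t, (v = y ∨ v = z) → ∀ c, v c = true → z c = y c := fun v hv e c hc => by
      have e0 := (hv c 0 hc).1
      rw [← e0] at hc ⊢
      refine h4 v hv _ hc (le_of_not_gt fun hl => hk ?_)
      have h6 := jC_drop hv hc ((jd c).length - k)
      have h7 : ((jd c).drop ((jd c).length - k)).length = k := by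
        rw [List.length_drop]
        omega
      refine ⟨_, h7, ?_⟩
      rcases e with rfl | rfl
      · exact h6
      · exact h4 v hv _ h6 h7.le ▸ h6
    refine h2 (funext fun c => ?_)
    cases e : y c
    · cases e' : z c
      · rfl
      · rw [← e, ← e', h5 z hz (.inr rfl) c e']
    · rw [h5 y hy (.inl rfl) c e, e]
  choose u hu hy1 using h1
  have h2 : ∀ v : List (Bool × ℕ), y (encode v) = true → v = u v.length := fun v hv =>
    encode_injective ((hy _ _ hv).2.2.2 (hy1 _) (by rw [jd_enc, jd_enc, hu]))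
  have h3 : ∀ k, (u (k + 1)).tail = u k := fun k => by
    rw [h2 _ (jC_tail hy (hy1 (k + 1))), List.length_tail, hu, Nat.add_sub_cancel]
  have h4 : ∀ k, u (k + 1) ≠ [] := fun k e => by simpa [e] using hu (k + 1)
  have h5 : ∀ k, res (fun k => ((u (k + 1)).headD (false, 0)).1) k = (u k).map Prod.fst :=
    fun k => by
      induction k with
      | zero => rw [List.length_eq_zero_iff.1 (hu 0)]; rfl
      | succ k ih =>
        obtain ⟨a, v, e⟩ := List.exists_cons_of_ne_nil (h4 k)
        rw [res_succ, ih, ← h3 k, e]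
        rfl
  refine ⟨fun k => ((u (k + 1)).headD (false, 0)).1, fun k => ?_, funext fun c => ?_⟩
  · have h6 := (hy _ 0 (hy1 (k + 1))).2.1
    rw [jd_enc, h3] at h6
    exact ⟨_, h5 k ▸ h6 (h4 k)⟩
  · rw [Bool.eq_iff_iff, jf_iff]
    simp only [h5, jC_eq hw hy _ (hy1 _)]
    refine ⟨?_, fun hc => ⟨(jd c).length, ?_⟩⟩
    · rintro ⟨k, rfl⟩
      exact hy1 k
    · have e := (hy c 0 hc).1
      rw [← h2 (jd c) (e.symm ▸ hc), e]

end

theorem cl_two {m : ℕ} {r : α × (ℕ × Bool) × (ℕ × Bool) → Prop} (h : Ar (m + 1) r) :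
    Cl (m + 1) fun a => {y | ∀ c c', r (a, (c, y c), (c', y c'))} := by
  refine ⟨fun p => ∀ c : ℕ × ℕ, (c.1 < p.2.length ∧ c.2 < p.2.length) →
    r (p.1, (c.1, p.2.reverse.getD c.1 false), (c.2, p.2.reverse.getD c.2 false)), ?_, fun a y => ?_⟩
  · have l : Primrec fun p : (α × List Bool) × ℕ × ℕ => p.1.2 := Primrec.snd.comp .fst
    have c1 : Primrec fun p : (α × List Bool) × ℕ × ℕ => p.2.1 := Primrec.fst.comp .snd
    have c2 : Primrec fun p : (α × List Bool) × ℕ × ℕ => p.2.2 := Primrec.snd.comp .snd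
    have g := fun {f} (hf : Primrec f) =>
      (Primrec.list_getD false).comp (Primrec.list_reverse.comp l) hf
    exact Ar.all (Ar.imp ((Primrec.nat_lt.comp c1 (Primrec.list_length.comp l)).and
      (Primrec.nat_lt.comp c2 (Primrec.list_length.comp l)))
      (h.comp ((Primrec.fst.comp .fst).pair ((c1.pair (g c1)).pair (c2.pair (g c2))))))
  · refine ⟨fun h k c hc => ?_, fun h c c' => ?_⟩
    · rw [res_length] at hc
      simp only [res_getD y hc.1, res_getD y hc.2]
      exact h _ _
    · have h1 : c < c + c' + 1 := by omega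
      have h2 : c' < c + c' + 1 := by omega
      simpa only [res_getD y h1, res_getD y h2] using
        h (c + c' + 1) (c, c') (by simpa only [res_length] using ⟨h1, h2⟩)

theorem cl_jC {m : ℕ} {t : (α × List Bool) × ℕ → Prop} (h : Ar (m + 1) t) :
    Cl (m + 1) fun a => jC fun s j => t ((a, s), j) := by
  have c1 : Primrec fun p : α × (ℕ × Bool) × (ℕ × Bool) => p.2.1.1 :=
    Primrec.fst.comp (Primrec.fst.comp .snd)
  have b1 : Primrec fun p : α × (ℕ × Bool) × (ℕ × Bool) => p.2.1.2 :=
    Primrec.snd.comp (Primrec.fst.comp .snd)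
  have c2 : Primrec fun p : α × (ℕ × Bool) × (ℕ × Bool) => p.2.2.1 :=
    Primrec.fst.comp (Primrec.snd.comp .snd)
  have b2 : Primrec fun p : α × (ℕ × Bool) × (ℕ × Bool) => p.2.2.2 :=
    Primrec.snd.comp (Primrec.snd.comp .snd)
  have u1 := jd_prim.comp c1
  have t1 := Primrec.list_tail.comp u1
  have hd : Primrec fun p : α × (ℕ × Bool) × (ℕ × Bool) => (jd p.2.1.1).headD (false, 0) :=
    ((Primrec.list_getD (false, 0)).comp u1 (Primrec.const 0)).of_eq fun p => by
      cases jd p.2.1.1 <;> rfl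
  have e2 := Primrec.eq.comp b2 (Primrec.const true)
  exact cl_two (r := fun p => p.2.1.2 = true → encode (jd p.2.1.1) = p.2.1.1 ∧
    (jd p.2.1.1 ≠ [] → t ((p.1, (jd p.2.1.1).tail.map Prod.fst), ((jd p.2.1.1).headD (false, 0)).2)) ∧
    (p.2.2.1 = encode (jd p.2.1.1).tail → p.2.2.2 = true) ∧
    (p.2.2.2 = true → (jd p.2.1.1).length = (jd p.2.2.1).length → p.2.1.1 = p.2.2.1))
    (Ar.imp (Primrec.eq.comp b1 (Primrec.const true))
      ((Ar.prim (Primrec.eq.comp (Primrec.encode.comp u1) c1)).and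
      ((Ar.imp (Primrec.eq.comp u1 (Primrec.const [])).not (h.comp ((Primrec.fst.pair
        (Primrec.list_map t1 (Primrec.fst.comp .snd).to₂)).pair (Primrec.snd.comp hd)))).and
      ((Ar.imp (Primrec.eq.comp c2 (Primrec.encode.comp t1)) (Ar.prim e2)).and
      (Ar.imp e2 (Ar.imp (Primrec.eq.comp (Primrec.list_length.comp u1)
        (Primrec.list_length.comp (jd_prim.comp c2))) (Ar.prim (Primrec.eq.comp c1 c2))))))))

theorem jump {m : ℕ} {C : α → Set X} (h : Cl (m + 3) C) : ∃ C' : α → Set X, Cl (m + 1) C' ∧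
    ∀ a, ∃ f : X → X, Continuous f ∧ Function.Injective f ∧ derivedSet (C' a) = f '' C a := by
  classical
  obtain ⟨q, ⟨q1, ⟨q2, h2, e2⟩, e1⟩, e⟩ := h
  have l : Primrec fun p : (α × List Bool) × ℕ => p.1.2 := Primrec.snd.comp .fst
  have n := Primrec.unpair.comp (Primrec.list_length.comp l)
  obtain ⟨t, ht, e3, e4⟩ := (h2.comp ((((Primrec.fst.comp .fst).pair (Primrec.list_drop.comp
    (Primrec.nat_sub.comp (Primrec.list_length.comp l) (Primrec.fst.comp n)) l)).pair
    (Primrec.snd.comp n)).pair .snd)).uniq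
  have e5 : ∀ a x, x ∈ C a ↔ ∀ k, ∃ j, t ((a, res x k), j) := fun a x => by
    simp only [e, e1, e2, ← e3, res_length, res_drop, not_forall, not_not]
    refine ⟨fun h k => h _ _, fun h k i => ?_⟩
    simpa only [Nat.unpair_pair, Nat.sub_sub_self (Nat.left_le_pair k i)] using h (Nat.pair k i)
  have hc := cl_jC ht
  refine ⟨_, hc, fun a => ?_⟩
  have hw : ∀ s j, t ((a, s), j) → Classical.epsilon (fun j => t ((a, s), j)) = j :=
    fun s j h => e4 _ _ _ (Classical.epsilon_spec (p := fun j => t ((a, s), j)) ⟨j, h⟩) h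
  refine ⟨jf fun s => Classical.epsilon fun j => t ((a, s), j), jf_cont _, jf_inj _,
    Subset.antisymm (fun y hy => ?_) ?_⟩
  · obtain ⟨x, h1, h2⟩ := jC_derived hw
      ((isClosed_iff_derivedSet_subset _).1 (hc.isClosed a) hy) hy
    exact ⟨x, (e5 a x).2 h1, h2⟩
  · rintro _ ⟨x, hx, rfl⟩
    exact jf_derived (jf_mem fun k => Classical.epsilon_spec ((e5 a x).1 hx k))

theorem gap_cl (n : ℕ) {C : α → Set X} (h : Cl (2 * n + 1) C) : ∃ R : α → Set X, Cl 1 R ∧ ∀ a,
    ∃ f : X → X, Continuous f ∧ Function.Injective f ∧ D n (R a) = f '' C a := by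
  induction n generalizing C with
  | zero => exact ⟨C, h, fun a => ⟨id, continuous_id, Function.injective_id, (image_id _).symm⟩⟩
  | succ n ih =>
    obtain ⟨C', h1, h2⟩ := jump (m := 2 * n) h
    obtain ⟨R, h3, h4⟩ := ih h1
    refine ⟨R, h3, fun a => ?_⟩
    obtain ⟨f, f1, f2, f3⟩ := h2 a
    obtain ⟨g, g1, g2, g3⟩ := h4 a
    refine ⟨g ∘ f, g1.comp f1, g2.comp f2, ?_⟩
    rw [D_succ, g3, image_comp, ← f3]
    exact D_image 1 _ g1 g2

theorem gap (n : ℕ) {p : α → Prop} (h : Ar (2 * n + 1) p) : ∃ R : α → Set X, Cl 1 R ∧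
    ∀ a, (p a → ∃ A ⊆ R a, A.Nonempty ∧ A ⊆ derivedSet A) ∧ (¬ p a → D n (R a) = ∅) := by
  obtain ⟨R, h1, h2⟩ := gap_cl n (C := fun a => {_x | p a})
    ⟨fun s => p s.1, h.comp .fst, fun a x => ⟨fun h _ => h, fun h => h 0⟩⟩
  refine ⟨R, h1, fun a => ?_⟩
  obtain ⟨f, f1, f2, f3⟩ := h2 a
  refine ⟨fun ha => ⟨f '' univ, ?_, univ_nonempty.image f,
    (image_mono (open_subset_derived isOpen_univ)).trans (f1.image_derivedSet f2)⟩, fun ha => ?_⟩
  · exact (image_mono fun _ _ => ha).trans (f3.ge.trans (D_anti n.zero_le (h1.isClosed a)))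
  · rw [f3, eq_empty_of_forall_notMem (s := {_x | p a}) fun _ => ha, image_empty]

theorem exists_one (n : ℕ) : ∃ W : EPi, (D n W.1).encard = 1 := by
  have h0 : ∀ k, ∀ b ∈ res (fun _ => false) k, b = false := fun k => by
    induction k with
    | zero => simp
    | succ k ih => simpa using ih
  obtain ⟨R, h1, h2⟩ := gap_cl n (C := fun _ : Unit => {fun _ => false})
    ⟨fun s => ∀ b ∈ s.2, b = false, Ar.prim ((Primrec.eq.comp Primrec.id
      (Primrec.const false)).forall_mem_list.comp .snd), fun _ x => ⟨fun h => h ▸ h0,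
        fun h => funext fun k => h (k + 1) _ List.mem_cons_self⟩⟩
  obtain ⟨f, -, -, f3⟩ := h2 ()
  exact ⟨⟨_, h1.isPi01 ()⟩, by rw [f3, image_singleton, encard_singleton]⟩

end Pool.Agent.Lib.MP_aad418_lc
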