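import Pool.Agent.Lib.MP_aad418_lc.PlaceA

/-! The next derivative of a nowhere dense class is a set of limits from outside. -/

namespace Pool.Agent.Lib.MP_aad418_lc

open Set PiNat

theorem pl_res_le (x : X) {k l : ℕ} (h : k ≤ l) : res x k <:+ res x l := by
  have e := res_drop x l (l - k)
  rw [show l - (l - k) = k by omega] at e
  exact e ▸ List.drop_suffix _ _

theorem pl_res_eq {x y : X} {k l : ℕ} (h : k ≤ l) (e : res y l = res x l) : res y k = res x k :=
  res_eq_res.2 fun _ hm => res_eq_res.1 e (lt_of_lt_of_le hm h)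

theorem pl_cyl_mono {s t : List Bool} (h : s <:+ t) : cyl t ⊆ cyl s := by
  obtain ⟨u, rfl⟩ := h
  exact cyl_append u s

theorem pl_mem_cyl {x y : X} {k : ℕ} : y ∈ cyl (res x k) ↔ res y k = res x k := by
  simp [cyl, res_length]

section

variable {B : List Bool → Prop} (hB : ∀ s t, s <:+ t → B t → B s)
include hB

theorem pl_md_eq {d e : List Bool} (hd : plMd B d) (he : plMd B e) (h : d <:+ e) : d = e := by
  cases e with
  | nil => exact (he.1 he.2).elim
  | cons a e =>
    rcases List.suffix_cons_iff.1 h with h | h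
    · exact h
    · exact (hd.1 (hB _ _ h he.2)).elim

theorem pl_q_cyl (R : List Bool → Set X) {d : List Bool} (hd : plMd B d) :
    plQ B R ∩ cyl d = app d '' R d := by
  ext x
  constructor
  · rintro ⟨h1, h2⟩
    have h3 : res x d.length = d := h2
    have h4 := h1 d.length
    rw [h3] at h4
    exact h4 hd
  · intro h
    have h2 : x ∈ cyl d := range_app d ▸ image_subset_range _ _ h
    refine ⟨fun k hk => ?_, h2⟩
    have h3 : res x d.length = d := h2
    have e : res x k = d := by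
      rcases le_total k d.length with c | c
      · exact pl_md_eq hB hk hd (h3 ▸ pl_res_le x c)
      · exact (pl_md_eq hB hd hk (h3 ▸ pl_res_le x c)).symm
    rwa [e]

theorem pl_D_cyl (n : ℕ) (R : List Bool → Set X) {d : List Bool} (hd : plMd B d) :
    D n (plQ B R) ∩ cyl d = app d '' D n (R d) := by
  rw [← D_inter n _ (isClopen_cyl d), pl_q_cyl hB R hd, D_image n _ (app_cont d) (app_inj d)]

end

theorem pl_exists_md {B : List Bool → Prop} (h0 : B []) {y : X} (hy : ¬ ∀ k, B (res y k)) :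
    ∃ k, plMd B (res y k) := by
  by_contra c
  refine hy fun k => ?_
  induction k with
  | zero => exact h0
  | succ k ih =>
    by_contra c2
    exact c ⟨k + 1, c2, ih⟩

theorem pl_not_br {A : Set X} {x : X} {m : ℕ} (h : ∀ y ∈ A, res y m = res x m → y = x)
    {t : List Bool} (ht : res x m <:+ t) : ¬ br A t := by
  rintro ⟨⟨y, hy, cy⟩, ⟨z, hz, cz⟩⟩
  have e1 := h y hy (pl_mem_cyl.1 (pl_cyl_mono (ht.trans (List.suffix_cons _ _)) cy))
  have e2 := h z hz (pl_mem_cyl.1 (pl_cyl_mono (ht.trans (List.suffix_cons _ _)) cz))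
  subst e1
  subst e2
  have a1 : res z (t.length + 1) = false :: t := cy
  have a2 : res z (t.length + 1) = true :: t := cz
  rw [a1] at a2
  simp at a2

theorem pl_bound (B : List Bool → Prop) (t : List Bool) :
    ∃ b : ℕ, ∀ d, plMd B d → t <:+ d → plFst B t d → d.length ≤ b := by
  by_cases h : ∃ e, plMd B e ∧ t <:+ e
  · obtain ⟨e, he⟩ := h
    exact ⟨e.length, fun d _ _ hf => not_lt.1 fun c => hf e ⟨c, he⟩⟩
  · exact ⟨0, fun d h1 h2 _ => (h ⟨d, h1, h2⟩).elim⟩

theorem pl_core (n : ℕ) {P : Set X} (hc : IsClosed P) (hi : interior P = ∅)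
    {B : List Bool → Prop} (hB : ∀ s t, s <:+ t → B t → B s) (h0 : B [])
    (hP : ∀ x, x ∈ P ↔ ∀ k, B (res x k)) {R : List Bool → Set X}
    (hR : ∀ d, (D n (R d)).Nonempty ↔ plP B (D n P) d) :
    P ∩ closure (D n (plQ B R) \ P) = D (n + 1) P := by
  ext x
  constructor
  · rintro ⟨hx, hcl⟩
    by_contra c
    rw [D_succ, mem_derived] at c
    obtain ⟨m, hm⟩ := not_forall.1 c
    have hm' : ∀ y ∈ D n P, res y m = res x m → y = x := fun y hy e => by
      by_contra c2
      exact hm ⟨y, hy, c2, e⟩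
    choose b hb using fun i => pl_bound B (res x i)
    obtain ⟨M, hM1, hM2⟩ : ∃ M, m ≤ M ∧ ∀ i < m, b i ≤ M :=
      ⟨max m ((Finset.range m).sup b), le_max_left _ _, fun i h =>
        (Finset.le_sup (Finset.mem_range.2 h)).trans (le_max_right _ _)⟩
    obtain ⟨y, hy1, hy2, hy3⟩ := mem_closure_iff.1 hcl _ (isClopen_cyl (res x M)).isOpen
      (self_mem_cyl x M)
    have e := pl_mem_cyl.1 hy1
    obtain ⟨j, hj⟩ := pl_exists_md h0 fun h => hy3 ((hP y).2 h)
    have hMj : M < j := not_le.1 fun c2 => hj.1 (pl_res_eq c2 e ▸ (hP x).1 hx j)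
    have h1 : y ∈ app (res y j) '' D n (R (res y j)) :=
      pl_D_cyl hB n R hj ▸ ⟨hy2, self_mem_cyl y j⟩
    obtain ⟨z, hz, -⟩ := h1
    obtain ⟨i, -, hf, hbr⟩ := (hR _).1 ⟨z, hz⟩
    rw [res_drop] at hf hbr
    rcases le_or_gt m (j - i) with c2 | c2
    · exact pl_not_br hm' (pl_res_eq hM1 e ▸ pl_res_le y c2) hbr
    · have e2 : res y (j - i) = res x (j - i) := pl_res_eq (by omega) e
      have h2 := hb (j - i) (res y j) hj (e2 ▸ pl_res_le y (by omega)) (e2 ▸ hf)
      have h3 := hM2 _ c2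
      rw [res_length] at h2
      omega
  · intro hx
    refine ⟨D_anti (Nat.zero_le _) hc hx, mem_closure_iff.2 fun U hU hxU => ?_⟩
    obtain ⟨k, hk⟩ := exists_cyl hU hxU
    rw [D_succ] at hx
    obtain ⟨t, hbr⟩ := br_of_mem hx k
    obtain ⟨w, hw1, hw2⟩ := hbr.1
    have hw3 : w ∈ cyl (t ++ res x k) := pl_cyl_mono (List.suffix_cons _ _) hw2
    have hw4 : w ∈ P := D_anti (Nat.zero_le _) hc hw1
    obtain ⟨y, hy1, hy2⟩ : ∃ y ∈ cyl (t ++ res x k), y ∉ P := by
      by_contra c
      have c2 : cyl (t ++ res x k) ⊆ P := fun y hy => by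
        by_contra c3
        exact c ⟨y, hy, c3⟩
      have c4 := interior_maximal c2 (isClopen_cyl _).isOpen hw3
      rw [hi] at c4
      exact c4
    obtain ⟨j, hj⟩ := pl_exists_md h0 fun h => hy2 ((hP y).2 h)
    have a1 : res y (t ++ res x k).length = t ++ res x k := hy1
    have a2 : res w (t ++ res x k).length = t ++ res x k := hw3
    have hs : t ++ res x k <:+ res y j := by
      rcases le_total j (t ++ res x k).length with c | c
      · exact (hj.1 (hB _ _ (pl_res_le y c) (by rw [a1, ← a2]; exact (hP w).1 hw4 _))).elim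
      · exact a1 ▸ pl_res_le y c
    obtain ⟨d, ⟨hd1, hd2⟩, hmin⟩ := (measure List.length).wf.has_min
      {e | plMd B e ∧ t ++ res x k <:+ e} ⟨_, hj, hs⟩
    have e := List.suffix_iff_eq_drop.1 hd2
    obtain ⟨z, hz⟩ := (hR d).2 ⟨d.length - (t ++ res x k).length,
      List.mem_range.2 (by omega), e ▸ fun u hu => hmin u hu.2 hu.1, e ▸ hbr⟩
    have h1 : app d z ∈ D n (plQ B R) ∩ cyl d := pl_D_cyl hB n R hd1 ▸ mem_image_of_mem _ hz
    refine ⟨app d z, hk (pl_cyl_mono ((List.suffix_append _ _).trans hd2) h1.2), h1.1,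
      fun c => hd1.1 ?_⟩
    have a3 : res (app d z) d.length = d := h1.2
    exact a3 ▸ (hP _).1 c _

theorem place (n : ℕ) {P : Set X} (hP : IsPi01 P) (hi : interior P = ∅) :
    ∃ Q, IsPi01 Q ∧ P ∩ closure (D n Q \ P) = D (n + 1) P := by
  rcases P.eq_empty_or_nonempty with rfl | ⟨x0, hx0⟩
  · exact ⟨∅, hP, by rw [D_empty (n + 1), empty_inter]⟩
  obtain ⟨B, hB1, hB2, hB3⟩ := (hP.cl (α := Unit)).nf
  have hB : PrimrecPred fun s : List Bool => B ((), s) :=
    hB1.comp ((Primrec.const ()).pair Primrec.id)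
  obtain ⟨R, hR1, hR2⟩ := gap n (pl_p_ar hB hP n)
  refine ⟨_, pl_q_pi hB hR1, pl_core n hP.isClosed hi ?_ ((hB3 () x0).1 hx0 0) (hB3 ()) ?_⟩
  · rintro s t ⟨u, rfl⟩
    exact hB2 () u s
  · intro d
    constructor
    · intro h
      by_contra c
      rw [(hR2 d).2 c] at h
      exact not_nonempty_empty h
    · intro h
      obtain ⟨A, h1, h2, h3⟩ := (hR2 d).1 h
      exact h2.mono (subset_D n h3 h1)

end Pool.Agent.Lib.MP_aad418_lc
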