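import Pool.Agent.Lib.MP_aad418_lc.Jump

/-! The class placed above the minimal strings outside a tree: complexity of the data. -/

namespace Pool.Agent.Lib.MP_aad418_lc

open Set PiNat

/-- A minimal string outside the tree `B`. -/
def plMd (B : List Bool → Prop) (d : List Bool) : Prop := ¬ B d ∧ B d.tail

/-- No minimal string outside the tree above `t` is shorter than `d`. -/
def plFst (B : List Bool → Prop) (t d : List Bool) : Prop :=
  ∀ e : List Bool, ¬ (e.length < d.length ∧ plMd B e ∧ t <:+ e)

/-- `d` is a shortest minimal string above a string at which `A` branches. -/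
def plP (B : List Bool → Prop) (A : Set X) (d : List Bool) : Prop :=
  ∃ i ∈ List.range (d.length + 1), plFst B (d.drop i) d ∧ br A (d.drop i)

/-- The classes `R d` placed above the minimal strings `d`. -/
def plQ (B : List Bool → Prop) (R : List Bool → Set X) : Set X :=
  {x | ∀ k, plMd B (res x k) → x ∈ app (res x k) '' R (res x k)}

theorem pl_md_prim {B : List Bool → Prop} (hB : PrimrecPred B) : PrimrecPred (plMd B) :=
  hB.not.and (hB.comp Primrec.list_tail)

theorem pl_above_prim : PrimrecPred fun p : List Bool × List Bool => p.1 <:+ p.2 := by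
  have h : PrimrecPred fun p : List Bool × List Bool =>
      p.1 = p.2.drop (p.2.length - p.1.length) :=
    Primrec.eq.comp Primrec.fst (Primrec.list_drop.comp
      (Primrec.nat_sub.comp (Primrec.list_length.comp Primrec.snd)
        (Primrec.list_length.comp Primrec.fst)) Primrec.snd)
  exact h.of_eq fun p => List.suffix_iff_eq_drop.symm

theorem pl_fst_ar {B : List Bool → Prop} (hB : PrimrecPred B) (m : ℕ) :
    Ar (m + 1) fun p : List Bool × List Bool => plFst B p.1 p.2 := by
  have h : PrimrecPred fun p : (List Bool × List Bool) × List Bool =>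
      ¬ (p.2.length < p.1.2.length ∧ plMd B p.2 ∧ p.1.1 <:+ p.2) :=
    ((Primrec.nat_lt.comp (Primrec.list_length.comp Primrec.snd)
      (Primrec.list_length.comp (Primrec.snd.comp Primrec.fst))).and
      (((pl_md_prim hB).comp Primrec.snd).and
        (pl_above_prim.comp ((Primrec.fst.comp Primrec.fst).pair Primrec.snd)))).not
  exact Ar.all (n := m) (Ar.prim h)

theorem pl_br_ar {P : Set X} (hP : IsPi01 P) (n : ℕ) :
    Ar (2 * n + 1) fun t : List Bool => br (D n P) t := by
  have h := (hP.cl (α := Unit)).ext n
  exact (h.comp (f := fun t : List Bool => ((), false :: t))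
      ((Primrec.const ()).pair (Primrec.list_cons.comp (Primrec.const false) Primrec.id))).and
    (h.comp (f := fun t : List Bool => ((), true :: t))
      ((Primrec.const ()).pair (Primrec.list_cons.comp (Primrec.const true) Primrec.id)))

theorem pl_p_ar {B : List Bool → Prop} (hB : PrimrecPred B) {P : Set X} (hP : IsPi01 P) (n : ℕ) :
    Ar (2 * n + 1) (plP B (D n P)) := by
  have hd : Primrec fun p : List Bool × ℕ => p.1.drop p.2 :=
    Primrec.list_drop.comp Primrec.snd Primrec.fst
  have h : Ar (2 * n + 1) fun p : List Bool × ℕ =>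
      plFst B (p.1.drop p.2) p.1 ∧ br (D n P) (p.1.drop p.2) :=
    ((pl_fst_ar hB (2 * n)).comp (f := fun p : List Bool × ℕ => (p.1.drop p.2, p.1))
      (hd.pair Primrec.fst)).and ((pl_br_ar hP n).comp hd)
  exact h.bex (l := fun d : List Bool => List.range (d.length + 1))
    (Primrec.list_range.comp (Primrec.succ.comp Primrec.list_length))

theorem pl_exists_app (x : X) (k : ℕ) : ∃ y, app (res x k) y = x := by
  have h := self_mem_cyl x k
  rwa [← range_app] at h

theorem pl_res_app {x y : X} {k : ℕ} (h : app (res x k) y = x) (l : ℕ) :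
    res x (l + k) = res y l ++ res x k := by
  have := res_app (res x k) y l
  rwa [h, res_length] at this

theorem pl_q_pi {B : List Bool → Prop} (hB : PrimrecPred B) {R : List Bool → Set X}
    (hR : Cl 1 R) : IsPi01 (plQ B R) := by
  obtain ⟨q, hq, hm⟩ := hR
  have hs : Primrec fun p : (Unit × List Bool) × ℕ => p.1.2 := Primrec.snd.comp Primrec.fst
  have hd : Primrec fun p : (Unit × List Bool) × ℕ => p.1.2.drop p.2 :=
    Primrec.list_drop.comp Primrec.snd hs
  have ht : Primrec fun p : (Unit × List Bool) × ℕ => p.1.2.take p.2 :=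
    Primrec.list_take.comp Primrec.snd hs
  have h1 : Ar 1 fun p : (Unit × List Bool) × ℕ =>
      plMd B (p.1.2.drop p.2) → q (p.1.2.drop p.2, p.1.2.take p.2) :=
    Ar.imp ((pl_md_prim hB).comp hd) (hq.comp (hd.pair ht))
  have h2 := h1.ball (l := fun p : Unit × List Bool => List.range (p.2.length + 1))
    (Primrec.list_range.comp (Primrec.succ.comp (Primrec.list_length.comp Primrec.snd)))
  refine Cl.isPi01 (α := Unit) (C := fun _ => plQ B R) ⟨_, h2, fun a x => ⟨?_, ?_⟩⟩ ()
  · intro hx k L hL hmd
    simp only [List.mem_range, res_length] at hL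
    simp only [res_drop] at hmd ⊢
    obtain ⟨y, hy, e⟩ := hx _ hmd
    have e2 := pl_res_app e L
    rw [show L + (k - L) = k by omega] at e2
    rw [e2, List.take_left' (res_length y L)]
    exact (hm _ _).1 hy L
  · intro hx k hmd
    obtain ⟨y, e⟩ := pl_exists_app x k
    refine ⟨y, (hm _ _).2 fun l => ?_, e⟩
    have h3 := hx (l + k) l (by simp only [List.mem_range, res_length]; omega)
    simp only [pl_res_app e l, List.take_left' (res_length y l),
      List.drop_left' (res_length y l)] at h3
    exact h3 hmd

end Pool.Agent.Lib.MP_aad418_lc
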